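import Pool.Agent.W715.BC.Defs

/-!
# Project BC of helper715, part EMB
-/

set_option autoImplicit false

open Classical

namespace Pool.Agent.W902.BCEmb

open Pool.Agent.W715.BC

/-- the number of non-injective tuples -/
theorem noninj (Y : Type) [Fintype Y] (k : ℕ) (hk : k ≤ Fintype.card Y) (hY : 0 < Fintype.card Y) :
    ((Finset.univ.filter fun Q : Fin k → Y => ¬ Function.Injective Q).card : ℝ) ≤
      (k : ℝ) ^ 2 * (Fintype.card Y : ℝ) ^ (k - 1) := by
  set n := Fintype.card Y with hn
  have h1 : (Finset.univ.filter fun Q : Fin k → Y => Function.Injective Q).card =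
      n.descFactorial k := by
    have h2 := Fintype.card_embedding_eq (α := Fin k) (β := Y)
    rw [Fintype.card_fin, ← hn] at h2
    rw [← h2, ← Fintype.card_subtype]
    exact Fintype.card_congr (Equiv.subtypeInjectiveEquivEmbedding (Fin k) Y)
  have h3 : (Finset.univ.filter fun Q : Fin k → Y => Function.Injective Q).card +
      (Finset.univ.filter fun Q : Fin k → Y => ¬ Function.Injective Q).card = n ^ k := by
    rw [Finset.card_filter_add_card_filter_not, Finset.card_univ, Fintype.card_fun,
      Fintype.card_fin]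
  have h4 := Nat.pow_sub_le_descFactorial n k
  rcases Nat.eq_zero_or_pos k with rfl | hk0
  · rw [Nat.descFactorial_zero] at h1
    rw [h1, pow_zero] at h3
    have : (Finset.univ.filter fun Q : Fin 0 → Y => ¬ Function.Injective Q).card = 0 := by omega
    rw [this]
    simp
  · have hn0 : (0 : ℝ) < n := by exact_mod_cast hY
    have h5 : ((n : ℝ) ^ k - (k : ℝ) ^ 2 * (n : ℝ) ^ (k - 1)) ≤ ((n + 1 - k) ^ k : ℕ) := by
      have h6 : ((n + 1 - k : ℕ) : ℝ) = n * (1 + (-(((k : ℝ) - 1) / n))) := by
        rw [Nat.cast_sub (by omega)]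
        push_cast
        field_simp
        ring
      have hk1 : (1 : ℝ) ≤ k := by exact_mod_cast hk0
      have hkn : (k : ℝ) ≤ n := by exact_mod_cast hk
      have h7 : -2 ≤ -(((k : ℝ) - 1) / n) := by
        have : ((k : ℝ) - 1) / n ≤ 1 := by
          rw [div_le_one hn0]
          linarith
        linarith
      have h8 := one_add_mul_le_pow h7 k
      rw [Nat.cast_pow, h6, mul_pow]
      have h9 : (n : ℝ) ^ k = n * (n : ℝ) ^ (k - 1) := by
        rw [← pow_succ']
        congr 1
        omega
      have h10 : (n : ℝ) ^ k - (k : ℝ) ^ 2 * (n : ℝ) ^ (k - 1) ≤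
          (n : ℝ) ^ k * (1 + k * (-(((k : ℝ) - 1) / n))) := by
        have h11 : (n : ℝ) ^ k * (1 + k * (-(((k : ℝ) - 1) / n))) =
            (n : ℝ) ^ k - k * (k - 1) * (n : ℝ) ^ (k - 1) := by
          rw [mul_add, mul_one]
          conv_lhs => rw [h9]
          field_simp
          rw [h9]
          ring
        rw [h11]
        have h12 : (0 : ℝ) ≤ (n : ℝ) ^ (k - 1) := by positivity
        nlinarith
      exact h10.trans (mul_le_mul_of_nonneg_left h8 (by positivity))
    have h13 : ((n.descFactorial k : ℕ) : ℝ) +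
        ((Finset.univ.filter fun Q : Fin k → Y => ¬ Function.Injective Q).card : ℝ) =
        (n : ℝ) ^ k := by
      rw [← h1]
      exact_mod_cast h3
    have h14 : (((n + 1 - k) ^ k : ℕ) : ℝ) ≤ (n.descFactorial k : ℕ) := by exact_mod_cast h4
    linarith

theorem emb (hK : S_KST) : S_EMB := by
  intro s q s' t η hη
  obtain ⟨N₁, hN₁⟩ := hK (q + 1) (max s t) (η / 2) (by positivity)
  obtain ⟨N₂, hN₂⟩ := exists_nat_gt (2 * ((q + 1 : ℕ) : ℝ) ^ 2 / η)
  refine ⟨N₁ + N₂ + q + 1, ?_⟩
  intro A B _ _ r Y w hw hYw hcard hheavy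
  set k := q + 1 with hk
  set l := max s t with hl
  set n := Y.card with hn
  have hcY : Fintype.card Y = n := by rw [Fintype.card_coe]
  have hn0 : (0 : ℝ) < n := by
    have : 0 < n := by omega
    exact_mod_cast this
  set H : Finset (Fin k → Y) := Finset.univ.filter fun Q =>
    Function.Injective Q ∧ s * t + s' ≤ codeg r (fun i => (Q i : A)) with hH
  -- the number of heavy injective tuples
  have hHc : η / 2 * (Fintype.card Y : ℝ) ^ k ≤ (H.card : ℝ) := by
    rw [hcY]
    have h1 : (Finset.univ.filter (fun Q : Fin k → A =>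
        (∀ i, Q i ∈ Y) ∧ s * t + s' ≤ codeg r Q)).card ≤
        (Finset.univ.filter fun Q : Fin k → Y => s * t + s' ≤ codeg r (fun i => (Q i : A))).card := by
      refine Finset.card_le_card_of_surjOn (fun (Q : Fin k → Y) i => (Q i : A)) ?_
      intro Q hQ
      simp only [Finset.coe_filter, Finset.mem_univ, true_and, Set.mem_ofPred_eq] at hQ
      refine ⟨fun i => ⟨Q i, hQ.1 i⟩, ?_, rfl⟩
      simp only [Finset.coe_filter, Finset.mem_univ, true_and, Set.mem_ofPred_eq]
      exact hQ.2
    have h2 : (Finset.univ.filter fun Q : Fin k → Y =>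
        s * t + s' ≤ codeg r (fun i => (Q i : A))).card ≤ H.card +
        (Finset.univ.filter fun Q : Fin k → Y => ¬ Function.Injective Q).card := by
      refine le_trans (Finset.card_le_card ?_) (Finset.card_union_le _ _)
      intro Q hQ
      rw [Finset.mem_filter] at hQ
      rw [Finset.mem_union, hH, Finset.mem_filter, Finset.mem_filter]
      by_cases hi : Function.Injective Q
      · exact Or.inl ⟨Finset.mem_univ _, hi, hQ.2⟩
      · exact Or.inr ⟨Finset.mem_univ _, hi⟩
    have h3' := noninj Y k (by rw [hcY]; omega) (by rw [hcY]; omega)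
    rw [hcY] at h3'
    have h3 : ((Finset.univ.filter fun Q : Fin k → Y => ¬ Function.Injective Q).card : ℝ) ≤
      (k : ℝ) ^ 2 * (n : ℝ) ^ (k - 1) := by
      convert h3'
    have h4 : (k : ℝ) ^ 2 * (n : ℝ) ^ (k - 1) ≤ η / 2 * (n : ℝ) ^ k := by
      have h5 : (n : ℝ) ^ k = n * (n : ℝ) ^ (k - 1) := by
        rw [← pow_succ']
        congr 1
      have h6 : 2 * (k : ℝ) ^ 2 ≤ η * n := by
        rw [div_lt_iff₀ hη] at hN₂
        have h7 : (N₂ : ℝ) ≤ n := by exact_mod_cast (by omega : N₂ ≤ n)
        nlinarith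
      rw [h5, ← mul_assoc]
      exact mul_le_mul_of_nonneg_right (by linarith) (by positivity)
    have h8 : ((Finset.univ.filter (fun Q : Fin k → A =>
        (∀ i, Q i ∈ Y) ∧ s * t + s' ≤ codeg r Q)).card : ℝ) ≤ H.card +
        ((Finset.univ.filter fun Q : Fin k → Y => ¬ Function.Injective Q).card : ℝ) := by
      exact_mod_cast h1.trans h2
    have h9 : η * (n : ℝ) ^ k ≤ ((Finset.univ.filter (fun Q : Fin k → A =>
        (∀ i, Q i ∈ Y) ∧ s * t + s' ≤ codeg r Q)).card : ℝ) := by
      convert hheavy
    linarith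
  obtain ⟨g, hg1, hg2⟩ := hN₁ Y H (by rw [hcY]; omega) hHc
  have hsl : s ≤ l := le_max_left _ _
  have htl : t ≤ l := le_max_right _ _
  -- different parts are disjoint
  have hdis : ∀ i i' : Fin k, i ≠ i' → ∀ a b : Fin l, (g i a : A) ≠ g i' b := by
    intro i i' hii a b hab
    have h1 := hg2 (Function.update (fun _ => a) i' b)
    rw [hH, Finset.mem_filter] at h1
    have h2 := h1.2.1 (a₁ := i) (a₂ := i') (by
      simp only [Function.update_self, Function.update_of_ne hii]
      exact Subtype.ext hab)
    exact hii h2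
  -- the sets of common neighbours
  set T : Fin s × Fin t → Finset B := fun p =>
    (Finset.univ.filter fun b => ∀ m, r (g m ((Fin.cons (Fin.castLE htl p.2)
      (fun _ => Fin.castLE hsl p.1) : Fin k → Fin l) m)) b) \ Finset.univ.image w with hT
  have hTc : ∀ p, s * t ≤ (T p).card := by
    intro p
    have h1 := hg2 (Fin.cons (Fin.castLE htl p.2) (fun _ => Fin.castLE hsl p.1))
    rw [hH, Finset.mem_filter] at h1
    have h2 : s * t + s' ≤ (Finset.univ.filter fun b => ∀ m, r (g m ((Fin.cons
        (Fin.castLE htl p.2) (fun _ => Fin.castLE hsl p.1) : Fin k → Fin l) m)) b).card := h1.2.2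
    have h3 : (Finset.univ.image w).card ≤ s' := by
      refine Finset.card_image_le.trans ?_
      simp
    have h4 := Finset.le_card_sdiff (Finset.univ.image w)
      (Finset.univ.filter fun b => ∀ m, r (g m ((Fin.cons (Fin.castLE htl p.2)
      (fun _ => Fin.castLE hsl p.1) : Fin k → Fin l) m)) b)
    rw [hT]
    simp only
    omega
  obtain ⟨f, hf1, hf2⟩ := (Finset.all_card_le_biUnion_card_iff_exists_injective T).1 (by
    intro S
    rcases S.eq_empty_or_nonempty with rfl | ⟨p, hp⟩
    · simp
    · have h1 : S.card ≤ s * t := by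
        refine (Finset.card_le_univ S).trans ?_
        simp
      exact h1.trans ((hTc p).trans (Finset.card_le_card (Finset.subset_biUnion_of_mem T hp))))
  have hfr : ∀ p m, r (g m ((Fin.cons (Fin.castLE htl p.2)
      (fun _ => Fin.castLE hsl p.1) : Fin k → Fin l) m)) (f p) := by
    intro p
    have h1 := hf2 p
    rw [hT] at h1
    simp only [Finset.mem_sdiff, Finset.mem_filter, Finset.mem_univ, true_and] at h1
    exact h1.1
  have hfw : ∀ p a, f p ≠ w a := by
    intro p a h
    have h1 := hf2 p
    rw [hT] at h1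
    simp only [Finset.mem_sdiff, Finset.mem_image, Finset.mem_univ, true_and, not_exists] at h1
    exact h1.2 a h.symm
  refine ⟨fun j => g 0 (Fin.castLE htl j), fun i j => f (i, j),
    fun i a => g a.succ (Fin.castLE hsl i), w, ?_, ?_, ?_, hw, ?_, ?_, ?_, ?_, ?_⟩
  · intro j j' h
    have h1 := hg1 0 (Subtype.ext h)
    exact Fin.castLE_injective htl h1
  · intro p p' h
    exact hf1 h
  · rintro ⟨i, a⟩ ⟨i', a'⟩ h
    simp only at h
    by_cases haa : a = a'
    · subst haa
      have h1 := hg1 _ (Subtype.ext h)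
      rw [Fin.castLE_injective hsl h1]
    · exact absurd h (hdis _ _ (fun h => haa (Fin.succ_injective _ h)) _ _)
  · intro j i a
    exact hdis _ _ (Fin.succ_ne_zero a).symm _ _
  · intro i j a
    exact hfw _ a
  · intro i j
    have h1 := hfr (i, j) 0
    rwa [Fin.cons_zero] at h1
  · intro j a
    exact hYw _ (g 0 _).2 a
  · intro i j a
    have h1 := hfr (i, j) a.succ
    rwa [Fin.cons_succ] at h1

end Pool.Agent.W902.BCEmb
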