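import Pool.Agent.W749.JI.Stm
import Pool.Agent.W349.NMFin

/-!
# Project JI of helper749, part FINI (after `Pool.Agent.W63.MTFin` and `Pool.Agent.W349.NMFin`)
-/

set_option autoImplicit false

namespace Pool.Agent.W902.JIFini

open Pool.Agent.W428.MOT
open Pool.Agent.W426.SM (AffInd gord ford IsRay face)
open Pool.Agent.W749.JI
open Pool.Agent.W63.MTFin
open Pool.Agent.W349.NMFin (chi_empty amin_nonempty)

/-! ### The ring -/

theorem ratRing_mono {K : Type} [Field K] {S T : Set (ℤ × ℤ)} (h : S ⊆ T) :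
    ratRing K S ≤ ratRing K T := by
  unfold ratRing
  apply Algebra.adjoin_mono
  rintro g (hg | ⟨p, hp, rfl⟩)
  · exact Or.inl hg
  · exact Or.inr ⟨p, h hp, rfl⟩

theorem fin_of_mem {K : Type} [Field K] (G : Set (ℤ × ℤ)) (f : PowerSeries (MK K))
    (hf : f ∈ ratRing K G) : ∃ S : Finset (ℤ × ℤ), (∀ p ∈ S, p ∈ G) ∧ f ∈ ratRing K S := by
  classical
  unfold ratRing at hf
  induction hf using Algebra.adjoin_induction with
  | mem x hx =>
    rcases hx with hx | ⟨p, hp, rfl⟩
    · exact ⟨∅, by simp, Algebra.subset_adjoin (Or.inl hx)⟩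
    · exact ⟨{p}, by simpa using hp, geo_mem (by simp)⟩
  | algebraMap a => exact ⟨∅, by simp, (ratRing K _).algebraMap_mem a⟩
  | add x y _ _ hx hy =>
    obtain ⟨S, hS, hS'⟩ := hx
    obtain ⟨T, hT, hT'⟩ := hy
    refine ⟨S ∪ T, fun p hp => ?_, (ratRing K _).add_mem (ratRing_mono ?_ hS')
      (ratRing_mono ?_ hT')⟩
    · rcases Finset.mem_union.1 hp with h | h
      · exact hS p h
      · exact hT p h
    · intro p hp
      simp only [Finset.coe_union]
      exact Or.inl hp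
    · intro p hp
      simp only [Finset.coe_union]
      exact Or.inr hp
  | mul x y _ _ hx hy =>
    obtain ⟨S, hS, hS'⟩ := hx
    obtain ⟨T, hT, hT'⟩ := hy
    refine ⟨S ∪ T, fun p hp => ?_, (ratRing K _).mul_mem (ratRing_mono ?_ hS')
      (ratRing_mono ?_ hT')⟩
    · rcases Finset.mem_union.1 hp with h | h
      · exact hS p h
      · exact hT p h
    · intro p hp
      simp only [Finset.coe_union]
      exact Or.inl hp
    · intro p hp
      simp only [Finset.coe_union]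
      exact Or.inr hp

/-! ### Combinatorics -/

section Comb

variable {n k r : ℕ} (π : Fin k → Fin r) (m : Fin k → Fin n → ℕ)

theorem ford_one (m : Fin k → Fin n → ℕ) (a : Fin n → ℕ) :
    ford (fun _ => 0) m 1 a = gord m a := by
  simp [ford]

/-- the order is attained -/
theorem ord_att (hπ : Function.Surjective π) (u : Fin n → ℕ) (i : Fin r) :
    ∃ j, π j = i ∧ ∑ v, u v * m j v = ordI π m u i := by
  obtain ⟨j, hj⟩ := hπ i
  have : Nonempty {j : Fin k // π j = i} := ⟨⟨j, hj⟩⟩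
  obtain ⟨j', hj'⟩ := exists_eq_ciInf_of_finite (f := fun j : {j : Fin k // π j = i} =>
    ∑ v, u v * m j.1 v)
  exact ⟨j'.1, j'.2, hj'⟩

theorem tau_image (hπ : Function.Surjective π) (u : Fin n → ℕ) (N : ℕ) :
    (tau π m u N).image π = low π m u N := by
  ext i
  simp only [tau, low, Finset.mem_image, Finset.mem_filter, Finset.mem_univ, true_and]
  constructor
  · rintro ⟨j, ⟨h1, -⟩, rfl⟩
    exact h1
  · intro h
    obtain ⟨j, hj, hj'⟩ := ord_att π m hπ u i
    exact ⟨j, by rw [hj]; exact ⟨h, hj'⟩, hj⟩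

theorem cpI_zero (hπ : Function.Surjective π) (Q : Finset (Fin r)) (τ : Finset (Fin k))
    (h : τ.image π ≠ Q) (N : ℕ) : cpI π m Q τ N = 0 := by
  unfold cpI
  apply Finset.sum_eq_zero
  intro u hu
  rw [Finset.mem_filter] at hu
  exact absurd (by rw [← hu.2.2.1, ← hu.2.2.2, tau_image π m hπ]) h

/-- if the cell is empty, the polynomials vanish -/
theorem cp_zero' {n r : ℕ} (A : Fin n → ℕ) (m : Fin r → Fin n → ℕ) (e : ℕ) (J : Finset (Fin n))
    (τ : Finset (Fin r)) (h : ∀ u : Fin n → ℕ, Adm J u → amin m u ≠ τ) (N M : ℕ) :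
    cp A m e J τ N M = 0 := by
  unfold cp
  apply Finset.sum_eq_zero
  intro u hu
  rw [Finset.mem_filter] at hu
  exact absurd hu.2.2.1 (h u hu.2.1)

theorem cay_sum (π : Fin k → Fin r) (m : Fin k → Fin n → ℕ) (w : Fin (n + r) → ℕ) (j : Fin k) :
    ∑ i, w i * cay π m j i =
      ∑ v, w (Fin.castAdd r v) * m j v + w (Fin.natAdd n (π j)) := by
  rw [Fin.sum_univ_add]
  congr 1
  · exact Finset.sum_congr rfl fun v _ => by simp [cay]
  · simp [cay, Fin.append_right]

theorem cay_sumQ (π : Fin k → Fin r) (m : Fin k → Fin n → ℕ) (w : Fin (n + r) → ℚ) (j : Fin k) :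
    ∑ i, w i * cay π m j i =
      ∑ v, w (Fin.castAdd r v) * m j v + w (Fin.natAdd n (π j)) := by
  rw [Fin.sum_univ_add]
  congr 1
  · exact Finset.sum_congr rfl fun v _ => by simp [cay]
  · simp [cay, Fin.append_right]

/-- adding a constant to the weights -/
theorem gord_add {n n' k : ℕ} (hk : 0 < k) (m : Fin k → Fin n → ℕ) (m' : Fin k → Fin n' → ℕ)
    (u : Fin n → ℕ) (u' : Fin n' → ℕ) (d : ℕ)
    (h : ∀ j, ∑ i, u' i * m' j i = ∑ i, u i * m j i + d) : gord m' u' = gord m u + d := by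
  have : Nonempty (Fin k) := ⟨⟨0, hk⟩⟩
  unfold gord
  apply le_antisymm
  · obtain ⟨j, hj⟩ := exists_eq_ciInf_of_finite (f := fun j => ∑ i, u i * m j i)
    rw [← hj, ← h j]
    exact ciInf_le' _ j
  · apply le_ciInf
    intro j
    rw [h j]
    exact Nat.add_le_add_right (ciInf_le' _ j) d

theorem amin_add {n n' k : ℕ} (hk : 0 < k) (m : Fin k → Fin n → ℕ) (m' : Fin k → Fin n' → ℕ)
    (u : Fin n → ℕ) (u' : Fin n' → ℕ) (d : ℕ)
    (h : ∀ j, ∑ i, u' i * m' j i = ∑ i, u i * m j i + d) : amin m' u' = amin m u := by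
  ext j
  simp only [amin, Finset.mem_filter, Finset.mem_univ, true_and]
  rw [gord_add hk m m' u u' d h, h j]
  omega

theorem face_iff (π : Fin k → Fin r) (hk : 0 < k) (m : Fin k → Fin n → ℕ) (a : Fin n → ℕ)
    (j : Fin k) : face (cay π m) (Fin.append a 0) j ↔ face m a j := by
  have h : ∀ j, ∑ i, (Fin.append a 0 : Fin (n + r) → ℕ) i * cay π m j i =
      ∑ i, a i * m j i + 0 := by
    intro j
    rw [cay_sum]
    simp [Fin.append_left, Fin.append_right]
  unfold face
  rw [gord_add hk m (cay π m) a (Fin.append a 0) 0 h, h j]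
  simp

theorem ray_lift (π : Fin k → Fin r) (hk : 0 < k) (m : Fin k → Fin n → ℕ) (a : Fin n → ℕ)
    (ha : IsRay m a) : IsRay (cay π m) (Fin.append a 0) := by
  refine ⟨fun h => ha.1 (funext fun v => ?_), fun w hw hf => ?_⟩
  · have := congrFun h (Fin.castAdd r v)
    simpa [Fin.append_left] using this
  · have hw0 : ∀ i, w (Fin.natAdd n i) = 0 := fun i => hw _ (by simp [Fin.append_right])
    obtain ⟨ρ, hρ⟩ := ha.2 (fun v => w (Fin.castAdd r v))
      (fun v hv => hw _ (by simpa [Fin.append_left] using hv)) (fun j j' hj hj' => by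
        have := hf j j' ((face_iff π hk m a j).2 hj) ((face_iff π hk m a j').2 hj')
        rw [cay_sumQ, cay_sumQ, hw0, hw0, add_zero, add_zero] at this
        exact this)
    refine ⟨ρ, fun i => ?_⟩
    refine Fin.addCases (fun v => ?_) (fun i => ?_) i
    · rw [hρ v, Fin.append_left]
    · rw [hw0, Fin.append_right]
      simp

end Comb

/-- the pairs that are allowed -/
def Good {n r : ℕ} (f : Fin r → MvPolynomial (Fin n) ℂ) : Set (ℤ × ℤ) :=
  {p | p.1 < 0 ∧ 0 < p.2 ∧ ∀ b : Polynomial ℂ, IsLocalBIdeal f b →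
    b.eval ((p.1 : ℂ) / p.2) = 0}

/-- a root gives an allowed pair -/
theorem good_of {n n' r : ℕ} (f : Fin r → MvPolynomial (Fin n) ℂ) (a : Fin n' → ℕ) (d : ℕ)
    (ha : a ≠ 0) (hd : 0 < d)
    (h : ∀ b : Polynomial ℂ, IsLocalBIdeal f b → b.eval (-(((∑ i, a i : ℕ) : ℂ) / d)) = 0) :
    (-((∑ i, a i : ℕ) : ℤ), (d : ℤ)) ∈ Good f := by
  have hpos : 0 < ∑ i, a i := by
    by_contra hcon
    refine ha (funext fun i => ?_)
    exact Finset.sum_eq_zero_iff.1 (Nat.eq_zero_of_not_pos hcon) i (Finset.mem_univ i)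
  refine ⟨?_, Int.natCast_pos.2 hd, fun b hb => ?_⟩
  · simp only [Left.neg_neg_iff]
    exact_mod_cast hpos
  · have := h b hb
    have h6 : (((-((∑ i, a i : ℕ) : ℤ) : ℤ) : ℂ) / ((d : ℤ) : ℂ)) =
        -(((∑ i, a i : ℕ) : ℂ) / d) := by
      push_cast
      ring
    simp only [h6]
    exact this

/-- the cells of `m` -/
theorem mem_low (h5 : S_RAT2) (h6 : S_RootG) {n k r : ℕ} (π : Fin k → Fin r)
    (m : Fin k → Fin n → ℕ) (c : Fin k → ℂ) (hk : 0 < k) (hJ : JInd π m) (hc : ∀ j, c j ≠ 0)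
    (hm : ∀ j v, m j v ≠ 1) (σ : Finset (Fin k)) :
    PowerSeries.map (ev ℂ) (PowerSeries.mk fun M => cp (fun _ => 0) m 1 Finset.univ σ M M) ∈
      ratRing ℂ (Good (fam π m c)) := by
  by_cases hcell : ∃ u : Fin n → ℕ, Adm Finset.univ u ∧ amin m u = σ
  · obtain ⟨u, hu, rfl⟩ := hcell
    obtain ⟨l, P, hl, hP⟩ := h5 (fun _ => 0) m 1 Finset.univ (amin m u) hk one_pos
    refine rat_mem _ (ford (fun _ => 0) m 1) P l (fun a ha => ?_) hP
    obtain ⟨ha1, ha2, -, ha4⟩ := hl a ha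
    refine ⟨ha2, good_of _ a _ ha1.1 ha2 fun b hb => ?_⟩
    have hu' : ∀ v, 0 < u v := fun v => Nat.pos_of_ne_zero ((hu v).2 (Finset.mem_univ v))
    have hs : ∀ j, ∑ i, (Fin.append a 0 : Fin (n + r) → ℕ) i * cay π m j i =
        ∑ i, a i * m j i + 0 := by
      intro j
      rw [cay_sum]
      simp [Fin.append_left, Fin.append_right]
    have hs1 : ∀ j, ∑ i, (Fin.append u 1 : Fin (n + r) → ℕ) i * cay π m j i =
        ∑ i, u i * m j i + 1 := by
      intro j
      rw [cay_sum]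
      simp [Fin.append_left, Fin.append_right]
    have hg := gord_add hk m (cay π m) a (Fin.append a 0) 0 hs
    have := h6 π m c hJ hc hk hm b hb (Fin.append a 0) (Fin.append u 1)
      (ray_lift π hk m a ha1) (by rw [hg, add_zero, ← ford_one]; exact ha2)
      (fun i => by
        refine Fin.addCases (fun v => ?_) (fun i => ?_) i
        · rw [Fin.append_left]; exact hu' v
        · rw [Fin.append_right]; exact one_pos)
      (by
        rw [amin_add hk m (cay π m) u _ 1 hs1, amin_add hk m (cay π m) a _ 0 hs]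
        exact ha4)
      (fun i hi => by simp [Fin.append_right] at hi)
    rw [hg, add_zero] at this
    rw [ford_one]
    have h8 : ∑ i, (Fin.append a 0 : Fin (n + r) → ℕ) i = ∑ i, a i := by
      rw [Fin.sum_univ_add]
      simp [Fin.append_left, Fin.append_right]
    rw [h8] at this
    exact this
  · push Not at hcell
    have : (PowerSeries.mk fun M => cp (fun _ => 0) m 1 Finset.univ σ M M) = 0 := by
      ext1 M
      rw [PowerSeries.coeff_mk, cp_zero' _ m 1 _ σ hcell, map_zero]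
    rw [this, map_zero]
    exact (ratRing ℂ _).zero_mem

/-- the cells of `cay π m` -/
theorem mem_cay (h5 : S_RAT2) (h6 : S_RootG) {n k r : ℕ} (π : Fin k → Fin r)
    (m : Fin k → Fin n → ℕ) (c : Fin k → ℂ) (hk : 0 < k) (hJ : JInd π m) (hc : ∀ j, c j ≠ 0)
    (hm : ∀ j v, m j v ≠ 1) (τ : Finset (Fin k)) (Q' : Finset (Fin r))
    (hQ : ∀ i ∈ Q', 2 ≤ (τ.filter fun j => π j = i).card) :
    PowerSeries.map (ev ℂ) (PowerSeries.mk fun M =>
        cp (fun _ => 0) (cay π m) 1 (JQ n Q') τ M M) ∈ ratRing ℂ (Good (fam π m c)) := by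
  by_cases hcell : ∃ u : Fin (n + r) → ℕ, Adm (JQ n Q') u ∧ amin (cay π m) u = τ
  · obtain ⟨u, hu, rfl⟩ := hcell
    obtain ⟨l, P, hl, hP⟩ := h5 (fun _ => 0) (cay π m) 1 (JQ n Q') (amin (cay π m) u) hk one_pos
    refine rat_mem _ (ford (fun _ => 0) (cay π m) 1) P l (fun a ha => ?_) hP
    obtain ⟨ha1, ha2, ha3, ha4⟩ := hl a ha
    refine ⟨ha2, good_of _ a _ ha1.1 ha2 fun b hb => ?_⟩
    set u₀ : Fin (n + r) → ℕ := fun i => u i + (Fin.append 0 1 : Fin (n + r) → ℕ) i with hu₀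
    have hs1 : ∀ j, ∑ i, u₀ i * cay π m j i = ∑ i, u i * cay π m j i + 1 := by
      intro j
      rw [cay_sum, cay_sum]
      simp [hu₀, Fin.append_left, Fin.append_right, add_assoc]
    rw [ford_one] at ha2
    have := h6 π m c hJ hc hk hm b hb a u₀ ha1 ha2
      (fun i => by
        refine Fin.addCases (fun v => ?_) (fun i => ?_) i
        · have h9 : u (Fin.castAdd r v) ≠ 0 := (hu _).2 (by simp [JQ])
          simp only [hu₀, Fin.append_left]
          omega
        · simp only [hu₀, Fin.append_right]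
          simp)
      (by
        rw [amin_add hk (cay π m) (cay π m) u u₀ 1 hs1]
        exact ha4)
      (fun i hi => by
        rw [amin_add hk (cay π m) (cay π m) u u₀ 1 hs1]
        apply hQ
        have h9 := ha3 _ hi
        simp only [JQ, Finset.mem_union, Finset.mem_map, Finset.mem_univ, true_and] at h9
        rcases h9 with ⟨v, hv⟩ | ⟨i', hi', he⟩
        · exfalso
          have h10 := congrArg Fin.val hv
          simp at h10
          have := v.2
          omega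
        · have h10 : i' = i := Fin.natAdd_injective r n (by simpa using he)
          rwa [← h10])
    rw [ford_one]
    exact this
  · push Not at hcell
    have : (PowerSeries.mk fun M => cp (fun _ => 0) (cay π m) 1 (JQ n Q') τ M M) = 0 := by
      ext1 M
      rw [PowerSeries.coeff_mk, cp_zero' _ (cay π m) 1 _ τ hcell, map_zero]
    rw [this, map_zero]
    exact (ratRing ℂ _).zero_mem

/-- one monomial has no zero in the torus -/
theorem BI_empty {K : Type} [Field K] {n k r : ℕ} (π : Fin k → Fin r) (m : Fin k → Fin n → ℕ)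
    (c : Fin k → K) (hc : ∀ j, c j ≠ 0) (Q : Finset (Fin r)) (τ : Finset (Fin k)) (i : Fin r)
    (hi : i ∈ Q) (hτ : (τ.filter fun j => π j = i).card = 1) : BI π m c Q τ = ∅ := by
  obtain ⟨j, hj⟩ := Finset.card_eq_one.mp hτ
  ext z
  simp only [Set.mem_empty_iff_false, iff_false]
  rintro ⟨h1, -, h3⟩
  have h4 := h3 i hi
  have h5 : gbar m (cI π (cb c) i) τ z =
      ∑ j ∈ τ.filter (fun j => π j = i), cb c j * ∏ v, z v ^ m j v := by
    unfold gbar
    rw [Finset.sum_filter]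
    refine Finset.sum_congr rfl fun j _ => ?_
    unfold cI
    split_ifs <;> simp
  rw [h5, hj, Finset.sum_singleton] at h4
  rcases mul_eq_zero.mp h4 with h | h
  · exact hc j (by simpa [cb] using h)
  · obtain ⟨v, -, hv⟩ := Finset.prod_eq_zero_iff.mp h
    exact h1 v (by
      by_contra hne
      exact pow_ne_zero _ hne hv)

/-- the differences of the counting polynomials -/
theorem mem_diff (h3 : S_CPI) (h4 : S_CPE) (h5 : S_RAT2) (h6 : S_RootG)
    (h7 : Pool.Agent.W428.MOT.S_CP1) {n k r : ℕ} (π : Fin k → Fin r) (m : Fin k → Fin n → ℕ)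
    (c : Fin k → ℂ) (hk : 0 < k) (hπ : Function.Surjective π) (hJ : JInd π m)
    (hc : ∀ j, c j ≠ 0) (hm : ∀ j v, m j v ≠ 1) (χ : Set (Pt ℂ (Fin n)) → MK ℂ)
    (hχ : χ ∅ = 0) (Q : Finset (Fin r)) (τ : Finset (Fin k)) :
    ∃ E ∈ ratRing ℂ (Good (fam π m c)), ∀ N, 1 ≤ N → PowerSeries.coeff N E =
      χ (BI π m c Q τ) * (ev ℂ (cpI π m Q τ N) - ev ℂ (cpI π m Q τ (N + 1))) := by
  classical
  by_cases hQτ : τ.image π = Q
  swap
  · refine ⟨0, (ratRing ℂ _).zero_mem, fun N _ => ?_⟩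
    rw [cpI_zero π m hπ Q τ hQτ, cpI_zero π m hπ Q τ hQτ, sub_self, mul_zero, map_zero]
  rcases τ.eq_empty_or_nonempty with rfl | hτ
  · -- the empty type
    have hQ : Q = ∅ := by rw [← hQτ]; rfl
    subst hQ
    refine ⟨PowerSeries.C (χ (BI π m c ∅ ∅)) * ∑ σ : Finset (Fin k),
      PowerSeries.C (ev ℂ ((1 - Polynomial.X) ^ (n - (fr m σ).card))) *
        PowerSeries.map (ev ℂ) (PowerSeries.mk fun M => cp (fun _ => 0) m 1 Finset.univ σ M M),
      (ratRing ℂ _).mul_mem (C_mem _ _) ((ratRing ℂ _).sum_mem fun σ _ =>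
        (ratRing ℂ _).mul_mem (C_mem _ _) (mem_low h5 h6 π m c hk hJ hc hm σ)),
      fun N _ => ?_⟩
    have e1 := h4 π m hπ hk N
    have e2 := h4 π m hπ hk (N + 1)
    rw [Finset.sum_range_succ] at e2
    have e3 : cpI π m ∅ ∅ N - cpI π m ∅ ∅ (N + 1) = ∑ σ : Finset (Fin k),
        (1 - Polynomial.X) ^ (n - (fr m σ).card) *
          cp (fun _ => 0) m 1 Finset.univ σ N N := by
      linear_combination e1 - e2
    rw [← map_sub, e3, PowerSeries.coeff_C_mul, map_sum, map_sum]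
    congr 1
    refine Finset.sum_congr rfl fun σ _ => ?_
    rw [PowerSeries.coeff_C_mul, PowerSeries.coeff_map, PowerSeries.coeff_mk, map_mul]
  · by_cases hcard : ∀ i ∈ Q, 2 ≤ (τ.filter fun j => π j = i).card
    · -- the main case
      set H : PowerSeries (MK ℂ) := ∑ Q' ∈ Q.powerset, PowerSeries.map (ev ℂ)
        (PowerSeries.mk fun M => cp (fun _ => 0) (cay π m) 1 (JQ n Q') τ M M) with hH
      have hHm : H ∈ ratRing ℂ (Good (fam π m c)) := (ratRing ℂ _).sum_mem fun Q' hQ' =>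
        mem_cay h5 h6 π m c hk hJ hc hm τ Q' fun i hi =>
          hcard i (Finset.mem_powerset.1 hQ' hi)
      have hHc : ∀ M, PowerSeries.coeff M H = ev ℂ (cpI π m Q τ (M + 1)) := by
        intro M
        rw [← hQτ, h3 π m hπ τ hτ M, hH, ← hQτ, map_sum, map_sum]
        refine Finset.sum_congr rfl fun Q' _ => ?_
        rw [PowerSeries.coeff_map, PowerSeries.coeff_mk,
          h7 (fun _ => 0) (cay π m) 1 (JQ n Q') τ hk one_pos (M + 1) M (Nat.le_succ M)]
      refine ⟨PowerSeries.C (χ (BI π m c Q τ)) * ((PowerSeries.X - 1) * H),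
        (ratRing ℂ _).mul_mem (C_mem _ _) ((ratRing ℂ _).mul_mem
          ((ratRing ℂ _).sub_mem (X_mem _) (ratRing ℂ _).one_mem) hHm), fun N hN => ?_⟩
      obtain ⟨M, rfl⟩ : ∃ M, N = M + 1 := ⟨N - 1, by omega⟩
      rw [PowerSeries.coeff_C_mul, sub_mul, one_mul, map_sub, PowerSeries.coeff_succ_X_mul,
        hHc, hHc]
    · -- a single monomial
      push Not at hcard
      obtain ⟨i, hi, hi2⟩ := hcard
      have h1 : 0 < (τ.filter fun j => π j = i).card := by
        rw [← hQτ] at hi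
        obtain ⟨j, hj, hj'⟩ := Finset.mem_image.1 hi
        exact Finset.card_pos.2 ⟨j, Finset.mem_filter.2 ⟨hj, hj'⟩⟩
      refine ⟨0, (ratRing ℂ _).zero_mem, fun N _ => ?_⟩
      rw [BI_empty π m c hc Q τ i hi (by omega), hχ, zero_mul, map_zero]

theorem main (h0 : Pool.Agent.W428.MOT.S_K0) (h1 : S_JetI) (h2 : S_SumI) (h3 : S_CPI)
    (h4 : S_CPE) (h5 : S_RAT2) (h6 : S_RootG) (h7 : Pool.Agent.W428.MOT.S_CP1) : S_FINI := by
  classical
  intro n k r π m c hr hπ hJ hc hm _
  have hk : 0 < k := by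
    obtain ⟨j, -⟩ := hπ ⟨0, hr⟩
    exact lt_of_le_of_lt (Nat.zero_le _) j.2
  obtain ⟨M₀, hM₀⟩ := h0 ℂ
  set M := mapMeas M₀ (algebraMap (K0 ℂ) (MK ℂ)) with hM
  set Y : MK ℂ := (((Lu ℂ)⁻¹ : (MK ℂ)ˣ) : MK ℂ) with hY
  have hL : M.L * Y = 1 := L_mul hM₀
  have hsum := h2 M π m c hπ hJ hc Y hL
  apply fin_of_mem (Good (fam π m c))
  choose E hE hEc using fun Q τ => mem_diff h3 h4 h5 h6 h7 π m c hk hπ hJ hc hm
    (fun S => M.χ _ S) (chi_empty M _) Q τ
  set F : PowerSeries (MK ℂ) := ∑ Q : Finset (Fin r), ∑ τ : Finset (Fin k),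
    PowerSeries.C (Y ^ (n - (fr m τ).card)) * E Q τ with hF
  have hFmem : F ∈ ratRing ℂ (Good (fam π m c)) := (ratRing ℂ _).sum_mem fun Q _ =>
    (ratRing ℂ _).sum_mem fun τ _ => (ratRing ℂ _).mul_mem (C_mem _ _) (hE Q τ)
  have hz : zetaI (fam π m c) = F - PowerSeries.C (PowerSeries.coeff 0 F) := by
    rw [zetaI]
    ext N
    by_cases hN : N = 0
    · subst hN
      rw [PowerSeries.coeff_C_mul, PowerSeries.coeff_mk, if_pos rfl, map_sub,
        PowerSeries.coeff_C, if_pos rfl, sub_self, mul_zero]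
    · rw [PowerSeries.coeff_C_mul, PowerSeries.coeff_mk, if_neg hN, map_sub,
        PowerSeries.coeff_C, if_neg hN, sub_zero]
      have hN1 : 1 ≤ N := by omega
      have e1 : algebraMap (K0 ℂ) (MK ℂ) (cls (Fin n × Fin (N + 1)) (JetI (fam π m c) N)) *
          (((Lu ℂ) ^ (-((n * N : ℕ) : ℤ)) : (MK ℂ)ˣ) : MK ℂ) =
          M.χ _ (JetI (fam π m c) N) * Y ^ (n * N) := by
        rw [zpow_neg, zpow_natCast, ← inv_pow, Units.val_pow_eq_pow_val, ← hM₀]
        rfl
      have e2 : (((Lu ℂ) ^ (-(n : ℤ)) : (MK ℂ)ˣ) : MK ℂ) = Y ^ n := by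
        rw [zpow_neg, zpow_natCast, ← inv_pow, Units.val_pow_eq_pow_val]
      rw [e1, e2]
      have e3 := h1 M (fam π m c) N hN1
      have e4 : Y ^ n * (M.χ _ (JetI (fam π m c) N) * Y ^ (n * N)) =
          M.χ _ (GE (fam π m c) N) * Y ^ (n * (2 * N + 2)) -
            M.χ _ (GE (fam π m c) (N + 1)) * Y ^ (n * (2 * (N + 1) + 2)) := by
        have hLp : ∀ a : ℕ, M.L ^ a * Y ^ a = 1 := fun a => by rw [← mul_pow, hL, one_pow]
        have f1 : Y ^ n * Y ^ (n * N) = M.L ^ (n * (N + 3)) * Y ^ (n * (2 * (N + 1) + 2)) := by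
          have : n * (2 * (N + 1) + 2) = n * (N + 3) + (n + n * N) := by ring
          rw [this, pow_add, pow_add, ← mul_assoc, hLp, one_mul]
        have f2 : Y ^ (n * (2 * N + 2)) = M.L ^ (2 * n) * Y ^ (n * (2 * (N + 1) + 2)) := by
          have : n * (2 * (N + 1) + 2) = 2 * n + n * (2 * N + 2) := by ring
          rw [this, pow_add, ← mul_assoc, hLp, one_mul]
        rw [f2]
        calc Y ^ n * (M.χ _ (JetI (fam π m c) N) * Y ^ (n * N)) =
            M.χ _ (JetI (fam π m c) N) * (Y ^ n * Y ^ (n * N)) := by ring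
          _ = _ := by
            rw [f1]
            linear_combination Y ^ (n * (2 * (N + 1) + 2)) * e3
      rw [e4, hsum N hN1, hsum (N + 1) (by omega), hF, map_sum, ← Finset.sum_sub_distrib]
      refine Finset.sum_congr rfl fun Q _ => ?_
      rw [map_sum, ← Finset.sum_sub_distrib]
      refine Finset.sum_congr rfl fun τ _ => ?_
      rw [PowerSeries.coeff_C_mul, hEc Q τ N hN1]
      have e5 : ∀ P : Polynomial ℤ, ev ℂ P = Polynomial.eval₂ (Int.castRingHom (MK ℂ)) Y P :=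
        fun P => rfl
      rw [e5, e5]
      ring
  rw [hz]
  exact (ratRing ℂ _).sub_mem hFmem (C_mem _ _)

end Pool.Agent.W902.JIFini
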