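import Pool.Agent.H554R2.Lin.Blocks

/-!
# Blocks of a program, with a bound for the lengths of the computations
-/

set_option autoImplicit false

open Finset

namespace Pool.Agent.W902.Blks

open Pool.Agent.H554R2.Sem Pool.Agent.H554R2.Coin Pool.Agent.H554R2.Lin

variable {n : ℕ} (P : BP (Fin n) Bool)

theorem comp_of (x : Pt n) (b : Bool) (t : ℕ) (v : P.State)
    (h : P.node (V1_it P x v t) = Sum.inr b) :
    ∃ l w, P.Walk x v l w ∧ P.node w = Sum.inr b ∧ l.length ≤ t := by
  induction t generalizing v with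
  | zero => exact ⟨[], v, rfl, h, le_refl _⟩
  | succ t ih =>
    rw [V1_it_succ] at h
    rcases hv : P.node v with a | c
    · rw [V1_st_inl P x hv] at h
      obtain ⟨l, w, h1, h2, h3⟩ := ih _ h
      exact ⟨a.1 :: l, w, ⟨a.2, hv, h1⟩, h2, by simpa using h3⟩
    · rw [V1_st_inr P x hv] at h
      obtain ⟨l, w, h1, h2, h3⟩ := ih _ h
      exact ⟨l, w, h1, h2, by omega⟩

/-- the blocks of a class -/
theorem blk_main (r s : ℕ) (τ : ℕ → ℕ) (hτ0 : τ 0 = 0) (hτ : ∀ j, τ j ≤ τ (j + 1))
    (hτs : ∀ j, τ (j + 1) ≤ τ j + s) (κ : Fin (r + 1) → P.State) (h0 : κ 0 = P.start)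
    (hlast : P.node (κ (Fin.last r)) = Sum.inr false) :
    ∃ B : Blk n r s, (∀ x : Pt n, x ∈ B.K ↔ ∀ j : Fin (r + 1), V1_it P x P.start (τ j) = κ j) ∧
      ∀ x ∈ B.K, ∃ l, P.Comp x l false ∧ l.length ≤ τ r := by
  classical
  refine ⟨{
    K := univ.filter fun x : Pt n => ∀ j : Fin (r + 1), V1_it P x P.start (τ j) = κ j
    Rd := fun j x => V1_rd P x (κ j.castSucc) (τ (j + 1) - τ j)
    size := fun x _ j => (V1_card_rd P x _ _).trans (by have := hτs j; omega)
    det := ?_
    splice := ?_ }, ?_, ?_⟩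
  · intro x _ y _ j hxy
    have h1 := V1_agree P x (fun i => if i ∈ V1_rd P x (κ j.castSucc) (τ (j + 1) - τ j) then x i
      else y i) (τ (j + 1) - τ j) (κ j.castSucc) (by
        intro i hi
        simp only [if_pos hi])
    have h2 := V1_agree P y (fun i => if i ∈ V1_rd P x (κ j.castSucc) (τ (j + 1) - τ j) then x i
      else y i) (τ (j + 1) - τ j) (κ j.castSucc) (by
        intro i hi
        by_cases hi2 : i ∈ V1_rd P x (κ j.castSucc) (τ (j + 1) - τ j)
        · simp only [if_pos hi2]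
          exact hxy i hi2 hi
        · simp only [if_neg hi2])
    rw [← h1.1, ← h2.1]
  · intro X hX z hz
    have hag : ∀ j : Fin r, V1_rd P z (κ j.castSucc) (τ (j + 1) - τ j) =
        V1_rd P (X j) (κ j.castSucc) (τ (j + 1) - τ j) ∧
        V1_it P z (κ j.castSucc) (τ (j + 1) - τ j) =
          V1_it P (X j) (κ j.castSucc) (τ (j + 1) - τ j) :=
      fun j => V1_agree P (X j) z _ _ (hz j)
    have hit : ∀ j : ℕ, ∀ hj : j < r + 1, V1_it P z P.start (τ j) = κ ⟨j, hj⟩ := by
      intro j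
      induction j with
      | zero =>
        intro hj
        rw [hτ0, V1_it_zero]
        exact h0.symm
      | succ j ih =>
        intro hj
        have hj' : j < r := by omega
        have h1 := ih (by omega)
        have h2 := (Finset.mem_filter.1 (hX ⟨j, hj'⟩)).2
        have h3 := h2 (Fin.castSucc ⟨j, hj'⟩)
        have h4 := h2 (Fin.succ ⟨j, hj'⟩)
        have h5 := (hag ⟨j, hj'⟩).2
        have e1 : τ (j + 1) = τ j + (τ (j + 1) - τ j) := by have := hτ j; omega
        rw [e1, V1_it_add, h1]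
        change V1_it P z (κ (Fin.castSucc ⟨j, hj'⟩)) (τ (j + 1) - τ j) = κ (Fin.succ ⟨j, hj'⟩)
        rw [h5]
        conv_lhs => rw [← h3]
        rw [← V1_it_add, ← h4]
        congr 1
        exact e1.symm
    refine ⟨?_, fun j => (hag j).1⟩
    rw [Finset.mem_filter]
    exact ⟨Finset.mem_univ _, fun j => hit j j.2⟩
  · intro x
    simp
  · intro x hx
    have h1 := (Finset.mem_filter.1 hx).2 (Fin.last r)
    obtain ⟨l, w, h2, h3, h4⟩ := comp_of P x false _ P.start (by rw [h1]; exact hlast)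
    exact ⟨l, ⟨w, h2, h3⟩, by simpa using h4⟩

/-- a large class -/
theorem blks (r s t : ℕ) (hr : 1 ≤ r) (ht : t ≤ r * s) (G : Finset (Pt n))
    (hG : ∀ x ∈ G, ∃ l, P.Comp x l false ∧ l.length ≤ t) :
    ∃ B : Blk n r s, G.card ≤ Fintype.card P.State ^ (r + 1) * B.K.card ∧
      ∀ x ∈ B.K, ∃ l, P.Comp x l false ∧ l.length ≤ t := by
  classical
  rcases G.eq_empty_or_nonempty with h | hn
  · subst h
    refine ⟨{
      K := ∅
      Rd := fun _ _ => ∅
      size := by simp
      det := by simp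
      splice := fun X hX => absurd (hX ⟨0, hr⟩) (Finset.notMem_empty _) }, by simp, by simp⟩
  let τ : ℕ → ℕ := fun j => min (j * s) t
  have hτ0 : τ 0 = 0 := by simp [τ]
  have hτr : τ r = t := min_eq_right ht
  have hτ : ∀ j, τ j ≤ τ (j + 1) := by
    intro j
    simp only [τ, add_mul, one_mul]
    omega
  have hτs : ∀ j, τ (j + 1) ≤ τ j + s := by
    intro j
    simp only [τ, add_mul, one_mul]
    omega
  let cls : Pt n → (Fin (r + 1) → P.State) := fun x j => V1_it P x P.start (τ j)
  obtain ⟨κ, _, hκ⟩ := Finset.exists_max_image (univ : Finset (Fin (r + 1) → P.State))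
    (fun κ => (G.filter fun x => cls x = κ).card) ⟨fun _ => P.start, Finset.mem_univ _⟩
  have h1 : G.card = ∑ κ' : Fin (r + 1) → P.State, (G.filter fun x => cls x = κ').card :=
    Finset.card_eq_sum_card_fiberwise fun x _ => Finset.mem_univ _
  have h2 : G.card ≤ Fintype.card P.State ^ (r + 1) * (G.filter fun x => cls x = κ).card := by
    rw [h1]
    refine (Finset.sum_le_card_nsmul _ _ _ hκ).trans (le_of_eq ?_)
    rw [Finset.card_univ, smul_eq_mul, Fintype.card_fun, Fintype.card_fin]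
  have hne : (G.filter fun x => cls x = κ).Nonempty := by
    rw [← Finset.card_pos]
    by_contra h3
    have h4 : (G.filter fun x => cls x = κ).card = 0 := by omega
    rw [h4, mul_zero] at h2
    have := Finset.card_pos.2 hn
    omega
  obtain ⟨x0, hx0⟩ := hne
  obtain ⟨hx0G, hx0c⟩ := Finset.mem_filter.1 hx0
  obtain ⟨l, hl, hlen⟩ := hG x0 hx0G
  have h0 : κ 0 = P.start := by
    rw [← hx0c]
    change V1_it P x0 P.start (τ ((0 : Fin (r + 1)) : ℕ)) = _
    rw [Fin.val_zero, hτ0, V1_it_zero]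
  have hlast : P.node (κ (Fin.last r)) = Sum.inr false := by
    rw [← hx0c]
    change P.node (V1_it P x0 P.start (τ ((Fin.last r : Fin (r + 1)) : ℕ))) = _
    rw [Fin.val_last, hτr]
    exact V1_comp P x0 hl hlen
  obtain ⟨B, hB, hB2⟩ := blk_main P r s τ hτ0 hτ hτs κ h0 hlast
  rw [hτr] at hB2
  refine ⟨B, h2.trans (Nat.mul_le_mul_left _ (Finset.card_le_card ?_)), hB2⟩
  intro x hx
  rw [hB]
  intro j
  exact congrFun (Finset.mem_filter.1 hx).2 j

end Pool.Agent.W902.Blks
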