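import Mathlib

/-!
# Coefficients for which all the large matchings give matrices with small kernels
-/

set_option autoImplicit false
set_option linter.unusedSectionVars false

open Finset

namespace Pool.Agent.W902.Coef

section kernel

variable {τ K : Type} [Fintype τ] [DecidableEq τ] [Field K] [Fintype K] [DecidableEq K]

/-- the kernel of a matrix -/
def ker (N : τ → τ → K) : Finset (τ → K) := univ.filter fun v => ∀ k, ∑ l, N k l * v l = 0

/-- the matrix with a changed diagonal -/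
def dg (N : τ → τ → K) (d : τ → K) : τ → τ → K := fun k l => N k l + if k = l then d k else 0

theorem mem_ker_dg (N : τ → τ → K) (d v : τ → K) :
    v ∈ ker (dg N d) ↔ ∀ k, ∑ l, N k l * v l + d k * v k = 0 := by
  unfold ker dg
  rw [Finset.mem_filter]
  simp only [Finset.mem_univ, true_and, add_mul, Finset.sum_add_distrib, ite_mul, zero_mul,
    Finset.sum_ite_eq, if_true]

theorem sum_ker (N : τ → τ → K) :
    ∑ d : τ → K, (ker (dg N d)).card ≤ (2 * Fintype.card K) ^ Fintype.card τ := by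
  have h1 : ∑ d : τ → K, (ker (dg N d)).card =
      ∑ v : τ → K, (univ.filter fun d : τ → K => ∀ k, ∑ l, N k l * v l + d k * v k = 0).card := by
    have := Finset.sum_card_bipartiteAbove_eq_sum_card_bipartiteBelow
      (s := (univ : Finset (τ → K))) (t := (univ : Finset (τ → K)))
      (fun (d v : τ → K) => ∀ k, ∑ l, N k l * v l + d k * v k = 0)
    rw [show ∑ d : τ → K, (ker (dg N d)).card = ∑ d : τ → K, (Finset.bipartiteAbove
      (fun (d v : τ → K) => ∀ k, ∑ l, N k l * v l + d k * v k = 0) univ d).card from ?_, this]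
    · rfl
    · apply Finset.sum_congr rfl
      intro d _
      congr 1
      ext v
      rw [mem_ker_dg, Finset.mem_bipartiteAbove]
      simp
  have h2 : ∀ v : τ → K, (univ.filter fun d : τ → K =>
      ∀ k, ∑ l, N k l * v l + d k * v k = 0).card ≤
      ∏ k, (if v k = 0 then Fintype.card K else 1) := by
    intro v
    have h3 : (univ.filter fun d : τ → K => ∀ k, ∑ l, N k l * v l + d k * v k = 0) =
        Fintype.piFinset fun k => univ.filter fun x : K => ∑ l, N k l * v l + x * v k = 0 := by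
      ext d
      simp [Fintype.mem_piFinset]
    rw [h3, Fintype.card_piFinset]
    apply Finset.prod_le_prod' 
    intro k _
    split_ifs with hk
    · exact Finset.card_le_univ _
    · rw [Finset.card_le_one]
      intro x hx y hy
      simp only [Finset.mem_filter, Finset.mem_univ, true_and] at hx hy
      have h4 : (x - y) * v k = 0 := by linear_combination hx - hy
      rcases mul_eq_zero.1 h4 with h | h
      · exact sub_eq_zero.1 h
      · exact absurd h hk
  rw [h1]
  calc ∑ v : τ → K, (univ.filter fun d : τ → K => ∀ k, ∑ l, N k l * v l + d k * v k = 0).card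
      ≤ ∑ v : τ → K, ∏ k, (if v k = 0 then Fintype.card K else 1) :=
        Finset.sum_le_sum fun v _ => h2 v
    _ = ∏ _k : τ, ∑ x : K, (if x = 0 then Fintype.card K else 1) := by
        rw [Finset.prod_univ_sum, Fintype.piFinset_univ]
    _ ≤ ∏ _k : τ, (2 * Fintype.card K) := by
        apply Finset.prod_le_prod'
        intro k _
        calc ∑ x : K, (if x = 0 then Fintype.card K else 1)
            ≤ ∑ x : K, ((if x = 0 then Fintype.card K else 0) + 1) := by
              apply Finset.sum_le_sum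
              intro x _
              split_ifs <;> omega
          _ = 2 * Fintype.card K := by
              rw [Finset.sum_add_distrib, Finset.sum_ite_eq' univ 0, if_pos (mem_univ _),
                Finset.sum_const, Finset.card_univ, smul_eq_mul, mul_one, two_mul]
    _ = (2 * Fintype.card K) ^ Fintype.card τ := by
        rw [Finset.prod_const, Finset.card_univ]

end kernel

section shift

variable {n : ℕ} {K : Type} [Field K] [Fintype K] [DecidableEq K]

/-- the bilinear form -/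
def bil (E : Fin n → Fin n → Prop) [∀ i j, Decidable (E i j)] (ω : Fin n → Fin n → K)
    (i j : Fin n) : K := (if E i j then ω i j else 0) + (if E j i then ω j i else 0)

/-- the matrix given by a matching -/
def mx (E : Fin n → Fin n → Prop) [∀ i j, Decidable (E i j)] (T : Finset (Fin n × Fin n))
    (ω : Fin n → Fin n → K) : T → T → K := fun k l => bil E ω k.1.1 l.1.2

variable (E : Fin n → Fin n → Prop) [∀ i j, Decidable (E i j)] (T : Finset (Fin n × Fin n))

/-- the shift -/
def sh (d : T → K) : Fin n → Fin n → K := fun i j => if h : (i, j) ∈ T then d ⟨(i, j), h⟩ else 0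

theorem mx_sh (hE : ∀ k ∈ T, E k.1 k.2) (h1 : ∀ k ∈ T, ∀ l ∈ T, k.1 = l.1 → k = l)
    (h2 : ∀ k ∈ T, ∀ l ∈ T, k.2 = l.2 → k = l) (h3 : ∀ k ∈ T, ∀ l ∈ T, k.1 ≠ l.2)
    (ω : Fin n → Fin n → K) (d : T → K) : mx E T (ω + sh T d) = dg (mx E T ω) d := by
  ext k l
  obtain ⟨⟨i, j⟩, hk⟩ := k
  obtain ⟨⟨i', j'⟩, hl⟩ := l
  unfold mx dg bil
  simp only [Pi.add_apply]
  have e1 : (if E j' i then ω j' i + sh T d j' i else 0) = if E j' i then ω j' i else 0 := by
    have : sh T d j' i = 0 := by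
      unfold sh
      rw [dif_neg]
      intro h
      exact h3 _ h _ hl rfl
    rw [this, add_zero]
  rw [e1]
  by_cases hkl : (⟨(i, j), hk⟩ : T) = ⟨(i', j'), hl⟩
  · rw [if_pos hkl]
    rw [Subtype.mk.injEq, Prod.mk.injEq] at hkl
    obtain ⟨rfl, rfl⟩ := hkl
    rw [if_pos (hE _ hk), if_pos (hE _ hk)]
    have : sh T d i j = d ⟨(i, j), hk⟩ := by
      unfold sh
      rw [dif_pos hk]
    rw [this]
    ring
  · rw [if_neg hkl, add_zero]
    have : sh T d i j' = 0 := by
      unfold sh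
      rw [dif_neg]
      intro h
      apply hkl
      have e2 := h1 _ hk _ h rfl
      have e3 := h2 _ hl _ h rfl
      rw [Subtype.mk.injEq, e2, e3]
    rw [this, add_zero]

theorem sum_ker_mx (hE : ∀ k ∈ T, E k.1 k.2) (h1 : ∀ k ∈ T, ∀ l ∈ T, k.1 = l.1 → k = l)
    (h2 : ∀ k ∈ T, ∀ l ∈ T, k.2 = l.2 → k = l) (h3 : ∀ k ∈ T, ∀ l ∈ T, k.1 ≠ l.2) :
    ∑ ω : Fin n → Fin n → K, (ker (mx E T ω)).card ≤
      Fintype.card (Fin n → Fin n → K) * 2 ^ T.card := by
  have h4 : ∀ d : T → K, ∑ ω : Fin n → Fin n → K, (ker (mx E T ω)).card =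
      ∑ ω : Fin n → Fin n → K, (ker (dg (mx E T ω) d)).card := by
    intro d
    rw [← Equiv.sum_comp (Equiv.addRight (sh T d))]
    apply Finset.sum_congr rfl
    intro ω _
    rw [Equiv.coe_addRight, mx_sh E T hE h1 h2 h3]
  have h5 : Fintype.card (T → K) * ∑ ω : Fin n → Fin n → K, (ker (mx E T ω)).card ≤
      Fintype.card (T → K) * (Fintype.card (Fin n → Fin n → K) * 2 ^ T.card) := by
    calc Fintype.card (T → K) * ∑ ω : Fin n → Fin n → K, (ker (mx E T ω)).card
        = ∑ _d : T → K, ∑ ω : Fin n → Fin n → K, (ker (mx E T ω)).card := by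
          rw [Finset.sum_const, Finset.card_univ, smul_eq_mul]
      _ = ∑ d : T → K, ∑ ω : Fin n → Fin n → K, (ker (dg (mx E T ω) d)).card :=
          Finset.sum_congr rfl fun d _ => h4 d
      _ = ∑ ω : Fin n → Fin n → K, ∑ d : T → K, (ker (dg (mx E T ω) d)).card :=
          Finset.sum_comm
      _ ≤ ∑ _ω : Fin n → Fin n → K, (2 * Fintype.card K) ^ Fintype.card T :=
          Finset.sum_le_sum fun ω _ => sum_ker _
      _ = Fintype.card (T → K) * (Fintype.card (Fin n → Fin n → K) * 2 ^ T.card) := by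
          rw [Finset.sum_const, Finset.card_univ, smul_eq_mul, Fintype.card_coe, mul_pow,
            Fintype.card_fun (α := T), Fintype.card_coe]
          ring
  exact Nat.le_of_mul_le_mul_left h5 Fintype.card_pos

end shift

/-- a large matching -/
theorem matching {n : ℕ} (E : Fin n → Fin n → Prop) (Q : ℕ)
    (hE : ∀ A A' : Finset (Fin n), n ≤ 2 * Q * A.card → n ≤ 2 * Q * A'.card →
      ∃ i ∈ A, ∃ j ∈ A', E i j)
    (A B : Finset (Fin n)) (hA : n ≤ Q * A.card) (hB : n ≤ Q * B.card) :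
    ∃ T : Finset (Fin n × Fin n), (∀ k ∈ T, k.1 ∈ A ∧ k.2 ∈ B ∧ E k.1 k.2) ∧
      (∀ k ∈ T, ∀ l ∈ T, k.1 = l.1 → k = l) ∧ (∀ k ∈ T, ∀ l ∈ T, k.2 = l.2 → k = l) ∧
      (A.card ≤ 2 * T.card ∨ B.card ≤ 2 * T.card) := by
  classical
  obtain ⟨T, hT, hmax⟩ := Finset.exists_max_image
    ((univ : Finset (Finset (Fin n × Fin n))).filter fun T =>
      (∀ k ∈ T, k.1 ∈ A ∧ k.2 ∈ B ∧ E k.1 k.2) ∧
      (∀ k ∈ T, ∀ l ∈ T, k.1 = l.1 → k = l) ∧ (∀ k ∈ T, ∀ l ∈ T, k.2 = l.2 → k = l))
    Finset.card ⟨∅, by simp⟩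
  simp only [Finset.mem_filter, Finset.mem_univ, true_and] at hT hmax
  refine ⟨T, hT.1, hT.2.1, hT.2.2, ?_⟩
  by_contra hcon
  push Not at hcon
  obtain ⟨hcA, hcB⟩ := hcon
  have c1 : (A \ T.image Prod.fst).card + T.card ≥ A.card := by
    have := Finset.le_card_sdiff (T.image Prod.fst) A
    have h2 : (T.image Prod.fst).card ≤ T.card := Finset.card_image_le
    omega
  have c2 : (B \ T.image Prod.snd).card + T.card ≥ B.card := by
    have := Finset.le_card_sdiff (T.image Prod.snd) B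
    have h2 : (T.image Prod.snd).card ≤ T.card := Finset.card_image_le
    omega
  obtain ⟨i, hi, j, hj, hij⟩ := hE (A \ T.image Prod.fst) (B \ T.image Prod.snd)
    (by nlinarith) (by nlinarith)
  rw [Finset.mem_sdiff, Finset.mem_image] at hi hj
  have hnew : (i, j) ∉ T := fun h => hi.2 ⟨_, h, rfl⟩
  have := hmax (insert (i, j) T) ⟨?_, ?_, ?_⟩
  · rw [Finset.card_insert_of_notMem hnew] at this
    omega
  · intro k hk
    rcases Finset.mem_insert.1 hk with rfl | hk
    · exact ⟨hi.1, hj.1, hij⟩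
    · exact hT.1 k hk
  · intro k hk l hl hkl
    rcases Finset.mem_insert.1 hk with rfl | hk <;> rcases Finset.mem_insert.1 hl with rfl | hl
    · rfl
    · exact absurd ⟨l, hl, hkl.symm⟩ hi.2
    · exact absurd ⟨k, hk, hkl⟩ hi.2
    · exact hT.2.1 k hk l hl hkl
  · intro k hk l hl hkl
    rcases Finset.mem_insert.1 hk with rfl | hk <;> rcases Finset.mem_insert.1 hl with rfl | hl
    · rfl
    · exact absurd ⟨l, hl, hkl.symm⟩ hj.2
    · exact absurd ⟨k, hk, hkl⟩ hj.2
    · exact hT.2.2 k hk l hl hkl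

/-- the coefficients -/
theorem coefs (Q : ℕ) (K : Type) [Field K] [Fintype K] [DecidableEq K]
    (hK : 2 ^ (10 * Q) ≤ Fintype.card K) (n : ℕ) (hn : 1 ≤ n) (E : Fin n → Fin n → Prop)
    [∀ i j, Decidable (E i j)]
    (hE : ∀ A A' : Finset (Fin n), n ≤ 2 * Q * A.card → n ≤ 2 * Q * A'.card →
      ∃ i ∈ A, ∃ j ∈ A', E i j) :
    ∃ ω : Fin n → Fin n → K, ∀ A B : Finset (Fin n), Disjoint A B → n ≤ Q * A.card →
      n ≤ Q * B.card → ∃ T : Finset (Fin n × Fin n), (∀ k ∈ T, k.1 ∈ A ∧ k.2 ∈ B) ∧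
        (∀ k ∈ T, ∀ l ∈ T, k.1 = l.1 → k = l) ∧ (∀ k ∈ T, ∀ l ∈ T, k.2 = l.2 → k = l) ∧
        ∀ g, 100 * g ≤ A.card → 100 * g ≤ B.card →
          (ker (mx E T ω)).card * Fintype.card K ^ (2 * g) < Fintype.card K ^ T.card := by
  classical
  have hm : ∀ x : Finset (Fin n) × Finset (Fin n), ∃ T : Finset (Fin n × Fin n),
      (Disjoint x.1 x.2 ∧ n ≤ Q * x.1.card ∧ n ≤ Q * x.2.card) →
      (∀ k ∈ T, k.1 ∈ x.1 ∧ k.2 ∈ x.2 ∧ E k.1 k.2) ∧
      (∀ k ∈ T, ∀ l ∈ T, k.1 = l.1 → k = l) ∧ (∀ k ∈ T, ∀ l ∈ T, k.2 = l.2 → k = l) ∧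
      (x.1.card ≤ 2 * T.card ∨ x.2.card ≤ 2 * T.card) := by
    intro x
    by_cases h : Disjoint x.1 x.2 ∧ n ≤ Q * x.1.card ∧ n ≤ Q * x.2.card
    · obtain ⟨T, hT⟩ := matching E Q hE x.1 x.2 h.2.1 h.2.2
      exact ⟨T, fun _ => hT⟩
    · exact ⟨∅, fun h' => absurd h' h⟩
  choose T hT using hm
  set q := Fintype.card K with hq
  have hq0 : 0 < q := Fintype.card_pos
  set N := Fintype.card (Fin n → Fin n → K) with hN
  have hN0 : 0 < N := Fintype.card_pos
  let g0 : Finset (Fin n) × Finset (Fin n) → ℕ := fun x => min x.1.card x.2.card / 100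
  let good : Finset (Fin n) × Finset (Fin n) → Prop := fun x =>
    Disjoint x.1 x.2 ∧ n ≤ Q * x.1.card ∧ n ≤ Q * x.2.card
  let bad : Finset (Fin n) × Finset (Fin n) → Finset (Fin n → Fin n → K) := fun x =>
    univ.filter fun ω => good x ∧ q ^ (T x).card ≤ (ker (mx E (T x) ω)).card * q ^ (2 * g0 x)
  have hbad : ∀ x, (bad x).card * 2 ^ (2 * n + 1) ≤ N := by
    intro x
    by_cases hx : good x
    · obtain ⟨t1, t2, t3, t4⟩ := hT x hx
      have h3 : ∀ k ∈ T x, ∀ l ∈ T x, k.1 ≠ l.2 := by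
        intro k hk l hl h
        exact Finset.disjoint_left.1 hx.1 (t1 k hk).1 (h ▸ (t1 l hl).2.1)
      have h4 := sum_ker_mx (K := K) E (T x) (fun k hk => (t1 k hk).2.2) t2 t3 h3
      have h5 : (bad x).card * q ^ (T x).card ≤ N * 2 ^ (T x).card * q ^ (2 * g0 x) := by
        calc (bad x).card * q ^ (T x).card = ∑ _ω ∈ bad x, q ^ (T x).card := by
              rw [Finset.sum_const, smul_eq_mul]
          _ ≤ ∑ ω ∈ bad x, (ker (mx E (T x) ω)).card * q ^ (2 * g0 x) :=
              Finset.sum_le_sum fun ω hω => (Finset.mem_filter.1 hω).2.2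
          _ ≤ ∑ ω, (ker (mx E (T x) ω)).card * q ^ (2 * g0 x) :=
              Finset.sum_le_sum_of_subset (Finset.subset_univ _)
          _ ≤ N * 2 ^ (T x).card * q ^ (2 * g0 x) := by
              rw [← Finset.sum_mul]
              exact Nat.mul_le_mul_right _ h4
      -- sizes
      set m := (T x).card with hmdef
      set μ := min x.1.card x.2.card with hμ
      have hμ1 : n ≤ Q * μ := by
        rcases le_total x.1.card x.2.card with h | h
        · rw [hμ, min_eq_left h]; exact hx.2.1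
        · rw [hμ, min_eq_right h]; exact hx.2.2
      have hμ2 : μ ≤ 2 * m := by
        rcases t4 with h | h
        · exact (min_le_left _ _).trans h
        · exact (min_le_right _ _).trans h
      have hg : 100 * g0 x ≤ μ := Nat.mul_div_le _ _
      have hmn : m ≤ n := by
        have h6 : ((T x).image Prod.fst).card = (T x).card :=
          Finset.card_image_of_injOn fun k hk l hl h => t2 k hk l hl h
        rw [hmdef, ← h6]
        exact (Finset.card_le_univ _).trans (by simp)
      obtain ⟨t, ht⟩ : ∃ t, m = 2 * g0 x + t := Nat.exists_eq_add_of_le (by omega)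
      have ht2 : 3 * n + 1 ≤ 10 * Q * t := by nlinarith
      have h6 : 2 ^ (3 * n + 1) ≤ q ^ t := by
        calc 2 ^ (3 * n + 1) ≤ 2 ^ (10 * Q * t) := Nat.pow_le_pow_right (by norm_num) ht2
          _ = (2 ^ (10 * Q)) ^ t := by rw [pow_mul]
          _ ≤ q ^ t := Nat.pow_le_pow_left hK t
      have h7 : (bad x).card * q ^ t ≤ N * 2 ^ m := by
        refine le_of_mul_le_mul_right (a := q ^ (2 * g0 x)) ?_ (Nat.pow_pos hq0)
        calc (bad x).card * q ^ t * q ^ (2 * g0 x) = (bad x).card * q ^ m := by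
              rw [ht, pow_add]; ring
          _ ≤ N * 2 ^ m * q ^ (2 * g0 x) := h5
      refine le_of_mul_le_mul_right (a := 2 ^ n) ?_ (Nat.pow_pos (by norm_num))
      calc (bad x).card * 2 ^ (2 * n + 1) * 2 ^ n = (bad x).card * 2 ^ (3 * n + 1) := by
            rw [mul_assoc, ← pow_add]; congr 2; ring
        _ ≤ (bad x).card * q ^ t := Nat.mul_le_mul_left _ h6
        _ ≤ N * 2 ^ m := h7
        _ ≤ N * 2 ^ n := Nat.mul_le_mul_left _ (Nat.pow_le_pow_right (by norm_num) hmn)
    · have : bad x = ∅ := by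
        apply Finset.filter_eq_empty_iff.2
        intro ω _ h
        exact hx h.1
      rw [this]
      simp
  have hall : (univ.biUnion bad).card < N := by
    have h1 : (univ.biUnion bad).card * 2 ^ (2 * n + 1) ≤ 2 ^ (2 * n) * N := by
      calc (univ.biUnion bad).card * 2 ^ (2 * n + 1)
          ≤ (∑ x, (bad x).card) * 2 ^ (2 * n + 1) :=
            Nat.mul_le_mul_right _ Finset.card_biUnion_le
        _ = ∑ x, (bad x).card * 2 ^ (2 * n + 1) := Finset.sum_mul _ _ _
        _ ≤ ∑ _x : Finset (Fin n) × Finset (Fin n), N := Finset.sum_le_sum fun x _ => hbad x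
        _ = 2 ^ (2 * n) * N := by
            rw [Finset.sum_const, Finset.card_univ, smul_eq_mul, Fintype.card_prod,
              Fintype.card_finset, Fintype.card_fin, ← pow_add, two_mul]
    have h2 : (univ.biUnion bad).card * 2 ≤ N := by
      refine le_of_mul_le_mul_right (a := 2 ^ (2 * n)) ?_ (Nat.pow_pos (by norm_num))
      calc (univ.biUnion bad).card * 2 * 2 ^ (2 * n) = (univ.biUnion bad).card * 2 ^ (2 * n + 1) := by
            rw [pow_succ]; ring
        _ ≤ 2 ^ (2 * n) * N := h1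
        _ = N * 2 ^ (2 * n) := mul_comm _ _
    omega
  obtain ⟨ω, hω⟩ : ∃ ω : Fin n → Fin n → K, ω ∉ univ.biUnion bad := by
    by_contra hcon
    push Not at hcon
    have : univ.biUnion bad = univ := Finset.eq_univ_iff_forall.2 hcon
    rw [this, Finset.card_univ] at hall
    exact lt_irrefl _ hall
  refine ⟨ω, fun A B hd hA hB => ?_⟩
  have hx : good (A, B) := ⟨hd, hA, hB⟩
  obtain ⟨t1, t2, t3, -⟩ := hT (A, B) hx
  refine ⟨T (A, B), fun k hk => ⟨(t1 k hk).1, (t1 k hk).2.1⟩, t2, t3, ?_⟩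
  intro g hgA hgB
  have h1 : ¬ q ^ (T (A, B)).card ≤ (ker (mx E (T (A, B)) ω)).card * q ^ (2 * g0 (A, B)) := by
    intro h
    apply hω
    rw [Finset.mem_biUnion]
    exact ⟨(A, B), mem_univ _, Finset.mem_filter.2 ⟨mem_univ _, hx, h⟩⟩
  refine lt_of_le_of_lt (Nat.mul_le_mul_left _ (Nat.pow_le_pow_right hq0 ?_)) (not_le.1 h1)
  have : g ≤ g0 (A, B) := by
    show g ≤ min A.card B.card / 100
    rw [Nat.le_div_iff_mul_le (by norm_num)]
    have := le_min hgA hgB
    omega
  omega

end Pool.Agent.W902.Coef
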