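import Pool.Agent.W902.Heis

/-!
# Two large sets are joined by a product over few of the subgroups
-/

set_option autoImplicit false
set_option linter.unusedSectionVars false

open Finset
open scoped InnerProductSpace

namespace Pool.Agent.W902.Cross

open Pool.Agent.W902.Spec Pool.Agent.W902.Heis

section rep

variable (G V : Type) [Group G] [Fintype V] [MulAction G V]

/-- the permutation representation -/
noncomputable def rep : G →* (EuclideanSpace ℝ V →ₗ[ℝ] EuclideanSpace ℝ V) where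
  toFun g := ((LinearIsometryEquiv.piLpCongrLeft 2 ℝ ℝ (MulAction.toPerm g : Equiv.Perm V)).toLinearEquiv :
    EuclideanSpace ℝ V →ₗ[ℝ] EuclideanSpace ℝ V)
  map_one' := by
    ext x v
    simp [LinearIsometryEquiv.piLpCongrLeft_apply]
  map_mul' g h := by
    ext x v
    simp [LinearIsometryEquiv.piLpCongrLeft_apply, mul_smul]

variable {G V}

theorem rep_apply (g : G) (x : EuclideanSpace ℝ V) (v : V) : rep G V g x v = x (g⁻¹ • v) := by
  simp [rep, LinearIsometryEquiv.piLpCongrLeft_apply]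

theorem rep_inner (g : G) (x y : EuclideanSpace ℝ V) :
    ⟪rep G V g x, rep G V g y⟫_ℝ = ⟪x, y⟫_ℝ := by
  show ⟪(LinearIsometryEquiv.piLpCongrLeft 2 ℝ ℝ (MulAction.toPerm g : Equiv.Perm V)) x,
    (LinearIsometryEquiv.piLpCongrLeft 2 ℝ ℝ (MulAction.toPerm g : Equiv.Perm V)) y⟫_ℝ = _
  exact LinearIsometryEquiv.inner_map_map _ x y

end rep

variable {G V : Type} [Group G] [Fintype V] [MulAction G V] {p : ℕ} [Fact p.Prime]
variable {ι : Type} [Fintype ι] [DecidableEq ι]

/-- the group generated by the elements `κ i a`, `i ∈ W` -/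
def H (κ : ι → ZMod p → G) (W : Finset ι) : Subgroup G :=
  Subgroup.closure {g | ∃ i ∈ W, ∃ a, κ i a = g}

theorem H_mono (κ : ι → ZMod p → G) {W W' : Finset ι} (h : W ⊆ W') : H κ W ≤ H κ W' :=
  Subgroup.closure_mono fun _ ⟨i, hi, a, e⟩ => ⟨i, h hi, a, e⟩

theorem mem_H (κ : ι → ZMod p → G) {W : Finset ι} {i : ι} (hi : i ∈ W) (a : ZMod p) :
    κ i a ∈ H κ W := Subgroup.subset_closure ⟨i, hi, a, rfl⟩

/-- `L` can be reached from `v` with `n` of the subgroups -/
def Reach (κ : ι → ZMod p → G) (L : Finset V) (v : V) (n : ℕ) : Prop :=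
  ∃ W : Finset ι, W.card ≤ n ∧ ∃ g ∈ H κ W, g • v ∈ L

open Classical in
/-- the smallest such number -/
noncomputable def dist (κ : ι → ZMod p → G) (L : Finset V) (v : V) : ℕ := sInf {n | Reach κ L v n}

theorem dist_spec (κ : ι → ZMod p → G) (L : Finset V) (v : V) (h : ∃ n, Reach κ L v n) :
    Reach κ L v (dist κ L v) := Nat.sInf_mem (s := {n | Reach κ L v n}) h

theorem dist_le (κ : ι → ZMod p → G) (L : Finset V) (v : V) {n : ℕ} (h : Reach κ L v n) :
    dist κ L v ≤ n := Nat.sInf_le h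

theorem dist_step (κ : ι → ZMod p → G) (L : Finset V) (v : V) (h : ∃ n, Reach κ L v n) (i : ι)
    (a : ZMod p) : dist κ L ((κ i a)⁻¹ • v) ≤ dist κ L v + 1 := by
  obtain ⟨W, hW, g, hg, hgL⟩ := dist_spec κ L v h
  apply dist_le
  refine ⟨insert i W, (Finset.card_insert_le _ _).trans (by omega), g * κ i a, ?_, ?_⟩
  · exact mul_mem (H_mono κ (Finset.subset_insert _ _) hg) (mem_H κ (Finset.mem_insert_self _ _) a)
  · rw [mul_smul, smul_inv_smul]
    exact hgL

theorem cross (hp : 16 ≤ p) (σ : Equiv.Perm ι) (κ ζ : ι → ZMod p → G)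
    (hκ : ∀ i a b, κ i (a + b) = κ i a * κ i b) (hζ : ∀ i a b, ζ i (a + b) = ζ i a * ζ i b)
    (hζa : ∀ i a c, ζ i c * κ i a = κ i a * ζ i c)
    (hζb : ∀ i b c, ζ i c * κ (σ i) b = κ (σ i) b * ζ i c)
    (hab : ∀ i a b, κ (σ i) b * κ i a = κ i a * κ (σ i) b * ζ i (a * b))
    (hcomm : ∀ i j, i ≠ j → j ≠ σ i → i ≠ σ j → ∀ a b, κ i a * κ j b = κ j b * κ i a)
    (hσ : ∀ i, σ i ≠ i) (hgen : ∀ v w : V, ∃ g ∈ H κ univ, g • v = w)
    (L1 L2 : Finset V) (e : ℕ) (he : 1 ≤ e)
    (h1 : 8 * e ^ 2 * Fintype.card V < Fintype.card ι * L1.card)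
    (h2 : 8 * e ^ 2 * Fintype.card V < Fintype.card ι * L2.card) :
    ∃ v ∈ L1, ∃ w ∈ L2, ∃ W : Finset ι, e * W.card ≤ Fintype.card ι ∧ ∃ g ∈ H κ W, g • v = w := by
  classical
  by_contra hcon
  push Not at hcon
  have hL2 : L2.Nonempty := by
    rw [← Finset.card_pos]
    by_contra h
    have : L2.card = 0 := by omega
    rw [this] at h2
    omega
  obtain ⟨w0, hw0⟩ := hL2
  have hV : 0 < Fintype.card V := Fintype.card_pos_iff.2 ⟨w0⟩
  have hι : 0 < Fintype.card ι := by
    by_contra h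
    have : Fintype.card ι = 0 := by omega
    rw [this] at h2
    omega
  have hreach : ∀ v, ∃ n, Reach κ L2 v n := by
    intro v
    obtain ⟨g, hg, e1⟩ := hgen v w0
    exact ⟨_, univ, le_refl _, g, hg, by rw [e1]; exact hw0⟩
  have hdist2 : ∀ v ∈ L2, dist κ L2 v = 0 := by
    intro v hv
    have := dist_le κ L2 v (n := 0) ⟨∅, by simp, 1, one_mem _, by rw [one_smul]; exact hv⟩
    omega
  have hdist1 : ∀ v ∈ L1, Fintype.card ι < e * dist κ L2 v := by
    intro v hv
    obtain ⟨W, hW, g, hg, hgL⟩ := dist_spec κ L2 v (hreach v)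
    by_contra h
    push Not at h
    exact hcon v hv _ hgL W ((Nat.mul_le_mul_left e hW).trans h) g hg rfl
  -- the function
  set N : ℝ := (Fintype.card V : ℝ) with hN
  have hN0 : 0 < N := by rw [hN]; exact_mod_cast hV
  set D : EuclideanSpace ℝ V := WithLp.toLp 2 (fun v => (dist κ L2 v : ℝ)) with hD
  set one : EuclideanSpace ℝ V := WithLp.toLp 2 (fun _ => (1 : ℝ)) with hone
  set μ : ℝ := (∑ v, (dist κ L2 v : ℝ)) / N with hμ
  set x := D - μ • one with hx
  have hDv : ∀ v, D v = dist κ L2 v := fun v => rfl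
  have honev : ∀ v, one v = 1 := fun v => rfl
  have hxv : ∀ v, x v = dist κ L2 v - μ := by
    intro v
    rw [hx]
    simp [hDv, honev]
  have hsumx : ∑ v, x v = 0 := by
    rw [Finset.sum_congr rfl fun v _ => hxv v, Finset.sum_sub_distrib, Finset.sum_const,
      Finset.card_univ, nsmul_eq_mul, hμ]
    rw [← hN]
    field_simp
    ring
  set P : ι → EuclideanSpace ℝ V →ₗ[ℝ] EuclideanSpace ℝ V := fun i => avg (rep G V) (κ i) with hP
  have hproj : ∀ i, Proj (P i) := fun i => avg_proj rep_inner (hκ i)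
  have hPone : ∀ i, P i one = one := by
    intro i
    apply avg_of_fix
    intro a
    ext v
    rw [rep_apply]
  have hxP : ∀ i, x - P i x = D - P i D := by
    intro i
    rw [hx, map_sub, map_smul, hPone]
    abel
  have hbd : ∀ i v, |(D - P i D) v| ≤ 1 := by
    intro i v
    have e1 : (D - P i D) v = (p : ℝ)⁻¹ * ∑ a : ZMod p, ((dist κ L2 v : ℝ) -
        dist κ L2 ((κ i a)⁻¹ • v)) := by
      rw [PiLp.sub_apply, hP]
      simp only
      rw [avg_apply, PiLp.smul_apply, hDv]
      have e2 : (∑ a : ZMod p, rep G V (κ i a) D) v = ∑ a : ZMod p,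
          (dist κ L2 ((κ i a)⁻¹ • v) : ℝ) := by
        have : (∑ a : ZMod p, rep G V (κ i a) D) v = ∑ a : ZMod p, (rep G V (κ i a) D) v := by
          simp
        rw [this]
        exact Finset.sum_congr rfl fun a _ => by rw [rep_apply]
      rw [e2, Finset.sum_sub_distrib, Finset.sum_const, Finset.card_univ, ZMod.card, nsmul_eq_mul,
        mul_sub, ← mul_assoc, inv_mul_cancel₀ p_pos.ne', one_mul, smul_eq_mul]
    have e3 : ∀ a : ZMod p, |(dist κ L2 v : ℝ) - dist κ L2 ((κ i a)⁻¹ • v)| ≤ 1 := by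
      intro a
      have h3 := dist_step κ L2 v (hreach v) i a
      have h4 := dist_step κ L2 ((κ i a)⁻¹ • v) (hreach _) i (-a)
      rw [map_neg_of_add (hκ i), inv_inv, smul_inv_smul] at h4
      have h3' : (dist κ L2 ((κ i a)⁻¹ • v) : ℝ) ≤ dist κ L2 v + 1 := by exact_mod_cast h3
      have h4' : (dist κ L2 v : ℝ) ≤ dist κ L2 ((κ i a)⁻¹ • v) + 1 := by exact_mod_cast h4
      rw [abs_le]
      constructor <;> linarith
    rw [e1, abs_mul, abs_of_pos (inv_pos.2 p_pos)]
    calc (p : ℝ)⁻¹ * |∑ a : ZMod p, ((dist κ L2 v : ℝ) - dist κ L2 ((κ i a)⁻¹ • v))|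
        ≤ (p : ℝ)⁻¹ * ∑ _a : ZMod p, (1 : ℝ) := by
          apply mul_le_mul_of_nonneg_left _ (inv_pos.2 p_pos).le
          exact (Finset.abs_sum_le_sum_abs _ _).trans (Finset.sum_le_sum fun a _ => e3 a)
      _ = 1 := by
          rw [Finset.sum_const, Finset.card_univ, ZMod.card, nsmul_eq_mul, mul_one,
            inv_mul_cancel₀ p_pos.ne']
  have hnorm : ∀ y : EuclideanSpace ℝ V, ‖y‖ ^ 2 = ∑ v, y v ^ 2 := by
    intro y
    rw [EuclideanSpace.norm_sq_eq]
    exact Finset.sum_congr rfl fun v _ => by rw [Real.norm_eq_abs, sq_abs]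
  have hbd2 : ∀ i, ‖x - P i x‖ ^ 2 ≤ N := by
    intro i
    rw [hxP, hnorm]
    calc ∑ v, ((D - P i D) v) ^ 2 ≤ ∑ _v : V, (1 : ℝ) := by
          apply Finset.sum_le_sum
          intro v _
          have := hbd i v
          rw [← sq_abs]
          have h0 := abs_nonneg ((D - P i D) v)
          nlinarith
      _ = N := by rw [Finset.sum_const, Finset.card_univ, nsmul_eq_mul, mul_one]
  have hpo : ‖x‖ ^ 2 ≤ 2 * ∑ i, ‖x - P i x‖ ^ 2 := by
    apply poincare P σ hproj hσ
    · intro i y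
      exact heis_pair hp rep_inner (hκ i) (hκ (σ i)) (hζ i) (hζa i) (hζb i) (hab i) y
    · intro i j hij hj hi y
      exact avg_comm _ (hcomm i j hij hj hi) y
    · intro u hu
      have hfix : ∀ g ∈ H κ univ, rep G V g u = u := by
        intro g hg
        induction hg using Subgroup.closure_induction with
        | mem g hg =>
          obtain ⟨i, -, a, rfl⟩ := hg
          rw [← hu i]
          exact ρ_fix _ (hκ i) a u
        | one => rw [map_one]; rfl
        | mul g h _ _ hg hh =>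
          rw [map_mul]
          show rep G V g (rep G V h u) = u
          rw [hh, hg]
        | inv g _ hg =>
          have : rep G V g⁻¹ (rep G V g u) = u := by
            have h1 : rep G V g⁻¹ (rep G V g u) = rep G V (g⁻¹ * g) u := by rw [map_mul]; rfl
            rw [h1, inv_mul_cancel, map_one]; rfl
          rw [hg] at this
          exact this
      have hconst : ∀ v, u v = u w0 := by
        intro v
        obtain ⟨g, hg, e1⟩ := hgen v w0
        have h3 := hfix g hg
        have h4 : rep G V g u w0 = u w0 := by rw [h3]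
        rw [rep_apply, ← e1, inv_smul_smul] at h4
        rw [h4, e1]
      rw [PiLp.inner_apply]
      have : ∀ v, ⟪u v, x v⟫_ℝ = u w0 * x v := by
        intro v
        rw [← hconst v]
        simp [mul_comm]
      rw [Finset.sum_congr rfl fun v _ => this v, ← Finset.mul_sum, hsumx, mul_zero]
  have hM : ∑ i, ‖x - P i x‖ ^ 2 ≤ Fintype.card ι * N := by
    calc ∑ i, ‖x - P i x‖ ^ 2 ≤ ∑ _i : ι, N := Finset.sum_le_sum fun i _ => hbd2 i
      _ = Fintype.card ι * N := by rw [Finset.sum_const, Finset.card_univ, nsmul_eq_mul]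
  set M : ℝ := (Fintype.card ι : ℝ) with hMdef
  have hM0 : 0 < M := by rw [hMdef]; exact_mod_cast hι
  have heR : (1 : ℝ) ≤ e := by exact_mod_cast he
  have key : ∀ L : Finset V, (∀ v ∈ L, (M / (2 * e)) ^ 2 ≤ x v ^ 2) →
      8 * e ^ 2 * Fintype.card V < Fintype.card ι * L.card → False := by
    intro L hL hc
    have h3 : (L.card : ℝ) * (M / (2 * e)) ^ 2 ≤ ‖x‖ ^ 2 := by
      rw [hnorm, ← nsmul_eq_mul]
      calc L.card • (M / (2 * e)) ^ 2 ≤ ∑ v ∈ L, x v ^ 2 := Finset.card_nsmul_le_sum _ _ _ hL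
        _ ≤ ∑ v, x v ^ 2 := Finset.sum_le_sum_of_subset_of_nonneg (Finset.subset_univ _)
            fun v _ _ => sq_nonneg _
    have h4 : (L.card : ℝ) * (M / (2 * e)) ^ 2 ≤ 2 * (M * N) := by linarith
    have hc' : 8 * (e : ℝ) ^ 2 * N < M * L.card := by
      rw [hN, hMdef]
      exact_mod_cast hc
    have h5 : (L.card : ℝ) * (M / (2 * e)) ^ 2 = M * (M * L.card) / (4 * e ^ 2) := by
      field_simp
      ring
    rw [h5, div_le_iff₀ (by positivity)] at h4
    nlinarith [mul_lt_mul_of_pos_left hc' hM0]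
  rcases le_or_gt (M / (2 * e)) μ with hc | hc
  · refine key L2 ?_ h2
    intro v hv
    rw [hxv, hdist2 v hv, Nat.cast_zero, zero_sub, neg_sq]
    exact pow_le_pow_left₀ (by positivity) hc 2
  · refine key L1 ?_ h1
    intro v hv
    rw [hxv]
    have h3 : M < e * dist κ L2 v := by
      rw [hMdef]
      exact_mod_cast hdist1 v hv
    have h4 : M / e < dist κ L2 v := by
      rw [div_lt_iff₀ (by linarith)]
      linarith
    have h5 : M / e = M / (2 * e) + M / (2 * e) := by
      field_simp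
      norm_num
    exact pow_le_pow_left₀ (by positivity) (by linarith) 2

end Pool.Agent.W902.Cross
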