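import Pool.Agent.W902.Spec

/-!
# Averages over subgroups, Heisenberg relations
-/

set_option autoImplicit false

open Finset
open scoped InnerProductSpace

namespace Pool.Agent.W902.Heis

open Pool.Agent.W902.Spec

variable {E : Type*} [NormedAddCommGroup E] [InnerProductSpace ℝ E]
variable {G : Type*} [Group G] {p : ℕ} [Fact p.Prime]

/-- the average over the elements `κ a` -/
noncomputable def avg (ρ : G →* (E →ₗ[ℝ] E)) (κ : ZMod p → G) : E →ₗ[ℝ] E :=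
  (p : ℝ)⁻¹ • ∑ a, ρ (κ a)

theorem avg_apply (ρ : G →* (E →ₗ[ℝ] E)) (κ : ZMod p → G) (x : E) :
    avg ρ κ x = (p : ℝ)⁻¹ • ∑ a, ρ (κ a) x := by
  simp [avg]

theorem p_pos : (0 : ℝ) < p := by
  exact_mod_cast (Fact.out : p.Prime).pos

theorem map_neg_of_add {κ : ZMod p → G} (hκ : ∀ a b, κ (a + b) = κ a * κ b) (a : ZMod p) :
    κ (-a) = (κ a)⁻¹ := by
  have h0 : κ 0 = 1 := by
    have := hκ 0 0
    rw [add_zero] at this
    exact (mul_eq_left.1 this.symm)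
  have := hκ (-a) a
  rw [neg_add_cancel, h0] at this
  exact eq_inv_of_mul_eq_one_left this.symm

theorem ρ_fix (ρ : G →* (E →ₗ[ℝ] E)) {κ : ZMod p → G} (hκ : ∀ a b, κ (a + b) = κ a * κ b)
    (a : ZMod p) (x : E) : ρ (κ a) (avg ρ κ x) = avg ρ κ x := by
  rw [avg_apply, map_smul, map_sum]
  congr 1
  have : ∀ b, ρ (κ a) (ρ (κ b) x) = ρ (κ (a + b)) x := by
    intro b
    rw [hκ, map_mul]; rfl
  rw [Finset.sum_congr rfl fun b _ => this b]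
  exact Equiv.sum_comp (Equiv.addLeft a) (fun b => ρ (κ b) x)

theorem avg_of_fix (ρ : G →* (E →ₗ[ℝ] E)) {κ : ZMod p → G} {x : E}
    (h : ∀ a, ρ (κ a) x = x) : avg ρ κ x = x := by
  rw [avg_apply, Finset.sum_congr rfl fun a _ => h a, Finset.sum_const, Finset.card_univ,
    ZMod.card, ← Nat.cast_smul_eq_nsmul ℝ, smul_smul, inv_mul_cancel₀ p_pos.ne', one_smul]

theorem ρ_inv {ρ : G →* (E →ₗ[ℝ] E)} (hρ : ∀ g x y, ⟪ρ g x, ρ g y⟫_ℝ = ⟪x, y⟫_ℝ) (g : G)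
    (x y : E) : ⟪ρ g x, y⟫_ℝ = ⟪x, ρ g⁻¹ y⟫_ℝ := by
  have : ρ g (ρ g⁻¹ y) = y := by
    have h1 : ρ g (ρ g⁻¹ y) = ρ (g * g⁻¹) y := by rw [map_mul]; rfl
    rw [h1, mul_inv_cancel, map_one]; rfl
  rw [← hρ g x (ρ g⁻¹ y), this]

theorem avg_proj {ρ : G →* (E →ₗ[ℝ] E)} (hρ : ∀ g x y, ⟪ρ g x, ρ g y⟫_ℝ = ⟪x, y⟫_ℝ)
    {κ : ZMod p → G} (hκ : ∀ a b, κ (a + b) = κ a * κ b) : Proj (avg ρ κ) := by
  constructor
  · intro x y
    rw [avg_apply, avg_apply, real_inner_smul_left, real_inner_smul_right, sum_inner, inner_sum]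
    congr 1
    have : ∀ a, ⟪ρ (κ a) x, y⟫_ℝ = ⟪x, ρ (κ (-a)) y⟫_ℝ := by
      intro a
      rw [ρ_inv hρ, map_neg_of_add hκ]
    rw [Finset.sum_congr rfl fun a _ => this a]
    exact Equiv.sum_comp (Equiv.neg (ZMod p)) (fun a => ⟪x, ρ (κ a) y⟫_ℝ)
  · intro x
    exact avg_of_fix ρ fun a => ρ_fix ρ hκ a x

/-- elementwise commuting families have commuting averages -/
theorem avg_comm (ρ : G →* (E →ₗ[ℝ] E)) {κ κ' : ZMod p → G}
    (h : ∀ a b, κ a * κ' b = κ' b * κ a) (x : E) :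
    avg ρ κ (avg ρ κ' x) = avg ρ κ' (avg ρ κ x) := by
  simp only [avg_apply, map_smul, map_sum]
  rw [Finset.smul_sum, Finset.smul_sum]
  simp only [Finset.smul_sum]
  rw [Finset.sum_comm]
  refine Finset.sum_congr rfl fun a _ => Finset.sum_congr rfl fun b _ => ?_
  have h1 : ρ (κ a) (ρ (κ' b) x) = ρ (κ' b) (ρ (κ a) x) := by
    have e1 : ρ (κ a) (ρ (κ' b) x) = ρ (κ a * κ' b) x := by rw [map_mul]; rfl
    have e2 : ρ (κ' b) (ρ (κ a) x) = ρ (κ' b * κ a) x := by rw [map_mul]; rfl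
    rw [e1, e2, h]
  rw [h1]

section heis

variable {ρ : G →* (E →ₗ[ℝ] E)} {α β ζ : ZMod p → G}

theorem heis_comm (hζa : ∀ a c, ζ c * α a = α a * ζ c)
    (hab : ∀ a b, β b * α a = α a * β b * ζ (a * b)) (hζ : ∀ a b, ζ (a + b) = ζ a * ζ b)
    (x : E) (hx : avg ρ ζ x = x) :
    avg ρ α (avg ρ β x) = avg ρ β (avg ρ α x) := by
  have hfix : ∀ c, ρ (ζ c) x = x := by
    intro c
    rw [← hx]
    exact ρ_fix ρ hζ c x
  simp only [avg_apply, map_smul, map_sum]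
  rw [Finset.smul_sum, Finset.smul_sum]
  simp only [Finset.smul_sum]
  rw [Finset.sum_comm]
  refine Finset.sum_congr rfl fun a _ => Finset.sum_congr rfl fun b _ => ?_
  have h1 : ρ (α a) (ρ (β b) x) = ρ (β b) (ρ (α a) x) := by
    have e1 : ρ (α a) (ρ (β b) x) = ρ (α a * β b) x := by rw [map_mul]; rfl
    have e2 : ρ (β b) (ρ (α a) x) = ρ (β b * α a) x := by rw [map_mul]; rfl
    rw [e1, e2, hab]
    have e3 : ρ (α a * β b * ζ (a * b)) x = ρ (α a * β b) (ρ (ζ (a * b)) x) := by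
      rw [map_mul (f := ρ) (α a * β b)]; rfl
    rw [e3, hfix]
  rw [h1]

theorem heis_inner (hρ : ∀ g x y, ⟪ρ g x, ρ g y⟫_ℝ = ⟪x, y⟫_ℝ)
    (hα : ∀ a b, α (a + b) = α a * α b)
    (hab : ∀ a b, β b * α a = α a * β b * ζ (a * b))
    (u : E) (hu : avg ρ α u = u) (hz : avg ρ ζ u = 0) (b : ZMod p) (hb : b ≠ 0) :
    ⟪ρ (β b) u, u⟫_ℝ = 0 := by
  have hfix : ∀ a, ρ (α a) u = u := by
    intro a
    rw [← hu]
    exact ρ_fix ρ hα a u
  have h1 : ∀ a, ⟪ρ (β b) u, u⟫_ℝ = ⟪ρ (β b) (ρ (ζ (a * b)) u), u⟫_ℝ := by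
    intro a
    have e1 : ρ (β b) u = ρ (α a) (ρ (β b) (ρ (ζ (a * b)) u)) := by
      conv_lhs => rw [← hfix a]
      have e2 : ρ (β b) (ρ (α a) u) = ρ (β b * α a) u := by rw [map_mul]; rfl
      have e3 : ρ (α a) (ρ (β b) (ρ (ζ (a * b)) u)) = ρ (α a * β b * ζ (a * b)) u := by
        rw [map_mul (f := ρ) (α a * β b), map_mul (f := ρ) (α a)]; rfl
      rw [e2, hab, e3]
    rw [e1, ρ_inv hρ, ← map_neg_of_add hα, hfix]
  have h2 : (p : ℝ) * ⟪ρ (β b) u, u⟫_ℝ = ∑ a : ZMod p, ⟪ρ (β b) (ρ (ζ (a * b)) u), u⟫_ℝ := by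
    rw [← Finset.sum_congr rfl fun a _ => h1 a, Finset.sum_const, Finset.card_univ, ZMod.card,
      nsmul_eq_mul]
  have h3 : ∑ a : ZMod p, ⟪ρ (β b) (ρ (ζ (a * b)) u), u⟫_ℝ =
      ∑ c : ZMod p, ⟪ρ (β b) (ρ (ζ c) u), u⟫_ℝ :=
    Equiv.sum_comp (Equiv.mulRight₀ b hb) (fun c => ⟪ρ (β b) (ρ (ζ c) u), u⟫_ℝ)
  have h4 : ∑ c : ZMod p, ⟪ρ (β b) (ρ (ζ c) u), u⟫_ℝ = 0 := by
    rw [← sum_inner, ← map_sum]
    have h5 : ∑ c : ZMod p, ρ (ζ c) u = 0 := by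
      have h6 := hz
      rw [avg_apply] at h6
      rcases smul_eq_zero.1 h6 with h7 | h7
      · exact absurd h7 (inv_ne_zero p_pos.ne')
      · exact h7
    rw [h5, map_zero, inner_zero_left]
  rw [h3, h4] at h2
  rcases mul_eq_zero.1 h2 with h5 | h5
  · exact absurd h5 p_pos.ne'
  · exact h5

theorem heis_norm (hρ : ∀ g x y, ⟪ρ g x, ρ g y⟫_ℝ = ⟪x, y⟫_ℝ)
    (hα : ∀ a b, α (a + b) = α a * α b) (hβ : ∀ a b, β (a + b) = β a * β b)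
    (hab : ∀ a b, β b * α a = α a * β b * ζ (a * b))
    (u : E) (hu : avg ρ α u = u) (hz : avg ρ ζ u = 0) :
    ‖avg ρ β u‖ ^ 2 = (p : ℝ)⁻¹ * ‖u‖ ^ 2 := by
  rw [← (avg_proj hρ hβ).inner_self, ← real_inner_comm, avg_apply, real_inner_smul_left, sum_inner,
    Finset.sum_eq_single (0 : ZMod p)]
  · have h0 : β 0 = 1 := by
      have := hβ 0 0
      rw [add_zero] at this
      exact (mul_eq_left.1 this.symm)
    rw [h0, map_one, Module.End.one_apply, real_inner_self_eq_norm_sq]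
  · intro b _ hb
    exact heis_inner hρ hα hab u hu hz b hb
  · intro h
    exact absurd (Finset.mem_univ _) h

/-- the pair inequality -/
theorem heis_pair (hp : 16 ≤ p) (hρ : ∀ g x y, ⟪ρ g x, ρ g y⟫_ℝ = ⟪x, y⟫_ℝ)
    (hα : ∀ a b, α (a + b) = α a * α b) (hβ : ∀ a b, β (a + b) = β a * β b)
    (hζ : ∀ a b, ζ (a + b) = ζ a * ζ b)
    (hζa : ∀ a c, ζ c * α a = α a * ζ c) (hζb : ∀ b c, ζ c * β b = β b * ζ c)
    (hab : ∀ a b, β b * α a = α a * β b * ζ (a * b)) (x : E) :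
    0 ≤ 2 * ⟪x - avg ρ α x, x - avg ρ β x⟫_ℝ +
      (1 / 4) * (‖x - avg ρ α x‖ ^ 2 + ‖x - avg ρ β x‖ ^ 2) := by
  have hA := avg_proj hρ hα
  have hB := avg_proj hρ hβ
  have hZ := avg_proj hρ hζ
  set A := avg ρ α with hAdef
  set B := avg ρ β with hBdef
  set Z := avg ρ ζ with hZdef
  have hAZ : ∀ y, A (Z y) = Z (A y) := fun y => avg_comm ρ (fun a c => (hζa a c).symm) y
  have hBZ : ∀ y, B (Z y) = Z (B y) := fun y => avg_comm ρ (fun b c => (hζb b c).symm) y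
  set x0 := Z x with hx0
  set x1 := x - Z x with hx1
  have hx : x = x0 + x1 := by rw [hx0, hx1]; abel
  have hZx0 : Z x0 = x0 := hZ.idem x
  have hZx1 : Z x1 = 0 := by rw [hx1, map_sub, hZ.idem, sub_self]
  have hab0 : A (B x0) = B (A x0) := heis_comm hζa hab hζ x0 hZx0
  have h0 : 0 ≤ ⟪x0 - A x0, x0 - B x0⟫_ℝ := comm_nonneg hA hB x0 hab0
  have horth : ∀ y z, Z y = y → Z z = 0 → ⟪y, z⟫_ℝ = 0 := by
    intro y z hy hz
    rw [← hy, hZ.symm, hz, inner_zero_right]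
  have h1 : 0 ≤ 2 * ⟪x1 - A x1, x1 - B x1⟫_ℝ +
      (1 / 4) * (‖x1 - A x1‖ ^ 2 + ‖x1 - B x1‖ ^ 2) := by
    apply near_orth hA hB
    have hu : A (A x1) = A x1 := hA.idem x1
    have hz : Z (A x1) = 0 := by rw [← hAZ, hZx1, map_zero]
    have h2 := heis_norm hρ hα hβ hab (A x1) hu hz
    have h3 : ⟪A x1, B x1⟫_ℝ = ⟪B (A x1), B x1⟫_ℝ := by
      rw [hB.symm, hB.idem]
    have h4 := real_inner_mul_inner_self_le (B (A x1)) (B x1)
    rw [← h3, real_inner_self_eq_norm_sq, real_inner_self_eq_norm_sq, ← hBdef.symm, h2] at h4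
    have h5 : (p : ℝ)⁻¹ ≤ 1 / 16 := by
      rw [one_div]
      apply inv_anti₀ (by norm_num)
      exact_mod_cast hp
    have h6 : (p : ℝ)⁻¹ * ‖A x1‖ ^ 2 * ‖B x1‖ ^ 2 ≤ 1 / 16 * (‖A x1‖ ^ 2 * ‖B x1‖ ^ 2) := by
      rw [mul_assoc]
      exact mul_le_mul_of_nonneg_right h5 (by positivity)
    nlinarith
  have hA0 : Z (x0 - A x0) = x0 - A x0 := by rw [map_sub, hZx0, ← hAZ, hZx0]
  have hB0 : Z (x0 - B x0) = x0 - B x0 := by rw [map_sub, hZx0, ← hBZ, hZx0]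
  have hA1 : Z (x1 - A x1) = 0 := by rw [map_sub, hZx1, ← hAZ, hZx1, map_zero, sub_zero]
  have hB1 : Z (x1 - B x1) = 0 := by rw [map_sub, hZx1, ← hBZ, hZx1, map_zero, sub_zero]
  have eA : x - A x = (x0 - A x0) + (x1 - A x1) := by
    conv_lhs => rw [hx, map_add]
    abel
  have eB : x - B x = (x0 - B x0) + (x1 - B x1) := by
    conv_lhs => rw [hx, map_add]
    abel
  have e1 : ⟪x - A x, x - B x⟫_ℝ = ⟪x0 - A x0, x0 - B x0⟫_ℝ + ⟪x1 - A x1, x1 - B x1⟫_ℝ := by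
    rw [eA, eB, inner_add_left, inner_add_right, inner_add_right, horth _ _ hA0 hB1,
      real_inner_comm (x0 - B x0) (x1 - A x1), horth _ _ hB0 hA1]
    ring
  have e2 : ‖x - A x‖ ^ 2 = ‖x0 - A x0‖ ^ 2 + ‖x1 - A x1‖ ^ 2 := by
    rw [eA, norm_add_sq_real, horth _ _ hA0 hA1]
    ring
  have e3 : ‖x - B x‖ ^ 2 = ‖x0 - B x0‖ ^ 2 + ‖x1 - B x1‖ ^ 2 := by
    rw [eB, norm_add_sq_real, horth _ _ hB0 hB1]
    ring
  rw [e1, e2, e3]
  have h7 : 0 ≤ ‖x0 - A x0‖ ^ 2 := by positivity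
  have h8 : 0 ≤ ‖x0 - B x0‖ ^ 2 := by positivity
  linarith

end heis

end Pool.Agent.W902.Heis
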