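import Pool.Agent.W902.Coef

/-!
# Large sets of 0/1 vectors span large subspaces
-/

set_option autoImplicit false
set_option linter.unusedSectionVars false

open Finset

namespace Pool.Agent.W902.Coef

variable {τ K : Type} [Fintype τ] [DecidableEq τ] [Field K] [Fintype K] [DecidableEq K]

/-- a Boolean value as a number -/
def bv (K : Type) [Field K] (b : Bool) : K := if b = true then 1 else 0

omit [Fintype K] [DecidableEq K] in
theorem bv_inj (b c : Bool) (h : bv K b = bv K c) : b = c := by
  unfold bv at h
  cases b <;> cases c <;> simp at h ⊢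

/-- the difference of two 0/1 vectors -/
def df (K : Type) [Field K] (p q : τ → Bool) : τ → K := fun k => bv K (p k) - bv K (q k)

omit [Fintype K] [DecidableEq K] in
theorem card_le (U : Submodule K (τ → K)) (P : Finset (τ → Bool))
    (hP : ∀ p ∈ P, ∀ q ∈ P, df K p q ∈ U) : P.card ≤ 2 ^ Module.finrank K U := by
  classical
  obtain ⟨κ, a, ha, hsp, hli⟩ := exists_linearIndependent' K
    (fun i : τ => ((LinearMap.proj i : (τ → K) →ₗ[K] K).comp U.subtype : Module.Dual K U))
  have : Fintype κ := Fintype.ofInjective a ha
  have h1 : Fintype.card κ ≤ Module.finrank K U := by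
    rw [← Subspace.dual_finrank_eq]
    exact hli.fintype_card_le_finrank
  refine le_trans ?_ (Nat.pow_le_pow_right (by norm_num) h1)
  rw [show 2 ^ Fintype.card κ = (univ : Finset (κ → Bool)).card by
    rw [Finset.card_univ, Fintype.card_fun, Fintype.card_bool]]
  apply Finset.card_le_card_of_injOn (fun p k => p (a k)) (fun _ _ => by simp)
  intro p hp q hq hpq
  set u : U := ⟨df K p q, hP p hp q hq⟩ with hu
  have h2 : ∀ φ ∈ Submodule.span K (Set.range ((fun i : τ =>
      ((LinearMap.proj i : (τ → K) →ₗ[K] K).comp U.subtype : Module.Dual K U)) ∘ a)), φ u = 0 := by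
    intro φ hφ
    induction hφ using Submodule.span_induction with
    | mem φ hφ =>
      obtain ⟨k, rfl⟩ := hφ
      show df K p q (a k) = 0
      have := congrFun hpq k
      simp only at this
      unfold df
      rw [this, sub_self]
    | zero => rfl
    | add φ ψ _ _ h h' => rw [LinearMap.add_apply, h, h', add_zero]
    | smul c φ _ h => rw [LinearMap.smul_apply, h, smul_zero]
  rw [hsp] at h2
  ext1 i
  have h3 := h2 _ (Submodule.subset_span ⟨i, rfl⟩)
  have h4 : df K p q i = 0 := h3
  exact bv_inj (K := K) _ _ (sub_eq_zero.1 h4)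

/-- the span of the differences -/
def spn (K : Type) [Field K] (P : Finset (τ → Bool)) : Submodule K (τ → K) :=
  Submodule.span K {u | ∃ p ∈ P, ∃ q ∈ P, df K p q = u}

omit [Fintype K] [DecidableEq K] in
theorem df_mem (P : Finset (τ → Bool)) {p q : τ → Bool} (hp : p ∈ P) (hq : q ∈ P) :
    df K p q ∈ spn K P := Submodule.subset_span ⟨p, hp, q, hq, rfl⟩

omit [Fintype K] [DecidableEq K] in
theorem le_finrank (P : Finset (τ → Bool)) (g : ℕ) (h : 2 ^ Fintype.card τ ≤ 2 ^ g * P.card) :
    Fintype.card τ ≤ g + Module.finrank K (spn K P) := by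
  have h1 := card_le (spn K P) P fun p hp q hq => df_mem P hp hq
  have h2 : 2 ^ Fintype.card τ ≤ 2 ^ (g + Module.finrank K (spn K P)) := by
    rw [pow_add]
    exact h.trans (Nat.mul_le_mul_left _ h1)
  exact (Nat.pow_le_pow_iff_right (by norm_num)).1 h2

/-- the orthogonal subspace -/
def orth (U : Submodule K (τ → K)) : Submodule K (τ → K) :=
  U.dualAnnihilator.comap (dotProductEquiv K τ).toLinearMap

omit [Fintype K] [DecidableEq K] in
theorem finrank_orth (U : Submodule K (τ → K)) :
    Module.finrank K U + Module.finrank K (orth U) = Fintype.card τ := by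
  have h1 : Module.finrank K (orth U) = Module.finrank K U.dualAnnihilator := by
    have h2 := (dotProductEquiv K τ).finrank_map_eq (orth U)
    have h3 : (orth U).map (dotProductEquiv K τ).toLinearMap = U.dualAnnihilator := by
      unfold orth
      exact Submodule.map_comap_eq_of_surjective (dotProductEquiv K τ).surjective _
    rw [h3] at h2
    exact h2.symm
  rw [h1, Subspace.finrank_add_finrank_dualAnnihilator_eq, Module.finrank_fintype_fun_eq_card]

theorem card_sub (U : Submodule K (τ → K)) : Nat.card U = Fintype.card K ^ Module.finrank K U := by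
  rw [Module.natCard_eq_pow_finrank (K := K), Nat.card_eq_fintype_card]

theorem small_kernel (N : τ → τ → K) (P P' : Finset (τ → Bool)) (g : ℕ)
    (h1 : 2 ^ Fintype.card τ ≤ 2 ^ g * P.card) (h2 : 2 ^ Fintype.card τ ≤ 2 ^ g * P'.card)
    (h : ∀ p ∈ P, ∀ p' ∈ P, ∀ q ∈ P', ∀ q' ∈ P',
      ∑ k, df K p p' k * ∑ l, N k l * df K q q' l = 0) :
    Fintype.card K ^ Fintype.card τ ≤ (ker N).card * Fintype.card K ^ (2 * g) := by
  classical
  set U := spn K P with hU
  set V := spn K P' with hV
  have f1 : Fintype.card τ ≤ g + Module.finrank K U := le_finrank (K := K) P g h1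
  have f2 : Fintype.card τ ≤ g + Module.finrank K V := le_finrank (K := K) P' g h2
  have f3 := finrank_orth U
  let F : (τ → K) →ₗ[K] (τ → K) := Matrix.mulVecLin (Matrix.of N)
  have hF : ∀ v k, F v k = ∑ l, N k l * v l := fun v k => rfl
  have hbi : ∀ v ∈ V, ∀ u ∈ U, ∑ k, u k * F v k = 0 := by
    intro v hv
    induction hv using Submodule.span_induction with
    | mem v hv =>
      obtain ⟨q, hq, q', hq', rfl⟩ := hv
      intro u hu
      induction hu using Submodule.span_induction with
      | mem u hu =>
        obtain ⟨p, hp, p', hp', rfl⟩ := hu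
        exact h p hp p' hp' q hq q' hq'
      | zero => simp
      | add u u' _ _ h h' =>
        simp only [Pi.add_apply, add_mul, Finset.sum_add_distrib]
        rw [h, h', add_zero]
      | smul c u _ h =>
        simp only [Pi.smul_apply, smul_eq_mul, mul_assoc]
        rw [← Finset.mul_sum, h, mul_zero]
    | zero => simp
    | add v v' _ _ h h' =>
      intro u hu
      simp only [map_add, Pi.add_apply, mul_add, Finset.sum_add_distrib]
      rw [h u hu, h' u hu, add_zero]
    | smul c v _ h =>
      intro u hu
      simp only [map_smul, Pi.smul_apply, smul_eq_mul, mul_left_comm _ c]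
      rw [← Finset.mul_sum, h u hu, mul_zero]
  have hmaps : ∀ v ∈ V, F v ∈ orth U := by
    intro v hv
    unfold orth
    rw [Submodule.mem_comap, Submodule.mem_dualAnnihilator]
    intro u hu
    have := hbi v hv u hu
    show ∑ k, F v k * u k = 0
    rw [← this]
    exact Finset.sum_congr rfl fun k _ => mul_comm _ _
  let sV : Finset (τ → K) := univ.filter (· ∈ V)
  let sD : Finset (τ → K) := univ.filter (· ∈ orth U)
  have cV : sV.card = Fintype.card K ^ Module.finrank K V := by
    rw [← card_sub, Nat.card_eq_fintype_card, Fintype.card_subtype]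
  have cD : sD.card = Fintype.card K ^ Module.finrank K (orth U) := by
    rw [← card_sub, Nat.card_eq_fintype_card, Fintype.card_subtype]
  have h3 : sV.card ≤ (ker N).card * sD.card := by
    refine (Finset.card_le_mul_card_image (f := F) sV (ker N).card ?_).trans
      (Nat.mul_le_mul_left _ (Finset.card_le_card ?_))
    · intro w hw
      obtain ⟨v0, hv0, rfl⟩ := Finset.mem_image.1 hw
      apply Finset.card_le_card_of_injOn (fun v => v - v0)
      · intro v hv
        have h5 := (Finset.mem_filter.1 hv).2
        unfold ker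
        simp only [Finset.coe_filter, Finset.mem_univ, true_and, Set.mem_ofPred_eq]
        intro k
        rw [← hF, map_sub, h5, sub_self, Pi.zero_apply]
      · intro v _ v' _ h
        exact sub_left_injective h
    · intro w hw
      obtain ⟨v, hv, rfl⟩ := Finset.mem_image.1 hw
      exact Finset.mem_filter.2 ⟨mem_univ _, hmaps v (Finset.mem_filter.1 hv).2⟩
  rw [cV, cD] at h3
  have hq0 : 0 < Fintype.card K := Fintype.card_pos
  calc Fintype.card K ^ Fintype.card τ ≤ Fintype.card K ^ (g + Module.finrank K V) :=
        Nat.pow_le_pow_right hq0 f2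
    _ = Fintype.card K ^ g * Fintype.card K ^ Module.finrank K V := pow_add _ _ _
    _ ≤ Fintype.card K ^ g * ((ker N).card * Fintype.card K ^ Module.finrank K (orth U)) :=
        Nat.mul_le_mul_left _ h3
    _ ≤ Fintype.card K ^ g * ((ker N).card * Fintype.card K ^ g) :=
        Nat.mul_le_mul_left _ (Nat.mul_le_mul_left _ (Nat.pow_le_pow_right hq0 (by omega)))
    _ = (ker N).card * Fintype.card K ^ (2 * g) := by rw [two_mul, pow_add]; ring

end Pool.Agent.W902.Coef
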