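import Pool.Agent.W902.Cross

/-!
# The vectors and the moves
-/

set_option autoImplicit false
set_option linter.unusedSectionVars false

open Finset

namespace Pool.Agent.W902.Orb

open Pool.Agent.W902.Cross

/-- coordinates -/
abbrev A (p s : ℕ) : Type := Fin s → ZMod p

/-- vectors -/
abbrev W (M p s : ℕ) : Type := ZMod M → A p s

/-- the shift -/
def T (p s : ℕ) : A p s →ₗ[ZMod p] A p s where
  toFun w := fun m => if h : (m : ℕ) = 0 then 0 else w ⟨m - 1, by omega⟩
  map_add' u v := by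
    ext m
    by_cases h : (m : ℕ) = 0 <;> simp [h]
  map_smul' c v := by
    ext m
    by_cases h : (m : ℕ) = 0 <;> simp [h]

/-- the coefficients -/
def c {M p s : ℕ} (i : ZMod M) : A p s →ₗ[ZMod p] A p s :=
  if i + 1 = 0 then T p s else LinearMap.id

section moves

variable {M p s : ℕ} [NeZero M] (hM : 3 ≤ M)

include hM

theorem one_ne : (1 : ZMod M) ≠ 0 := by
  intro h
  have := congrArg ZMod.val h
  rw [ZMod.val_zero] at this
  have h2 : (1 : ZMod M) = ((1 : ℕ) : ZMod M) := by simp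
  rw [h2, ZMod.val_natCast_of_lt (by omega)] at this
  omega

theorem two_ne : (1 + 1 : ZMod M) ≠ 0 := by
  intro h
  have := congrArg ZMod.val h
  rw [ZMod.val_zero] at this
  have h2 : (1 + 1 : ZMod M) = ((2 : ℕ) : ZMod M) := by
    push_cast
    norm_num
  rw [h2, ZMod.val_natCast_of_lt (by omega)] at this
  omega

theorem succ_ne (i : ZMod M) : i + 1 ≠ i := by
  intro h
  exact one_ne hM (by simpa using h)

theorem succ_succ_ne (i : ZMod M) : i + 1 + 1 ≠ i := by
  intro h
  rw [add_assoc] at h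
  exact two_ne hM (by simpa using h)

end moves

variable {M p s : ℕ}

/-- `w (j)` is increased by a multiple of `f (w i)` -/
def add (i j : ZMod M) (hij : j ≠ i) (f : A p s →ₗ[ZMod p] A p s) (a : ZMod p) :
    Equiv.Perm (W M p s) where
  toFun w := Function.update w j (w j + a • f (w i))
  invFun w := Function.update w j (w j + (-a) • f (w i))
  left_inv w := by
    ext1 l
    by_cases hl : l = j
    · subst hl
      simp [Function.update_of_ne hij.symm]
    · simp [Function.update_of_ne hl]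
  right_inv w := by
    ext1 l
    by_cases hl : l = j
    · subst hl
      simp [Function.update_of_ne hij.symm]
    · simp [Function.update_of_ne hl]

theorem add_same (i j : ZMod M) (hij : j ≠ i) (f : A p s →ₗ[ZMod p] A p s) (a : ZMod p)
    (w : W M p s) : add i j hij f a w j = w j + a • f (w i) := by
  simp [add]

theorem add_ne (i j : ZMod M) (hij : j ≠ i) (f : A p s →ₗ[ZMod p] A p s) (a : ZMod p)
    (w : W M p s) {l : ZMod M} (hl : l ≠ j) : add i j hij f a w l = w l := by
  simp [add, Function.update_of_ne hl]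

theorem add_add (i j : ZMod M) (hij : j ≠ i) (f : A p s →ₗ[ZMod p] A p s) (a b : ZMod p) :
    add i j hij f (a + b) = add i j hij f a * add i j hij f b := by
  ext1 w
  rw [Equiv.Perm.mul_apply]
  ext1 l
  by_cases hl : l = j
  · subst hl
    rw [add_same, add_same, add_same, add_ne _ _ _ _ _ _ hij.symm, add_smul]
    abel
  · rw [add_ne _ _ _ _ _ _ hl, add_ne _ _ _ _ _ _ hl, add_ne _ _ _ _ _ _ hl]

theorem add_comm' (i j : ZMod M) (hij : j ≠ i) (f : A p s →ₗ[ZMod p] A p s) (a : ZMod p)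
    (i' j' : ZMod M) (hij' : j' ≠ i') (f' : A p s →ₗ[ZMod p] A p s) (a' : ZMod p)
    (h1 : j ≠ i') (h2 : j' ≠ i) :
    add i j hij f a * add i' j' hij' f' a' = add i' j' hij' f' a' * add i j hij f a := by
  ext1 w
  rw [Equiv.Perm.mul_apply, Equiv.Perm.mul_apply]
  ext1 l
  by_cases hl : l = j
  · subst hl
    rw [add_same, add_ne _ _ _ _ _ _ h2.symm]
    by_cases hl' : l = j'
    · subst hl'
      rw [add_same, add_same, add_same, add_ne _ _ _ _ _ _ h1.symm]
      abel
    · rw [add_ne _ _ _ _ _ _ hl', add_ne _ _ _ _ _ _ hl', add_same]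
  · rw [add_ne _ _ _ _ _ _ hl]
    by_cases hl' : l = j'
    · subst hl'
      rw [add_same, add_same, add_ne _ _ _ _ _ _ h1.symm, add_ne _ _ _ _ _ _ hl]
    · rw [add_ne _ _ _ _ _ _ hl', add_ne _ _ _ _ _ _ hl', add_ne _ _ _ _ _ _ hl]

/-- the moves -/
def mv [NeZero M] (hM : 3 ≤ M) (i : ZMod M) (a : ZMod p) : Equiv.Perm (W M p s) :=
  add i (i + 1) (succ_ne hM i) (c i) a

/-- the commutators -/
def zt [NeZero M] (hM : 3 ≤ M) (i : ZMod M) (a : ZMod p) : Equiv.Perm (W M p s) :=
  add i (i + 1 + 1) (succ_succ_ne hM i) ((c (i + 1)).comp (c i)) a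

section rel

variable [NeZero M] (hM : 3 ≤ M)

theorem mv_add (i : ZMod M) (a b : ZMod p) :
    (mv hM i (a + b) : Equiv.Perm (W M p s)) = mv hM i a * mv hM i b := add_add _ _ _ _ _ _

theorem zt_add (i : ZMod M) (a b : ZMod p) :
    (zt hM i (a + b) : Equiv.Perm (W M p s)) = zt hM i a * zt hM i b := add_add _ _ _ _ _ _

theorem zt_mv (i : ZMod M) (a c : ZMod p) :
    (zt hM i c * mv hM i a : Equiv.Perm (W M p s)) = mv hM i a * zt hM i c :=
  add_comm' _ _ _ _ _ _ _ _ _ _ (succ_succ_ne hM i) (succ_ne hM i)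

theorem zt_mv' (i : ZMod M) (b c : ZMod p) :
    (zt hM i c * mv hM (i + 1) b : Equiv.Perm (W M p s)) = mv hM (i + 1) b * zt hM i c :=
  add_comm' _ _ _ _ _ _ _ _ _ _ (succ_ne hM (i + 1)) (succ_succ_ne hM i)

theorem mv_comm (i j : ZMod M) (h1 : j ≠ i + 1) (h2 : i ≠ j + 1) (a b : ZMod p) :
    (mv hM i a * mv hM j b : Equiv.Perm (W M p s)) = mv hM j b * mv hM i a :=
  add_comm' _ _ _ _ _ _ _ _ _ _ h1.symm h2.symm

theorem mv_heis (i : ZMod M) (a b : ZMod p) :
    (mv hM (i + 1) b * mv hM i a : Equiv.Perm (W M p s)) =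
      mv hM i a * mv hM (i + 1) b * zt hM i (a * b) := by
  have n1 := succ_ne hM i
  have n2 := succ_ne hM (i + 1)
  have n3 := succ_succ_ne hM i
  ext1 w
  rw [Equiv.Perm.mul_apply, Equiv.Perm.mul_apply, Equiv.Perm.mul_apply]
  ext1 l
  unfold mv zt
  by_cases h2 : l = i + 1 + 1
  · subst h2
    rw [add_same, add_same, add_ne _ _ _ _ _ _ n2, add_ne _ _ _ _ _ _ n2, add_same, add_same,
      add_ne _ _ _ _ _ _ n2.symm]
    simp only [LinearMap.comp_apply, map_add, map_smul, smul_add, smul_smul]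
    rw [mul_comm a b]
    abel
  · rw [add_ne _ _ _ _ _ _ h2]
    by_cases h1 : l = i + 1
    · subst h1
      rw [add_same, add_same, add_ne _ _ _ _ _ _ h2, add_ne _ _ _ _ _ _ h2,
        add_ne _ _ _ _ _ _ n3.symm, add_ne _ _ _ _ _ _ n3.symm]
    · rw [add_ne _ _ _ _ _ _ h1, add_ne _ _ _ _ _ _ h1, add_ne _ _ _ _ _ _ h2,
        add_ne _ _ _ _ _ _ h2]

end rel

end Pool.Agent.W902.Orb
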