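import Pool.Agent.W902.Size

/-!
# Partitions with bounded blocks: two large sets contain two elements which are together in
# almost all of the partitions
-/

set_option autoImplicit false
set_option linter.unusedSectionVars false

open Finset

namespace Pool.Agent.W902.Orb

open Pool.Agent.W902.Cross

variable {M : ℕ} [NeZero M] (hM : 3 ≤ M) {p : ℕ} [Fact p.Prime] {s : ℕ}

/-- the elements of the group -/
def κ (i : ZMod M) (a : ZMod p) : Gr hM p s := ⟨mv hM i a, mv_mem hM i a⟩

theorem zt_mem (i : ZMod M) (a : ZMod p) : zt hM i a ∈ Gr hM p s := by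
  have h := mv_heis (s := s) hM i a 1
  rw [mul_one] at h
  have h2 : (zt hM i a : Equiv.Perm (W M p s)) =
      (mv hM i a * mv hM (i + 1) 1)⁻¹ * (mv hM (i + 1) 1 * mv hM i a) := by
    rw [h, inv_mul_cancel_left]
  rw [h2]
  exact mul_mem (inv_mem (mul_mem (mv_mem hM _ _) (mv_mem hM _ _)))
    (mul_mem (mv_mem hM _ _) (mv_mem hM _ _))

/-- the commutators -/
def ζ (i : ZMod M) (a : ZMod p) : Gr hM p s := ⟨zt hM i a, zt_mem hM i a⟩

theorem H_top : H (κ hM (p := p) (s := s)) univ = ⊤ := by
  have h0 := Subgroup.closure_closure_coe_preimage (k := {g | ∃ i a, mv (p := p) (s := s) hM i a = g})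
  refine Eq.trans ?_ h0
  unfold H
  congr 1
  ext g
  constructor
  · rintro ⟨i, -, a, rfl⟩
    exact ⟨i, a, rfl⟩
  · rintro ⟨i, a, h⟩
    exact ⟨i, mem_univ _, a, Subtype.ext h⟩

theorem cross' (hp : 16 ≤ p) (L1 L2 : Finset (Or hM p s)) (e : ℕ) (he : 1 ≤ e)
    (h1 : 8 * e ^ 2 * Fintype.card (Or hM p s) < M * L1.card)
    (h2 : 8 * e ^ 2 * Fintype.card (Or hM p s) < M * L2.card) :
    ∃ v ∈ L1, ∃ w ∈ L2, ∃ X : Finset (ZMod M), e * X.card ≤ M ∧
      ∃ g ∈ H (κ hM (p := p) (s := s)) X, g • v.1 = w.1 := by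
  let _ : Fintype (MulAction.orbit (Gr hM p s) (w0 M p s)) :=
    (inferInstance : Fintype (Or hM p s))
  have := cross (G := Gr hM p s) (V := MulAction.orbit (Gr hM p s) (w0 M p s)) hp
    (Equiv.addRight (1 : ZMod M)) (κ hM) (ζ hM)
    (fun i a b => Subtype.ext (mv_add hM i a b)) (fun i a b => Subtype.ext (zt_add hM i a b))
    (fun i a c => Subtype.ext (zt_mv hM i a c)) (fun i b c => Subtype.ext (zt_mv' hM i b c))
    (fun i a b => Subtype.ext (mv_heis hM i a b))
    (fun i j _ h1 h2 a b => Subtype.ext (mv_comm hM i j h1 h2 a b))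
    (fun i => succ_ne hM i)
    (fun v w => by
      rw [H_top]
      obtain ⟨g, hg⟩ := MulAction.exists_smul_eq (Gr hM p s) v w
      exact ⟨g, Subgroup.mem_top _, hg⟩)
    L1 L2 e he (by rw [ZMod.card]; exact h1) (by rw [ZMod.card]; exact h2)
  obtain ⟨v, hv, w, hw, X, hX, g, hg, e1⟩ := this
  rw [ZMod.card] at hX
  refine ⟨v, hv, w, hw, X, hX, g, hg, ?_⟩
  rw [← e1]
  rfl

/-- the subspaces -/
def Sp (z : ZMod M) (v : W M p s) : ℕ → Submodule (ZMod p) (A p s)
  | 0 => Submodule.span _ {v (z + 1)}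
  | m + 1 => Submodule.span _ {v (z + 1 + ((m + 1 : ℕ) : ZMod M))} ⊔ (Sp z v m).map (c (z + 1 + ((m : ℕ) : ZMod M)))

theorem mem_Sp (z : ZMod M) (v : W M p s) (m : ℕ) : v (z + 1 + ((m : ℕ) : ZMod M)) ∈ Sp z v m := by
  cases m with
  | zero =>
    simp only [Sp, Nat.cast_zero, add_zero]
    exact Submodule.mem_span_singleton_self _
  | succ m =>
    exact Submodule.mem_sup_left (Submodule.mem_span_singleton_self _)

theorem span_one (p s : ℕ) [Fact p.Prime] (u : A p s) :
    Module.finrank (ZMod p) (Submodule.span (ZMod p) {u}) ≤ 1 := by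
  have := finrank_span_le_card (R := ZMod p) ({u} : Set (A p s))
  simpa using this

theorem finrank_Sp (z : ZMod M) (v : W M p s) (m : ℕ) :
    Module.finrank (ZMod p) (Sp z v m) ≤ m + 1 := by
  induction m with
  | zero => exact span_one _ _ _
  | succ m ih =>
    refine (Submodule.finrank_add_le_finrank_add_finrank _ _).trans ?_
    have h1 : Module.finrank (ZMod p) (Submodule.span (ZMod p) {v (z + 1 + ((m + 1 : ℕ) : ZMod M))}) ≤ 1 :=
      span_one _ _ _
    have h2 := Submodule.finrank_map_le (c (z + 1 + ((m : ℕ) : ZMod M))) (Sp z v m)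
    omega

theorem card_Sp (z : ZMod M) (v : W M p s) (m : ℕ) (hm : m < M) :
    Nat.card (Sp z v m) ≤ p ^ M := by
  rw [Module.natCard_eq_pow_finrank (K := ZMod p), Nat.card_eq_fintype_card, ZMod.card]
  exact Nat.pow_le_pow_right (Fact.out (p := p.Prime)).pos ((finrank_Sp z v m).trans hm)

/-- the invariant set -/
def Inv (z : ZMod M) (v : W M p s) : Set (W M p s) :=
  {w | ∀ j : ZMod M, w j ∈ Sp z v (j - (z + 1)).val}

theorem mem_Inv (z : ZMod M) (v : W M p s) : v ∈ Inv z v := by
  intro j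
  have := mem_Sp z v (j - (z + 1)).val
  rwa [ZMod.natCast_zmod_val, add_sub_cancel] at this

theorem Inv_step (z : ZMod M) (v w : W M p s) (hw : w ∈ Inv z v) (i : ZMod M) (hi : i ≠ z)
    (a : ZMod p) : mv hM i a w ∈ Inv z v := by
  intro j
  unfold mv
  by_cases hj : j = i + 1
  · subst hj
    rw [add_same]
    apply Submodule.add_mem _ (hw _)
    apply Submodule.smul_mem
    have h1 : (i + 1 - (z + 1)).val = (i - (z + 1)).val + 1 := by
      have e1 : i + 1 - (z + 1) = ((((i - (z + 1)).val + 1 : ℕ)) : ZMod M) := by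
        push_cast
        rw [ZMod.natCast_zmod_val]
        ring
      have hlt := ZMod.val_lt (i - (z + 1))
      rcases Nat.lt_or_ge ((i - (z + 1)).val + 1) M with h | h
      · rw [e1, ZMod.val_natCast_of_lt h]
      · exfalso
        have h3 : (i - (z + 1)).val + 1 = M := by omega
        rw [h3, ZMod.natCast_self] at e1
        exact hi (by linear_combination e1)
    rw [h1]
    apply Submodule.mem_sup_right
    refine ⟨w i, hw i, ?_⟩
    rw [ZMod.natCast_zmod_val, add_sub_cancel]
  · rw [add_ne _ _ _ _ _ _ hj]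
    exact hw j

theorem Inv_smul (z : ZMod M) (v : W M p s) (X : Finset (ZMod M)) (hz : z ∉ X)
    (g : Gr hM p s) (hg : g ∈ H (κ hM (p := p) (s := s)) X) : g • v ∈ Inv z v := by
  have key : ∀ w, w ∈ Inv z v ↔ g • w ∈ Inv z v := by
    unfold H at hg
    induction hg using Subgroup.closure_induction with
    | mem g hg =>
      obtain ⟨i, hi, a, rfl⟩ := hg
      have hne : i ≠ z := by
        rintro rfl
        exact hz hi
      intro w
      refine ⟨fun h => Inv_step hM z v w h i hne a, fun h => ?_⟩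
      have h2 := Inv_step hM z v _ h i hne (-a)
      have h3 : mv hM i (-a) ((κ hM i a : Gr hM p s) • w) = w := by
        have := congrFun (congrArg DFunLike.coe (mv_add (s := s) hM i (-a) a)) w
        rw [Equiv.Perm.mul_apply] at this
        refine this.symm.trans ?_
        ext1 l
        unfold mv
        by_cases hl : l = i + 1
        · subst hl
          rw [add_same]
          simp
        · rw [add_ne _ _ _ _ _ _ hl]
      rwa [h3] at h2
    | one => exact fun w => by rw [one_smul]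
    | mul g h _ _ hg hh =>
      intro w
      rw [mul_smul, ← hg, ← hh]
    | inv g _ hg =>
      intro w
      rw [hg (g⁻¹ • w), smul_inv_smul]
  exact (key v).1 (mem_Inv z v)

theorem card_Inv (z : ZMod M) (v : W M p s) : Nat.card (Inv z v) ≤ (p ^ M) ^ M := by
  classical
  have h1 : Nat.card (Inv z v) ≤ Nat.card (∀ j : ZMod M, Sp z v (j - (z + 1)).val) := by
    apply Nat.card_le_card_of_injective (fun w : Inv z v => fun j => (⟨w.1 j, w.2 j⟩ : Sp z v _))
    rintro ⟨v, hv⟩ ⟨w, hw⟩ h
    congr 1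
    ext1 j
    exact congrArg Subtype.val (congrFun h j)
  refine h1.trans ?_
  rw [Nat.card_pi]
  calc ∏ j : ZMod M, Nat.card (Sp z v (j - (z + 1)).val) ≤ ∏ _j : ZMod M, p ^ M :=
        Finset.prod_le_prod' fun j _ => card_Sp z v _ (ZMod.val_lt _)
    _ = (p ^ M) ^ M := by rw [Finset.prod_const, Finset.card_univ, ZMod.card]

end Pool.Agent.W902.Orb
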