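import Pool.Agent.W902.Part

/-!
# The partitions
-/

set_option autoImplicit false
set_option linter.unusedSectionVars false

open Finset

namespace Pool.Agent.W902.Orb

open Pool.Agent.W902.Cross

theorem partitions (Q e : ℕ) (he : 1 ≤ e) : ∃ M B : ℕ, 0 < M ∧ ∀ n : ℕ, 1 ≤ n →
    ∃ π : Fin M → Fin n → Fin n, (∀ z c, (univ.filter fun i => π z i = c).card ≤ B) ∧
      ∀ A A' : Finset (Fin n), n ≤ Q * A.card → n ≤ Q * A'.card →
        ∃ i ∈ A, ∃ j ∈ A', e * (univ.filter fun z => π z i ≠ π z j).card ≤ M := by
  classical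
  set M := 16 * e ^ 2 * Q + 3 with hMdef
  have hM : 3 ≤ M := by omega
  have : NeZero M := ⟨by omega⟩
  set p := 17 with hpdef
  have : Fact p.Prime := ⟨by norm_num⟩
  refine ⟨M, (p ^ M + 1) * (p ^ M) ^ M, by omega, ?_⟩
  intro n hn
  obtain ⟨s, hs1, hs2⟩ := exists_size (p := p) hM n hn
  set q := Fintype.card (Or hM p s) with hq
  have hq0 : 0 < q := card_pos hM
  let φ : Fin n → Or hM p s := fun i => (Fintype.equivFin (Or hM p s)).symm
    ⟨(i : ℕ) % q, Nat.mod_lt _ hq0⟩
  have hfib : ∀ v, (univ.filter fun i => φ i = v).card ≤ n / q + 1 := by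
    intro v
    rw [← Finset.card_range (n / q + 1)]
    apply Finset.card_le_card_of_injOn (fun i : Fin n => (i : ℕ) / q)
    · intro i _
      simp only [Finset.coe_range, Set.mem_Iio]
      exact Nat.lt_succ_of_le (Nat.div_le_div_right i.2.le)
    · intro i hi j hj hij
      simp only [Finset.coe_filter, Finset.mem_univ, true_and, Set.mem_ofPred_eq] at hi hj
      have h1 : φ i = φ j := by rw [hi, hj]
      have h2 := (Fintype.equivFin (Or hM p s)).symm.injective h1
      rw [Fin.mk.injEq] at h2
      have h3 : (i : ℕ) / q = (j : ℕ) / q := hij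
      apply Fin.ext
      rw [← Nat.div_add_mod (i : ℕ) q, ← Nat.div_add_mod (j : ℕ) q, h2, h3]
  have hdiv : (n / q + 1) * q ≤ 2 * n := by
    have := Nat.div_mul_le_self n q
    nlinarith
  have hdiv2 : n / q + 1 ≤ p ^ M + 1 := by
    have : n / q ≤ p ^ M := by
      apply Nat.div_le_of_le_mul
      rw [mul_comm]
      exact hs2
    omega
  let S : Fin M → Setoid (Fin n) := fun z =>
    { r := fun i j => ∃ g ∈ H (κ hM (p := p) (s := s)) (univ.erase ((z : ℕ) : ZMod M)),
        g • (φ i).1 = (φ j).1
      iseqv := ⟨fun i => ⟨1, one_mem _, one_smul _ _⟩,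
        fun {i j} ⟨g, hg, h⟩ => ⟨g⁻¹, inv_mem hg, by rw [← h, inv_smul_smul]⟩,
        fun {i j k} ⟨g, hg, h⟩ ⟨g', hg', h'⟩ => ⟨g' * g, mul_mem hg' hg, by
          rw [mul_smul, h, h']⟩⟩ }
  let π : Fin M → Fin n → Fin n := fun z i => (Quotient.mk (S z) i).out
  have hπ : ∀ z i j, (S z).r i j → π z i = π z j := by
    intro z i j h
    show (Quotient.mk (S z) i).out = (Quotient.mk (S z) j).out
    rw [Quotient.sound (s := S z) h]
  refine ⟨π, ?_, ?_⟩
  · intro z c
    rcases (univ.filter fun i => π z i = c).eq_empty_or_nonempty with h0 | ⟨i0, hi0⟩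
    · rw [h0]
      simp
    have hrel : ∀ i, π z i = c → (S z).r c i := by
      intro i hi
      rw [← hi]
      exact Quotient.exact (s := S z) (Quotient.out_eq (Quotient.mk (S z) i))
    have h1 : (univ.filter fun i => π z i = c).card ≤ (p ^ M + 1) *
        ((univ.filter fun i => π z i = c).image φ).card := by
      apply Finset.card_le_mul_card_image
      intro v _
      refine le_trans (Finset.card_le_card ?_) ((hfib v).trans hdiv2)
      intro i hi
      simp only [Finset.mem_filter, Finset.mem_univ, true_and] at hi ⊢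
      exact hi.2
    refine h1.trans (Nat.mul_le_mul_left _ ?_)
    refine le_trans ?_ (card_Inv ((z : ℕ) : ZMod M) (φ c).1)
    have h5 : ((univ.filter fun i => π z i = c).image φ).card =
        Nat.card ((univ.filter fun i => π z i = c).image φ : Finset (Or hM p s)) := by
      rw [Nat.card_eq_fintype_card, Fintype.card_coe]
    rw [h5]
    have hmem : ∀ v : ((univ.filter fun i => π z i = c).image φ : Finset (Or hM p s)),
        v.1.1 ∈ Inv ((z : ℕ) : ZMod M) (φ c).1 := by
      rintro ⟨v, hv⟩
      rw [Finset.mem_image] at hv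
      obtain ⟨i, hi, rfl⟩ := hv
      obtain ⟨g, hg, e1⟩ := hrel i (Finset.mem_filter.1 hi).2
      show (φ i).1 ∈ _
      rw [← e1]
      exact Inv_smul hM _ _ _ (Finset.notMem_erase _ _) g hg
    apply Nat.card_le_card_of_injective (fun v => (⟨v.1.1, hmem v⟩ : Inv _ _))
    intro v w h
    have h6 := congrArg Subtype.val h
    exact Subtype.ext (Subtype.ext h6)
  · intro A A' hA hA'
    have hL : ∀ A : Finset (Fin n), n ≤ Q * A.card → 8 * e ^ 2 * q < M * (A.image φ).card := by
      intro A hA
      have h1 : A.card ≤ (n / q + 1) * (A.image φ).card := by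
        apply Finset.card_le_mul_card_image
        intro v _
        refine le_trans (Finset.card_le_card ?_) (hfib v)
        intro i hi
        simp only [Finset.mem_filter, Finset.mem_univ, true_and] at hi ⊢
        exact hi.2
      have h2 : n * q ≤ n * (2 * Q * (A.image φ).card) := by
        calc n * q ≤ Q * A.card * q := Nat.mul_le_mul_right _ hA
          _ ≤ Q * ((n / q + 1) * (A.image φ).card) * q :=
            Nat.mul_le_mul_right _ (Nat.mul_le_mul_left _ h1)
          _ = Q * (A.image φ).card * ((n / q + 1) * q) := by ring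
          _ ≤ Q * (A.image φ).card * (2 * n) := Nat.mul_le_mul_left _ hdiv
          _ = n * (2 * Q * (A.image φ).card) := by ring
      have h3 : q ≤ 2 * Q * (A.image φ).card := Nat.le_of_mul_le_mul_left h2 hn
      have h4 : 0 < (A.image φ).card := by
        by_contra h
        have : (A.image φ).card = 0 := by omega
        rw [this, mul_zero] at h3
        omega
      calc 8 * e ^ 2 * q ≤ 8 * e ^ 2 * (2 * Q * (A.image φ).card) := Nat.mul_le_mul_left _ h3
        _ = 16 * e ^ 2 * Q * (A.image φ).card := by ring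
        _ < M * (A.image φ).card := by
          apply Nat.mul_lt_mul_of_pos_right _ h4
          omega
    obtain ⟨v, hv, w, hw, X, hX, g, hg, e1⟩ := cross' hM (by norm_num) (A.image φ) (A'.image φ) e he
      (hL A hA) (hL A' hA')
    rw [Finset.mem_image] at hv hw
    obtain ⟨i, hi, rfl⟩ := hv
    obtain ⟨j, hj, rfl⟩ := hw
    refine ⟨i, hi, j, hj, le_trans (Nat.mul_le_mul_left e ?_) hX⟩
    apply Finset.card_le_card_of_injOn (fun z : Fin M => ((z : ℕ) : ZMod M))
    · intro z hz
      simp only [Finset.coe_filter, Finset.mem_univ, true_and, Set.mem_ofPred_eq] at hz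
      by_contra hzX
      apply hz
      apply hπ
      refine ⟨g, H_mono _ ?_ hg, e1⟩
      intro y hy
      rw [Finset.mem_erase]
      refine ⟨?_, mem_univ _⟩
      rintro rfl
      exact hzX hy
    · intro z _ z' _ h
      have h1 := congrArg ZMod.val h
      simp only at h1
      rw [ZMod.val_natCast_of_lt z.2, ZMod.val_natCast_of_lt z'.2] at h1
      exact Fin.ext h1

end Pool.Agent.W902.Orb
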