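import Mathlib
import Pool.Agent.H554R2.Coin.Defs

/-!
# Ordered read-once programs for sums over the blocks of a partition
-/

set_option autoImplicit false
set_option linter.unusedSectionVars false

open Finset

namespace Pool.Agent.W902.Prog

open Pool.Agent.H554R2.Sem Pool.Agent.H554R2.Coin

section seq

variable {ι α β : Type}

/-- what is done in a node of one of the programs `Q a` -/
def nodeQ {S : Type} (Q : α → BP ι β) (f : (Σ a : α, (Q a).State) → S) :
    (Σ a : α, (Q a).State) → (ι × (Bool → S)) ⊕ β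
  | ⟨a, s⟩ => match (Q a).node s with
    | Sum.inl (j, nxt) => Sum.inl (j, fun c => f ⟨a, nxt c⟩)
    | Sum.inr o => Sum.inr o

/-- query `i` and continue with `Q b` -/
def root (i : ι) (Q : Bool → BP ι β) : BP ι β where
  State := Option (Σ b : Bool, (Q b).State)
  start := none
  node := fun s => match s with
    | none => Sum.inl (i, fun b => some ⟨b, (Q b).start⟩)
    | some s => nodeQ Q some s

theorem root_walk (i : ι) (Q : Bool → BP ι β) (x : ι → Bool) (b : Bool) (l : List ι)
    (s v : (Q b).State) (h : (Q b).Walk x s l v) :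
    (root i Q).Walk x (some ⟨b, s⟩ : Option (Σ b : Bool, (Q b).State)) l
      (some ⟨b, v⟩ : Option (Σ b : Bool, (Q b).State)) := by
  induction l generalizing s with
  | nil =>
    have h1 : s = v := h
    subst h1
    exact rfl
  | cons j l ih =>
    obtain ⟨nxt, h1, h2⟩ := h
    refine ⟨fun c => some ⟨b, nxt c⟩, ?_, ih _ h2⟩
    show nodeQ Q some ⟨b, s⟩ = _
    simp only [nodeQ, h1]
    rfl

theorem root_comp (i : ι) (Q : Bool → BP ι β) (x : ι → Bool) (l : List ι) (o : β)
    (h : (Q (x i)).Comp x l o) : (root i Q).Comp x (i :: l) o := by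
  obtain ⟨v, hv, hn⟩ := h
  refine ⟨(some ⟨x i, v⟩ : Option (Σ b : Bool, (Q b).State)), ?_, ?_⟩
  · exact ⟨fun b => some ⟨b, (Q b).start⟩, rfl, root_walk i Q x (x i) l _ _ hv⟩
  · show nodeQ Q some ⟨x i, v⟩ = _
    simp only [nodeQ, hn]
    rfl

/-- first `P` and then, if the output is `a`, `Q a` -/
def seq [Fintype α] (P : BP ι α) (Q : α → BP ι β) : BP ι β where
  State := P.State ⊕ (Σ a : α, (Q a).State)
  start := Sum.inl P.start
  node := fun s => match s with
    | Sum.inl s => match P.node s with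
      | Sum.inl (i, nxt) => Sum.inl (i, fun c => Sum.inl (nxt c))
      | Sum.inr a => nodeQ Q Sum.inr ⟨a, (Q a).start⟩
    | Sum.inr s => nodeQ Q Sum.inr s

variable [Fintype α]

theorem walk_append (P : BP ι β) (x : ι → Bool) (l l' : List ι) (s v w : P.State)
    (h : P.Walk x s l v) (h' : P.Walk x v l' w) : P.Walk x s (l ++ l') w := by
  induction l generalizing s with
  | nil =>
    have h1 : s = v := h
    subst h1
    exact h'
  | cons j l ih =>
    obtain ⟨nxt, h1, h2⟩ := h
    exact ⟨nxt, h1, ih _ h2⟩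

theorem walk_left (P : BP ι α) (Q : α → BP ι β) (x : ι → Bool) (l : List ι)
    (s v : P.State) (h : P.Walk x s l v) :
    (seq P Q).Walk x (Sum.inl s : P.State ⊕ (Σ a : α, (Q a).State)) l
      (Sum.inl v : P.State ⊕ (Σ a : α, (Q a).State)) := by
  induction l generalizing s with
  | nil =>
    have h1 : s = v := h
    subst h1
    exact rfl
  | cons j l ih =>
    obtain ⟨nxt, h1, h2⟩ := h
    refine ⟨fun c => Sum.inl (nxt c), ?_, ih _ h2⟩
    simp only [seq, h1]

theorem walk_right (P : BP ι α) (Q : α → BP ι β) (x : ι → Bool) (a : α)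
    (l : List ι) (s v : (Q a).State) (h : (Q a).Walk x s l v) :
    (seq P Q).Walk x (Sum.inr ⟨a, s⟩ : P.State ⊕ (Σ a : α, (Q a).State)) l
      (Sum.inr ⟨a, v⟩ : P.State ⊕ (Σ a : α, (Q a).State)) := by
  induction l generalizing s with
  | nil =>
    have h1 : s = v := h
    subst h1
    exact rfl
  | cons j l ih =>
    obtain ⟨nxt, h1, h2⟩ := h
    refine ⟨fun c => Sum.inr ⟨a, nxt c⟩, ?_, ih _ h2⟩
    show nodeQ Q Sum.inr ⟨a, s⟩ = _
    simp only [nodeQ, h1]
    rfl

theorem seq_comp (P : BP ι α) (Q : α → BP ι β) (x : ι → Bool) (l l' : List ι)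
    (a : α) (o : β) (h : P.Comp x l a) (h' : (Q a).Comp x l' o) :
    (seq P Q).Comp x (l ++ l') o := by
  obtain ⟨v, hv, hn⟩ := h
  obtain ⟨w, hw, hm⟩ := h'
  have h1 := walk_left P Q x l _ _ hv
  have hnode : (seq P Q).node (Sum.inl v : P.State ⊕ (Σ a : α, (Q a).State)) =
      nodeQ Q Sum.inr ⟨a, (Q a).start⟩ := by
    simp only [seq, hn]
  cases l' with
  | nil =>
    have h2 : (Q a).start = w := hw
    rw [List.append_nil]
    refine ⟨_, h1, ?_⟩
    refine hnode.trans ?_
    simp only [nodeQ]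
    rw [h2, hm]
    rfl
  | cons i l' =>
    obtain ⟨nxt, h2, h3⟩ := hw
    refine ⟨(Sum.inr ⟨a, w⟩ : P.State ⊕ (Σ a : α, (Q a).State)),
      walk_append (seq P Q) x l (i :: l') _ _ _ h1 ⟨fun c => Sum.inr ⟨a, nxt c⟩, ?_,
        walk_right P Q x a l' _ _ h3⟩, ?_⟩
    · refine hnode.trans ?_
      simp only [nodeQ, h2]
      rfl
    · show nodeQ Q Sum.inr ⟨a, w⟩ = _
      simp only [nodeQ, hm]
      rfl

/-- the outputs are replaced -/
def map (P : BP ι α) (h : α → β) : BP ι β where
  State := P.State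
  start := P.start
  node := fun s => match P.node s with
    | Sum.inl a => Sum.inl a
    | Sum.inr o => Sum.inr (h o)

omit [Fintype α] in
theorem map_walk (P : BP ι α) (h : α → β) (x : ι → Bool) (l : List ι) (s v : P.State)
    (hw : P.Walk x s l v) : (map P h).Walk x s l v := by
  induction l generalizing s with
  | nil => exact hw
  | cons j l ih =>
    obtain ⟨nxt, h1, h2⟩ := hw
    refine ⟨nxt, ?_, ih _ h2⟩
    simp only [map, h1]

omit [Fintype α] in
theorem map_comp (P : BP ι α) (h : α → β) (x : ι → Bool) (l : List ι) (a : α)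
    (hc : P.Comp x l a) : (map P h).Comp x l (h a) := by
  obtain ⟨v, hv, hn⟩ := hc
  refine ⟨v, map_walk P h x l _ _ hv, ?_⟩
  simp only [map, hn]

end seq

/-- decision trees -/
theorem tree {n : ℕ} {β : Type} (l : List (Fin n)) (φ : Pt n → β)
    (hφ : ∀ x y : Pt n, (∀ i ∈ l, x i = y i) → φ x = φ y) :
    ∃ U : BP (Fin n) β, Fintype.card U.State + 1 ≤ 2 * 2 ^ l.length ∧
      ∀ x : Pt n, U.Comp x l (φ x) := by
  induction l generalizing φ with
  | nil =>
    refine ⟨⟨Unit, (), fun _ => Sum.inr (φ fun _ => false)⟩, by simp, fun x => ⟨(), rfl, ?_⟩⟩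
    rw [hφ x (fun _ => false) (by simp)]
  | cons i l ih =>
    have h1 : ∀ b : Bool, ∃ U : BP (Fin n) β, Fintype.card U.State + 1 ≤ 2 * 2 ^ l.length ∧
        ∀ x : Pt n, U.Comp x l (φ (Function.update x i b)) := by
      intro b
      apply ih (fun x => φ (Function.update x i b))
      intro x y hxy
      apply hφ
      intro j hj
      by_cases hji : j = i
      · subst hji
        simp
      · rw [Function.update_of_ne hji, Function.update_of_ne hji]
        apply hxy
        rcases List.mem_cons.mp hj with h | h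
        · exact absurd h hji
        · exact h
    choose Q hQ1 hQ2 using h1
    refine ⟨root i Q, ?_, fun x => ?_⟩
    · have e : Fintype.card (root i Q).State =
          Fintype.card (Option (Σ b : Bool, (Q b).State)) :=
        Fintype.card_congr (Equiv.refl _)
      rw [e, Fintype.card_option, Fintype.card_sigma, Fintype.sum_bool, List.length_cons, pow_succ]
      have := hQ1 true
      have := hQ1 false
      omega
    · apply root_comp
      have := hQ2 (x i) x
      rwa [Function.update_eq_self] at this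

theorem ind {n : ℕ} {𝔸 : Type} [Fintype 𝔸] [AddCommMonoid 𝔸] (π : Fin n → Fin n)
    (F : Fin n → Pt n → 𝔸)
    (hF : ∀ c, ∀ x y : Pt n, (∀ i, π i = c → x i = y i) → F c x = F c y) (S : Finset (Fin n)) :
    ∃ (U : BP (Fin n) 𝔸) (l : List (Fin n)),
      Fintype.card U.State ≤ Fintype.card 𝔸 * (2 * ∑ c ∈ S, 2 ^ (univ.filter (fun v => π v = c)).card)
        + 1 ∧ l.Nodup ∧ (∀ v ∈ l, π v ∈ S) ∧ ∀ x : Pt n, U.Comp x l (∑ c ∈ S, F c x) := by
  classical
  induction S using Finset.induction_on with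
  | empty =>
    refine ⟨⟨Unit, (), fun _ => Sum.inr 0⟩, [], by simp, List.nodup_nil, by simp,
      fun x => ⟨(), rfl, ?_⟩⟩
    simp
  | insert g S hg ih =>
    obtain ⟨P, l, hP, hl, hlS, hc⟩ := ih
    set l' := (univ.filter (fun v => π v = g)).toList with hl'
    have hmem : ∀ v, v ∈ l' ↔ π v = g := fun v => by simp [hl']
    have hlen : l'.length = (univ.filter (fun v => π v = g)).card := by simp [hl']
    have htree : ∀ a : 𝔸, ∃ U : BP (Fin n) 𝔸, Fintype.card U.State + 1 ≤ 2 * 2 ^ l'.length ∧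
        ∀ x : Pt n, U.Comp x l' (F g x + a) := by
      intro a
      apply tree l' (fun x => F g x + a)
      intro x y hxy
      rw [hF g x y fun i hi => hxy i ((hmem i).2 hi)]
    choose Q hQ1 hQ2 using htree
    refine ⟨seq P Q, l ++ l', ?_, ?_, ?_, fun x => ?_⟩
    · have e : Fintype.card (seq P Q).State =
          Fintype.card (P.State ⊕ (Σ a : 𝔸, (Q a).State)) :=
        Fintype.card_congr (Equiv.refl _)
      rw [e, Fintype.card_sum, Fintype.card_sigma, Finset.sum_insert hg]
      have h1 : ∑ a : 𝔸, Fintype.card (Q a).State ≤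
          Fintype.card 𝔸 * (2 * 2 ^ (univ.filter (fun v => π v = g)).card) := by
        calc ∑ a : 𝔸, Fintype.card (Q a).State ≤ ∑ _a : 𝔸, 2 * 2 ^ l'.length :=
              Finset.sum_le_sum fun a _ => by have := hQ1 a; omega
          _ = _ := by rw [Finset.sum_const, Finset.card_univ, smul_eq_mul, hlen]
      rw [mul_add, mul_add]
      omega
    · rw [List.nodup_append]
      refine ⟨hl, Finset.nodup_toList _, ?_⟩
      intro a ha b hb hab
      subst hab
      apply hg
      rw [← (hmem a).mp hb]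
      exact hlS a ha
    · intro v hv
      rw [List.mem_append] at hv
      rcases hv with hv | hv
      · exact Finset.mem_insert_of_mem (hlS v hv)
      · rw [(hmem v).mp hv]
        exact Finset.mem_insert_self _ _
    · rw [Finset.sum_insert hg]
      exact seq_comp P Q x l l' _ _ (hc x) (hQ2 _ x)

/-- programs for functions of sums over the blocks -/
theorem program {n B : ℕ} {𝔸 : Type} [Fintype 𝔸] [AddCommMonoid 𝔸] (π : Fin n → Fin n)
    (hπ : ∀ c, (univ.filter (fun v => π v = c)).card ≤ B) (F : Fin n → Pt n → 𝔸)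
    (hF : ∀ c, ∀ x y : Pt n, (∀ i, π i = c → x i = y i) → F c x = F c y) (h : 𝔸 → Bool) (hn : 1 ≤ n) :
    ∃ (U : BP (Fin n) Bool) (l : List (Fin n)),
      Fintype.card U.State ≤ (Fintype.card 𝔸 * 2 ^ (B + 1) + 1) * n ∧ l.Nodup ∧
        ∀ x : Pt n, U.Comp x l (h (∑ c, F c x)) := by
  obtain ⟨U, l, h1, h2, -, h3⟩ := ind π F hF univ
  refine ⟨map U h, l, ?_, h2, fun x => map_comp U h x l _ (h3 x)⟩
  have e : Fintype.card (map U h).State = Fintype.card U.State :=
    Fintype.card_congr (Equiv.refl _)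
  rw [e]
  refine h1.trans ?_
  have h4 : ∑ c : Fin n, 2 ^ (univ.filter (fun v => π v = c)).card ≤ n * 2 ^ B := by
    calc ∑ c : Fin n, 2 ^ (univ.filter (fun v => π v = c)).card ≤ ∑ _c : Fin n, 2 ^ B :=
          Finset.sum_le_sum fun c _ => Nat.pow_le_pow_right (by norm_num) (hπ c)
      _ = n * 2 ^ B := by rw [Finset.sum_const, Finset.card_univ, Fintype.card_fin, smul_eq_mul]
  calc Fintype.card 𝔸 * (2 * ∑ c : Fin n, 2 ^ (univ.filter (fun v => π v = c)).card) + 1
      ≤ Fintype.card 𝔸 * (2 * (n * 2 ^ B)) + n :=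
        Nat.add_le_add (Nat.mul_le_mul_left _ (Nat.mul_le_mul_left _ h4)) hn
    _ = (Fintype.card 𝔸 * 2 ^ (B + 1) + 1) * n := by rw [pow_succ]; ring

end Pool.Agent.W902.Prog
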