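import Pool.Agent.W902.Lin
import Pool.Agent.H554R2.Lin.Defs

/-!
# The form is not constant on large rectangles
-/

set_option autoImplicit false
set_option linter.unusedSectionVars false

open Finset

namespace Pool.Agent.W902.Coef

open Pool.Agent.H554R2.Sem Pool.Agent.H554R2.Lin

variable {n : ℕ} {K : Type} [Field K] [Fintype K] [DecidableEq K]

/-- the form -/
def form (c : Fin n → Fin n → K) (x : Pt n) : K := ∑ i, ∑ j, c i j * (bv K (x i) * bv K (x j))

omit [Fintype K] [DecidableEq K] in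
theorem four (c : Fin n → Fin n → K) (A : Finset (Fin n)) (x x' y y' : Pt n) :
    form c (merge A x y) - form c (merge A x' y) - form c (merge A x y') +
      form c (merge A x' y') = ∑ i, ∑ j, (c i j + c j i) *
        ((if i ∈ A then bv K (x i) - bv K (x' i) else 0) *
          (if j ∈ A then 0 else bv K (y j) - bv K (y' j))) := by
  set u : Fin n → K := fun i => if i ∈ A then bv K (x i) - bv K (x' i) else 0 with hu
  set v : Fin n → K := fun j => if j ∈ A then 0 else bv K (y j) - bv K (y' j) with hv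
  have h1 : ∑ i, ∑ j, (c i j + c j i) * (u i * v j) =
      ∑ i, ∑ j, c i j * (u i * v j + v i * u j) := by
    have h2 : ∑ i, ∑ j, c j i * (u i * v j) = ∑ i, ∑ j, c i j * (v i * u j) := by
      rw [Finset.sum_comm]
      exact Finset.sum_congr rfl fun i _ => Finset.sum_congr rfl fun j _ => by ring
    simp only [add_mul, mul_add, Finset.sum_add_distrib]
    rw [h2]
  rw [h1]
  unfold form
  rw [← Finset.sum_sub_distrib, ← Finset.sum_sub_distrib, ← Finset.sum_add_distrib]
  apply Finset.sum_congr rfl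
  intro i _
  rw [← Finset.sum_sub_distrib, ← Finset.sum_sub_distrib, ← Finset.sum_add_distrib]
  apply Finset.sum_congr rfl
  intro j _
  simp only [hu, hv, merge]
  by_cases hi : i ∈ A <;> by_cases hj : j ∈ A <;> simp only [hi, hj, if_true, if_false] <;> ring

/-- a part of a large set whose elements agree outside a set -/
theorem restrict (X : Finset (Pt n)) (A R : Finset (Fin n)) (hR : R ⊆ A) (g : ℕ)
    (hX : 2 ^ A.card ≤ 2 ^ g * X.card) : ∃ X' ⊆ X,
      (∀ x ∈ X', ∀ x' ∈ X', ∀ v ∈ A, v ∉ R → x v = x' v) ∧ 2 ^ R.card ≤ 2 ^ g * X'.card := by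
  classical
  let ρ : Pt n → ((A \ R : Finset (Fin n)) → Bool) := fun x v => x v.1
  by_contra hcon
  push Not at hcon
  have h1 : ∀ y, 2 ^ g * (X.filter fun x => ρ x = y).card < 2 ^ R.card := by
    intro y
    refine hcon _ (Finset.filter_subset _ _) ?_
    intro x hx x' hx' v hv hv'
    have e1 : ρ x = ρ x' := by rw [(Finset.mem_filter.1 hx).2, (Finset.mem_filter.1 hx').2]
    exact congrFun e1 ⟨v, Finset.mem_sdiff.2 ⟨hv, hv'⟩⟩
  have h2 : 2 ^ g * X.card < 2 ^ A.card := by
    calc 2 ^ g * X.card = ∑ y : ((A \ R : Finset (Fin n)) → Bool),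
          2 ^ g * (X.filter fun x => ρ x = y).card := by
          rw [← Finset.mul_sum, Finset.card_eq_sum_card_fiberwise (f := ρ) (t := univ)
            fun x _ => Finset.mem_coe.2 (Finset.mem_univ _)]
      _ < ∑ _y : ((A \ R : Finset (Fin n)) → Bool), 2 ^ R.card :=
          Finset.sum_lt_sum_of_nonempty ⟨fun _ => false, mem_univ _⟩ fun y _ => h1 y
      _ = 2 ^ A.card := by
          rw [Finset.sum_const, Finset.card_univ, smul_eq_mul, Fintype.card_fun, Fintype.card_bool,
            Fintype.card_coe, ← pow_add, Finset.card_sdiff_add_card_eq_card hR]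
  omega

theorem no_rect {Q : ℕ} (E : Fin n → Fin n → Prop) [∀ i j, Decidable (E i j)]
    (ω : Fin n → Fin n → K)
    (hω : ∀ A B : Finset (Fin n), Disjoint A B → n ≤ Q * A.card →
      n ≤ Q * B.card → ∃ T : Finset (Fin n × Fin n), (∀ k ∈ T, k.1 ∈ A ∧ k.2 ∈ B) ∧
        (∀ k ∈ T, ∀ l ∈ T, k.1 = l.1 → k = l) ∧ (∀ k ∈ T, ∀ l ∈ T, k.2 = l.2 → k = l) ∧
        ∀ g, 100 * g ≤ A.card → 100 * g ≤ B.card →
          (ker (mx E T ω)).card * Fintype.card K ^ (2 * g) < Fintype.card K ^ T.card)
    (S : Finset (Pt n)) (c : K)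
    (hS : ∀ x ∈ S, form (fun i j => if E i j then ω i j else 0) x = c)
    (a b g : ℕ) (ha : n ≤ Q * a) (hb : n ≤ Q * b) (hga : 100 * g ≤ a) (hgb : 100 * g ≤ b)
    (R : Rect S a b g) : False := by
  classical
  obtain ⟨T, t1, t2, t3, t4⟩ := hω R.A R.B R.disj (by rw [R.cA]; exact ha) (by rw [R.cB]; exact hb)
  have t5 := t4 g (by rw [R.cA]; exact hga) (by rw [R.cB]; exact hgb)
  have i1 : (T.image Prod.fst).card = T.card :=
    Finset.card_image_of_injOn fun k hk l hl h => t2 k hk l hl h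
  have i2 : (T.image Prod.snd).card = T.card :=
    Finset.card_image_of_injOn fun k hk l hl h => t3 k hk l hl h
  have s1 : T.image Prod.fst ⊆ R.A := by
    intro v hv
    obtain ⟨k, hk, rfl⟩ := Finset.mem_image.1 hv
    exact (t1 k hk).1
  have s2 : T.image Prod.snd ⊆ R.B := by
    intro v hv
    obtain ⟨k, hk, rfl⟩ := Finset.mem_image.1 hv
    exact (t1 k hk).2
  obtain ⟨X', hX', hX1, hX2⟩ := restrict R.X R.A _ s1 g (by rw [R.cA]; exact R.nX)
  obtain ⟨Y', hY', hY1, hY2⟩ := restrict R.Y R.B _ s2 g (by rw [R.cB]; exact R.nY)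
  rw [i1] at hX2
  rw [i2] at hY2
  have hXa : ∀ x ∈ X', ∀ x' ∈ X', ∀ v, v ∉ T.image Prod.fst → x v = x' v := by
    intro x hx x' hx' v hv
    by_cases hvA : v ∈ R.A
    · exact hX1 x hx x' hx' v hvA hv
    · rw [R.hX x (hX' hx) v hvA, R.hX x' (hX' hx') v hvA]
  have hYa : ∀ x ∈ Y', ∀ x' ∈ Y', ∀ v, v ∉ T.image Prod.snd → x v = x' v := by
    intro x hx x' hx' v hv
    by_cases hvB : v ∈ R.B
    · exact hY1 x hx x' hx' v hvB hv
    · rw [R.hY x (hY' hx) v hvB, R.hY x' (hY' hx') v hvB]
  let P : Finset (T → Bool) := X'.image fun x k => x k.1.1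
  let P' : Finset (T → Bool) := Y'.image fun x k => x k.1.2
  have cP : P.card = X'.card := by
    apply Finset.card_image_of_injOn
    intro x hx x' hx' h
    ext1 v
    by_cases hv : v ∈ T.image Prod.fst
    · obtain ⟨k, hk, rfl⟩ := Finset.mem_image.1 hv
      exact congrFun h ⟨k, hk⟩
    · exact hXa x hx x' hx' v hv
  have cP' : P'.card = Y'.card := by
    apply Finset.card_image_of_injOn
    intro x hx x' hx' h
    ext1 v
    by_cases hv : v ∈ T.image Prod.snd
    · obtain ⟨k, hk, rfl⟩ := Finset.mem_image.1 hv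
      exact congrFun h ⟨k, hk⟩
    · exact hYa x hx x' hx' v hv
  have key := small_kernel (mx E T ω) P P' g (by rw [Fintype.card_coe, cP]; exact hX2)
    (by rw [Fintype.card_coe, cP']; exact hY2) ?_
  · rw [Fintype.card_coe] at key
    exact absurd key (not_le.2 t5)
  intro p hp p' hp' q hq q' hq'
  obtain ⟨x, hx, rfl⟩ := Finset.mem_image.1 hp
  obtain ⟨x', hx', rfl⟩ := Finset.mem_image.1 hp'
  obtain ⟨y, hy, rfl⟩ := Finset.mem_image.1 hq
  obtain ⟨y', hy', rfl⟩ := Finset.mem_image.1 hq'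
  have h4 := four (fun i j => if E i j then ω i j else 0) R.A x x' y y'
  rw [hS _ (R.mem x (hX' hx) y (hY' hy)), hS _ (R.mem x' (hX' hx') y (hY' hy)),
    hS _ (R.mem x (hX' hx) y' (hY' hy')), hS _ (R.mem x' (hX' hx') y' (hY' hy')), sub_self,
    zero_sub, neg_add_cancel] at h4
  set u : Fin n → K := fun i => if i ∈ R.A then bv K (x i) - bv K (x' i) else 0 with hu
  set v : Fin n → K := fun j => if j ∈ R.A then 0 else bv K (y j) - bv K (y' j) with hv
  have hu0 : ∀ i, i ∉ T.image Prod.fst → u i = 0 := by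
    intro i hi
    simp only [hu]
    split_ifs
    · rw [hXa x hx x' hx' i hi, sub_self]
    · rfl
  have hv0 : ∀ j, j ∉ T.image Prod.snd → v j = 0 := by
    intro j hj
    simp only [hv]
    split_ifs
    · rfl
    · rw [hYa y hy y' hy' j hj, sub_self]
  have e1 : ∑ i, ∑ j, ((if E i j then ω i j else 0) + (if E j i then ω j i else 0)) * (u i * v j) =
      ∑ k ∈ T, ∑ l ∈ T, bil E ω k.1 l.2 * (u k.1 * v l.2) := by
    rw [← Finset.sum_subset (Finset.subset_univ (T.image Prod.fst))
      (fun i _ hi => Finset.sum_eq_zero fun j _ => by rw [hu0 i hi]; ring),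
      Finset.sum_image fun k hk l hl h => t2 k hk l hl h]
    apply Finset.sum_congr rfl
    intro k _
    rw [← Finset.sum_subset (Finset.subset_univ (T.image Prod.snd))
      (fun j _ hj => by rw [hv0 j hj]; ring),
      Finset.sum_image fun k hk l hl h => t3 k hk l hl h]
    rfl
  have e2 : ∀ k : T, u k.1.1 = bv K (x k.1.1) - bv K (x' k.1.1) := by
    intro k
    simp only [hu]
    rw [if_pos (t1 _ k.2).1]
  have e3 : ∀ k : T, v k.1.2 = bv K (y k.1.2) - bv K (y' k.1.2) := by
    intro k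
    simp only [hv]
    rw [if_neg]
    intro h
    exact Finset.disjoint_left.1 R.disj h (t1 _ k.2).2
  have e4 : ∑ k : T, df K (fun k : T => x k.1.1) (fun k => x' k.1.1) k *
      ∑ l : T, mx E T ω k l * df K (fun k : T => y k.1.2) (fun k => y' k.1.2) l =
      ∑ k ∈ T, ∑ l ∈ T, bil E ω k.1 l.2 * (u k.1 * v l.2) := by
    rw [← Finset.sum_coe_sort T]
    apply Finset.sum_congr rfl
    intro k _
    rw [Finset.mul_sum, ← Finset.sum_coe_sort T]
    apply Finset.sum_congr rfl
    intro l _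
    rw [e2, e3]
    unfold df mx
    ring
  rw [e4, ← e1]
  exact h4.symm

end Pool.Agent.W902.Coef
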