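import Pool.Agent.W902.Parts
import Pool.Agent.W902.Rect
import Pool.Agent.W902.Prog
import Pool.Agent.W902.Blks
import Pool.Agent.H554R2.Lin.Main

/-!
# The separation
-/

set_option autoImplicit false
set_option linter.unusedSectionVars false

open Finset

namespace Pool.Agent.W902.Sep

open Pool.Agent.H554R2.Sem Pool.Agent.H554R2.Coin Pool.Agent.H554R2.Lin Pool.Agent.W902.Coef

open Classical in
/-- `f` has randomised programs with one-sided error -/
def Easy {n : ℕ} (f : Pt n → Bool) (D e : ℕ) : Prop :=
  ∃ (m : ℕ) (q : Fin m → Pt n → Bool), 0 < m ∧ m ≤ D ∧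
    (∀ j, ∃ (U : BP (Fin n) Bool) (l : List (Fin n)), Fintype.card U.State ≤ D * n ∧ l.Nodup ∧
      ∀ x : Pt n, U.Comp x l (q j x)) ∧
    (∀ x, f x = false → ∀ j, q j x = false) ∧
    (∀ x, f x = true → e * (univ.filter fun j => q j x = false).card ≤ m)

open Classical in
/-- small programs which prove `f x = false` with at most `t` queries do so for few inputs only -/
def Hard {n : ℕ} (f : Pt n → Bool) (D t : ℕ) : Prop :=
  ∀ P : BP (Fin n) Bool, Fintype.card P.State < 2 ^ (n / D) →
    (∀ x l, P.Comp x l false → l.length ≤ t → f x = false) →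
    2 ^ (n / D) * (univ.filter fun x => ∃ l, P.Comp x l false ∧ l.length ≤ t).card ≤
      (univ.filter fun x => f x = false).card

section fn

variable {n M : ℕ} {K : Type} [Field K] [Fintype K] [DecidableEq K]
variable (π : Fin M → Fin n → Fin n) (c : Fin n → Fin n → K)

/-- the partitions in which two elements are together -/
def lab (i j : Fin n) : Finset (Fin M) := univ.filter fun z => π z i = π z j

/-- a part of the form -/
def part (S : Finset (Fin M)) (x : Pt n) : K :=
  ∑ i, ∑ j, if lab π i j = S then c i j * (bv K (x i) * bv K (x j)) else 0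

omit [Fintype K] [DecidableEq K] in
theorem sum_part (x : Pt n) : ∑ S, part π c S x = form c x := by
  unfold part form
  rw [Finset.sum_comm]
  apply Finset.sum_congr rfl
  intro i _
  rw [Finset.sum_comm]
  apply Finset.sum_congr rfl
  intro j _
  rw [Finset.sum_ite_eq, if_pos (mem_univ _)]

theorem part_program {B : ℕ} (hn : 1 ≤ n) (z : Fin M)
    (hB : ∀ b, (univ.filter fun i => π z i = b).card ≤ B) (y : Finset (Fin M) → K) :
    ∃ (U : BP (Fin n) Bool) (l : List (Fin n)),
      Fintype.card U.State ≤ (Fintype.card (Finset (Fin M) → K) * 2 ^ (B + 1) + 1) * n ∧ l.Nodup ∧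
        ∀ x : Pt n, U.Comp x l (decide (∃ S, z ∈ S ∧ part π c S x ≠ y S)) := by
  obtain ⟨U, l, h1, h2, h3⟩ := Pool.Agent.W902.Prog.program (𝔸 := Finset (Fin M) → K) (π z) hB
    (fun b x S => if z ∈ S then ∑ i, ∑ j, if lab π i j = S ∧ π z i = b then
      c i j * (bv K (x i) * bv K (x j)) else 0 else 0) (by
      intro b x x' hx
      ext1 S
      by_cases hz : z ∈ S
      · simp only [if_pos hz]
        apply Finset.sum_congr rfl
        intro i _
        apply Finset.sum_congr rfl
        intro j _
        by_cases h : lab π i j = S ∧ π z i = b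
        · rw [if_pos h, if_pos h]
          have h4 : π z i = π z j := by
            have h5 : z ∈ lab π i j := by rw [h.1]; exact hz
            exact (Finset.mem_filter.1 h5).2
          rw [hx i h.2, hx j (by rw [← h4]; exact h.2)]
        · rw [if_neg h, if_neg h]
      · simp only [if_neg hz])
    (fun v => decide (∃ S, z ∈ S ∧ v S ≠ y S)) hn
  refine ⟨U, l, h1, h2, fun x => ?_⟩
  have h4 := h3 x
  have h5 : decide (∃ S, z ∈ S ∧ (∑ b, fun S => if z ∈ S then ∑ i, ∑ j,
      if lab π i j = S ∧ π z i = b then c i j * (bv K (x i) * bv K (x j)) else 0 else 0) S ≠ y S) =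
      decide (∃ S, z ∈ S ∧ part π c S x ≠ y S) := by
    congr 1
    apply propext
    apply exists_congr
    intro S
    apply and_congr_right
    intro hz
    have h6 : (∑ b, fun S => if z ∈ S then ∑ i, ∑ j,
      if lab π i j = S ∧ π z i = b then c i j * (bv K (x i) * bv K (x j)) else 0 else 0) S =
        part π c S x := by
      rw [Finset.sum_apply]
      simp only [if_pos hz]
      unfold part
      rw [Finset.sum_comm]
      apply Finset.sum_congr rfl
      intro i _
      rw [Finset.sum_comm]
      apply Finset.sum_congr rfl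
      intro j _
      simp only [ite_and]
      by_cases h : lab π i j = S
      · simp only [if_pos h]
        rw [Finset.sum_ite_eq, if_pos (mem_univ _)]
      · simp only [if_neg h]
        exact Finset.sum_const_zero
    rw [h6]
  rw [h5] at h4
  exact h4

end fn

theorem popular {α β : Type} [Fintype α] [Fintype β] [DecidableEq β] [Nonempty β] (v : α → β) :
    ∃ y, Fintype.card α ≤ Fintype.card β * (univ.filter fun x => v x = y).card := by
  obtain ⟨y, -, hy⟩ := Finset.exists_max_image (univ : Finset β)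
    (fun y => (univ.filter fun x => v x = y).card) Finset.univ_nonempty
  refine ⟨y, ?_⟩
  rw [← Finset.card_univ (α := α), Finset.card_eq_sum_card_fiberwise (f := v) (t := univ)
    fun x _ => Finset.mem_coe.2 (Finset.mem_univ _)]
  refine (Finset.sum_le_card_nsmul _ _ _ hy).trans (le_of_eq ?_)
  rw [Finset.card_univ, smul_eq_mul]

theorem fixed (k e : ℕ) : ∃ D : ℕ, 0 < D ∧ ∀ n ≥ D, ∃ f : Pt n → Bool, Easy f D e ∧
    2 ^ n ≤ D * (univ.filter fun x => f x = false).card ∧ ∀ t ≤ k * n, Hard f D t := by
  classical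
  obtain ⟨Q, r, N, hQ, hr, hN, hmain⟩ := main1 (k + 1) (by omega)
  obtain ⟨M, B, hM, hpart⟩ := Pool.Agent.W902.Orb.partitions (2 * Q) (e + 1) (by omega)
  obtain ⟨p, hp1, hp2⟩ := Nat.exists_infinite_primes (2 ^ (10 * Q))
  have : Fact p.Prime := ⟨hp2⟩
  have : NeZero p := ⟨hp2.ne_zero⟩
  set C := Fintype.card (Finset (Fin M) → ZMod p) with hC
  have hC0 : 0 < C := Fintype.card_pos
  set w := (r + 3 + C) * (M + C * 2 ^ (B + 1) + 1) with hw
  have hw1 : r + 3 + C ≤ w := Nat.le_mul_of_pos_right _ (by omega)
  have hw2 : M + C * 2 ^ (B + 1) + 1 ≤ w := Nat.le_mul_of_pos_left _ (by omega)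
  have hD : w ≤ N * w := Nat.le_mul_of_pos_left _ hN
  have hD2 : N ≤ N * w := Nat.le_mul_of_pos_right _ (by omega)
  refine ⟨N * w, by omega, ?_⟩
  intro n hn
  have hn1 : 1 ≤ n := by omega
  obtain ⟨π, hB, hcross⟩ := hpart n hn1
  let E : Fin n → Fin n → Prop := fun i j => (e + 1) * (univ.filter fun z => π z i ≠ π z j).card ≤ M
  obtain ⟨ω, hω⟩ := coefs Q (ZMod p) (by rw [ZMod.card]; exact hp1) n hn1 E hcross
  let c : Fin n → Fin n → ZMod p := fun i j => if E i j then ω i j else 0
  let val : Pt n → Finset (Fin M) → ZMod p := fun x S => part π c S x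
  obtain ⟨y, hy⟩ := popular val
  rw [← hC] at hy
  have hcard : Fintype.card (Pt n) = 2 ^ n := by simp
  rw [hcard] at hy
  let f : Pt n → Bool := fun x => decide (val x ≠ y)
  have hf : ∀ x, f x = false ↔ val x = y := by
    intro x
    simp [f]
  have hfF : (univ.filter fun x => f x = false) = univ.filter fun x => val x = y :=
    Finset.filter_congr fun x _ => hf x
  obtain ⟨x1, hx1⟩ : ∃ x1, val x1 = y := by
    by_contra h
    push Not at h
    have h2 : (univ.filter fun x => val x = y) = ∅ := Finset.filter_eq_empty_iff.2 fun x _ => h x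
    rw [h2, Finset.card_empty, mul_zero] at hy
    have := Nat.pow_pos (n := n) (show 0 < 2 by norm_num)
    omega
  refine ⟨f, ?_, ?_, ?_⟩
  · refine ⟨M, fun z x => decide (∃ S, z ∈ S ∧ part π c S x ≠ y S), hM, by omega, ?_, ?_, ?_⟩
    · intro z
      obtain ⟨U, l, h1, h2, h3⟩ := part_program π c hn1 z (hB z) y
      rw [← hC] at h1
      exact ⟨U, l, h1.trans (Nat.mul_le_mul_right _ (by omega)), h2, h3⟩
    · intro x hx z
      rw [hf] at hx
      rw [decide_eq_false_iff_not]
      rintro ⟨S, -, hS⟩
      exact hS (congrFun hx S)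
    · intro x hx
      have h1 : val x ≠ y := by
        intro h
        rw [(hf x).2 h] at hx
        exact absurd hx (by decide)
      obtain ⟨S, hS⟩ : ∃ S, part π c S x ≠ y S := by
        by_contra h
        push Not at h
        exact h1 (funext h)
      have h2 : (e + 1) * (univ.filter fun z => z ∉ S).card ≤ M := by
        by_contra h
        apply hS
        have h3 : ∀ x, part π c S x = 0 := by
          intro x
          unfold part
          apply Finset.sum_eq_zero
          intro i _
          apply Finset.sum_eq_zero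
          intro j _
          split_ifs with h4
          · have h5 : c i j = 0 := by
              show (if E i j then ω i j else 0) = 0
              rw [if_neg]
              intro h6
              apply h
              have h7 : (univ.filter fun z => z ∉ S) = univ.filter fun z => π z i ≠ π z j := by
                rw [← h4]
                ext z
                simp [lab]
              rw [h7]
              exact h6
            rw [h5, zero_mul]
          · rfl
        rw [h3, ← hx1]
        exact (h3 x1).symm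
      have h3 : (univ.filter fun z => decide (∃ S, z ∈ S ∧ part π c S x ≠ y S) = false) ⊆
          univ.filter fun z => z ∉ S := by
        intro z hz
        simp only [Finset.mem_filter, Finset.mem_univ, true_and, decide_eq_false_iff_not] at hz ⊢
        intro h4
        exact hz ⟨S, h4, hS⟩
      have h4 := Finset.card_le_card h3
      nlinarith
  · rw [hfF]
    refine hy.trans (Nat.mul_le_mul_right _ ?_)
    omega
  · intro t ht P hP hsound
    by_contra hcon
    rw [hfF] at hcon
    push Not at hcon
    set G := univ.filter fun x : Pt n => ∃ l, P.Comp x l false ∧ l.length ≤ t with hG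
    set F := (univ.filter fun x => val x = y).card with hF
    set s := k * n / r + 1 with hs
    have hrs1 : t ≤ r * s := by
      have h1 := Nat.div_add_mod (k * n) r
      have h2 := Nat.mod_lt (k * n) hr
      rw [hs, mul_add, mul_one]
      omega
    have hrs2 : r * s ≤ (k + 1) * n := by
      have h1 := Nat.div_add_mod (k * n) r
      rw [hs, mul_add, mul_one, add_mul, one_mul]
      omega
    obtain ⟨Bk, hBk1, hBk2⟩ := Pool.Agent.W902.Blks.blks P r s t hr hrs1 G
      (fun x hx => (Finset.mem_filter.1 hx).2)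
    set q := n / (N * w) with hq
    have hq1 : 1 ≤ q := (Nat.one_le_div_iff (by omega)).2 hn
    have hnN : C + (r + 2) * q ≤ n / N := by
      rw [Nat.le_div_iff_mul_le hN]
      have h1 : N * w * q ≤ n := Nat.mul_div_le n (N * w)
      have h2 : C + (r + 2) * q ≤ w * q := by nlinarith
      calc (C + (r + 2) * q) * N ≤ w * q * N := Nat.mul_le_mul_right _ h2
        _ = N * w * q := by ring
        _ ≤ n := h1
    have hbig : 2 ^ n ≤ 2 ^ (n / N) * Bk.K.card := by
      calc 2 ^ n ≤ C * F := hy
        _ ≤ 2 ^ C * (2 ^ q * G.card) := Nat.mul_le_mul Nat.lt_two_pow_self.le hcon.le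
        _ ≤ 2 ^ C * (2 ^ q * (Fintype.card P.State ^ (r + 1) * Bk.K.card)) :=
            Nat.mul_le_mul_left _ (Nat.mul_le_mul_left _ hBk1)
        _ ≤ 2 ^ C * (2 ^ q * ((2 ^ q) ^ (r + 1) * Bk.K.card)) :=
            Nat.mul_le_mul_left _ (Nat.mul_le_mul_left _ (Nat.mul_le_mul_right _
              (Nat.pow_le_pow_left hP.le _)))
        _ = 2 ^ (C + (r + 2) * q) * Bk.K.card := by
            rw [← pow_mul]
            rw [show C + (r + 2) * q = C + (q + q * (r + 1)) by ring, pow_add, pow_add]
            ring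
        _ ≤ 2 ^ (n / N) * Bk.K.card :=
            Nat.mul_le_mul_right _ (Nat.pow_le_pow_right (by norm_num) hnN)
    obtain ⟨a, b, g, ha, hb, hga, hgb, ⟨R⟩⟩ := hmain n (by omega) s hrs2 Bk hbig
    refine no_rect E ω hω Bk.K (∑ S, y S) ?_ a b g ha hb hga hgb R
    intro x hx
    obtain ⟨l, hl, hlen⟩ := hBk2 x hx
    have h1 := (hf x).1 (hsound x l hl hlen)
    show form c x = _
    rw [← sum_part π c x]
    exact Finset.sum_congr rfl fun S _ => congrFun h1 S

theorem Hard.mono {n : ℕ} {f : Pt n → Bool} {D D' t : ℕ} (h : Hard f D t) (hD0 : 0 < D)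
    (hD : D ≤ D') : Hard f D' t := by
  intro P hP hs
  have h1 : 2 ^ (n / D') ≤ 2 ^ (n / D) :=
    Nat.pow_le_pow_right (by norm_num) (Nat.div_le_div_left hD hD0)
  exact (Nat.mul_le_mul_right _ h1).trans (h P (hP.trans_le h1) hs)

theorem Easy.mono {n : ℕ} {f : Pt n → Bool} {D D' e e' : ℕ} (h : Easy f D e) (hD : D ≤ D')
    (he : e' ≤ e) : Easy f D' e' := by
  obtain ⟨m, q, h0, h1, h2, h3, h4⟩ := h
  refine ⟨m, q, h0, h1.trans hD, fun j => ?_, h3, fun x hx => ?_⟩
  · obtain ⟨U, l, a1, a2, a3⟩ := h2 j
    exact ⟨U, l, a1.trans (Nat.mul_le_mul_right _ hD), a2, a3⟩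
  · exact (Nat.mul_le_mul_right _ he).trans (h4 x hx)

/-- families of programs -/
theorem Hard.family {n : ℕ} {f : Pt n → Bool} {D t : ℕ} (h : Hard f D t)
    (hF : 0 < (univ.filter fun x => f x = false).card) (Ω : Type) [Fintype Ω]
    (P : Ω → BP (Fin n) Bool) (hP : ∀ ω, Fintype.card (P ω).State < 2 ^ (n / D))
    (hs : ∀ ω x l, (P ω).Comp x l false → l.length ≤ t → f x = false) :
    ∃ x, f x = false ∧
      2 ^ (n / D) * Nat.card {ω // ∃ l, (P ω).Comp x l false ∧ l.length ≤ t} ≤ Nat.card Ω := by
  classical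
  by_contra hcon
  push Not at hcon
  set F := univ.filter fun x => f x = false with hFdef
  have h1 : ∑ _x ∈ F, Fintype.card Ω <
      ∑ x ∈ F, 2 ^ (n / D) * (univ.filter fun ω => ∃ l, (P ω).Comp x l false ∧ l.length ≤ t).card := by
    apply Finset.sum_lt_sum_of_nonempty (Finset.card_pos.1 hF)
    intro x hx
    have := hcon x (Finset.mem_filter.1 hx).2
    rw [Nat.card_eq_fintype_card, Nat.card_eq_fintype_card, Fintype.card_subtype] at this
    exact this
  have h2 : ∑ x ∈ F, (univ.filter fun ω => ∃ l, (P ω).Comp x l false ∧ l.length ≤ t).card =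
      ∑ ω, (F.filter fun x => ∃ l, (P ω).Comp x l false ∧ l.length ≤ t).card :=
    Finset.sum_card_bipartiteAbove_eq_sum_card_bipartiteBelow
      (s := F) (t := (univ : Finset Ω)) (fun x ω => ∃ l, (P ω).Comp x l false ∧ l.length ≤ t)
  rw [Finset.sum_const, smul_eq_mul, ← Finset.mul_sum, h2, Finset.mul_sum] at h1
  have h3 : ∑ ω, 2 ^ (n / D) * (F.filter fun x => ∃ l, (P ω).Comp x l false ∧ l.length ≤ t).card ≤
      ∑ _ω : Ω, F.card := by
    apply Finset.sum_le_sum
    intro ω _
    refine le_trans (Nat.mul_le_mul_left _ (Finset.card_le_card ?_)) (h (P ω) (hP ω) (hs ω))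
    exact Finset.filter_subset_filter _ (Finset.subset_univ _)
  rw [Finset.sum_const, Finset.card_univ, smul_eq_mul, mul_comm] at h3
  omega

open Filter in
theorem uniform (h : ℕ → ℕ) (hh : Tendsto h atTop atTop) : ∃ f : ∀ n, Pt n → Bool,
    ∀ k e : ℕ, ∃ N, ∀ n ≥ N, Easy (f n) (h n) e ∧
      2 ^ n ≤ h n * (univ.filter fun x => f n x = false).card ∧
      ∀ t ≤ k * n, Hard (f n) (h n) t := by
  classical
  choose D hD0 hD using fun k => fixed k k
  let j : ℕ → ℕ := fun n => Nat.findGreatest (fun k => D k ≤ n ∧ D k ≤ h n) n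
  let f : ∀ n, Pt n → Bool := fun n =>
    if hn : D (j n) ≤ n then (hD (j n) n hn).choose else fun _ => false
  refine ⟨f, fun k e => ?_⟩
  set K := max k e with hK
  obtain ⟨N, hN⟩ := eventually_atTop.1 (tendsto_atTop.1 hh (D K))
  refine ⟨max N (max K (D K)), fun n hn => ?_⟩
  have n1 : N ≤ n := (le_max_left _ _).trans hn
  have n2 : K ≤ n := ((le_max_left _ _).trans (le_max_right _ _)).trans hn
  have n3 : D K ≤ n := ((le_max_right _ _).trans (le_max_right _ _)).trans hn
  have hj1 : K ≤ j n := Nat.le_findGreatest n2 ⟨n3, hN n n1⟩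
  have hj2 : D (j n) ≤ n ∧ D (j n) ≤ h n :=
    Nat.findGreatest_spec (P := fun k => D k ≤ n ∧ D k ≤ h n) n2 ⟨n3, hN n n1⟩
  have hfn : f n = (hD (j n) n hj2.1).choose := by
    show (if hn : D (j n) ≤ n then (hD (j n) n hn).choose else fun _ => false) = _
    rw [dif_pos hj2.1]
  obtain ⟨s1, s2, s3⟩ := (hD (j n) n hj2.1).choose_spec
  rw [← hfn] at s1 s2 s3
  refine ⟨s1.mono hj2.2 ((le_max_right _ _).trans hj1), s2.trans (Nat.mul_le_mul_right _ hj2.2),
    fun t ht => (s3 t (ht.trans (Nat.mul_le_mul_right _ ((le_max_left _ _).trans hj1)))).mono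
      (hD0 _) hj2.2⟩

end Pool.Agent.W902.Sep
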