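import Pool.Agent.W902.Orb

/-!
# The orbit of a vector, its size and the sizes of the blocks
-/

set_option autoImplicit false
set_option linter.unusedSectionVars false

open Finset

namespace Pool.Agent.W902.Orb

open Pool.Agent.W902.Cross

variable {M : ℕ} [NeZero M] (hM : 3 ≤ M) (p : ℕ) [Fact p.Prime] (s : ℕ)

/-- the group generated by the moves -/
def Gr : Subgroup (Equiv.Perm (W M p s)) := Subgroup.closure {g | ∃ i a, mv hM i a = g}

/-- the first vector -/
def w0 (M p s : ℕ) : W M p s := fun j m => if j = 0 ∧ (m : ℕ) = 0 then 1 else 0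

/-- the orbit -/
def Or : Set (W M p s) := MulAction.orbit (Gr hM p s) (w0 M p s)

variable {p s}

theorem mv_mem (i : ZMod M) (a : ZMod p) : mv hM i a ∈ Gr hM p s :=
  Subgroup.subset_closure ⟨i, a, rfl⟩

theorem w0_mem : w0 M p s ∈ Or hM p s := MulAction.mem_orbit_self _

theorem Or_step {v : W M p s} (hv : v ∈ Or hM p s) (i : ZMod M) (a : ZMod p) :
    mv hM i a v ∈ Or hM p s := by
  have := MulAction.mem_orbit_of_mem_orbit (⟨mv hM i a, mv_mem hM i a⟩ : Gr hM p s) hv
  exact this

theorem Or_induct {P : W M p s → Prop} (h0 : P (w0 M p s))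
    (hs : ∀ v i a, P v → P (mv hM i a v)) {v : W M p s} (hv : v ∈ Or hM p s) : P v := by
  obtain ⟨⟨g, hg⟩, rfl⟩ := hv
  show P (g (w0 M p s))
  have key : ∀ u, P u ↔ P (g u) := by
    induction hg using Subgroup.closure_induction with
    | mem g hg =>
      obtain ⟨i, a, rfl⟩ := hg
      intro u
      refine ⟨hs u i a, fun h => ?_⟩
      have h2 := hs _ i (-a) h
      have h3 : mv hM i (-a) (mv hM i a u) = u := by
        have := congrFun (congrArg DFunLike.coe (mv_add (s := s) hM i (-a) a)) u
        rw [Equiv.Perm.mul_apply] at this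
        rw [← this]
        ext1 l
        unfold mv
        by_cases hl : l = i + 1
        · subst hl
          rw [add_same]
          simp
        · rw [add_ne _ _ _ _ _ _ hl]
      rwa [h3] at h2
    | one => exact fun u => Iff.rfl
    | mul g h _ _ hg hh =>
      intro u
      rw [Equiv.Perm.mul_apply, ← hg, ← hh]
    | inv g _ hg =>
      intro u
      rw [hg (g⁻¹ u)]
      simp
  exact (key _).1 h0

/-- restriction -/
def res (v : W M p (s + 1)) : W M p s := fun j m => v j m.castSucc

theorem res_c (i : ZMod M) (u : A p (s + 1)) (m : Fin s) :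
    c (M := M) i u m.castSucc = c (M := M) i (fun l => u l.castSucc) m := by
  unfold c
  split_ifs
  · show (if h : (m.castSucc : ℕ) = 0 then 0 else u ⟨m.castSucc - 1, _⟩) =
      if h : (m : ℕ) = 0 then 0 else u (Fin.castSucc ⟨m - 1, _⟩)
    by_cases h : (m : ℕ) = 0
    · simp [h]
    · simp [h]
  · rfl

theorem res_mv (i : ZMod M) (a : ZMod p) (v : W M p (s + 1)) :
    res (mv hM i a v) = mv hM i a (res v) := by
  ext1 l
  ext1 m
  unfold mv
  by_cases hl : l = i + 1
  · subst hl
    rw [add_same]
    show (add i (i + 1) _ (c i) a v) (i + 1) m.castSucc = _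
    rw [add_same, Pi.add_apply, Pi.add_apply, Pi.smul_apply, Pi.smul_apply, res_c]
    rfl
  · rw [add_ne _ _ _ _ _ _ hl]
    show (add i (i + 1) _ (c i) a v) l m.castSucc = _
    rw [add_ne _ _ _ _ _ _ hl]
    rfl

theorem res_w0 : res (w0 M p (s + 1)) = w0 M p s := by
  ext1 l
  ext1 m
  simp [res, w0]

theorem res_mem {v : W M p (s + 1)} (hv : v ∈ Or hM p (s + 1)) : res v ∈ Or hM p s := by
  refine Or_induct hM (P := fun v => res v ∈ Or hM p s) ?_ ?_ hv
  · rw [res_w0]
    exact w0_mem hM
  · intro v i a h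
    rw [res_mv]
    exact Or_step hM h i a

noncomputable instance : Fintype (Or hM p s) := Fintype.ofFinite _

theorem card_zero : Fintype.card (Or hM p 0) ≤ 1 := by
  rw [Fintype.card_le_one_iff]
  rintro ⟨v, hv⟩ ⟨w, hw⟩
  congr 1
  ext1 j
  ext1 m
  exact m.elim0

theorem card_pos : 0 < Fintype.card (Or hM p s) := Fintype.card_pos_iff.2 ⟨⟨_, w0_mem hM⟩⟩

theorem card_succ_le : Fintype.card (Or hM p (s + 1)) ≤ p ^ M * Fintype.card (Or hM p s) := by
  have : Function.Injective (fun v : Or hM p (s + 1) =>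
      ((fun j => v.1 j (Fin.last s) : ZMod M → ZMod p), (⟨res v.1, res_mem hM v.2⟩ : Or hM p s))) := by
    rintro ⟨v, hv⟩ ⟨w, hw⟩ h
    simp only [Prod.mk.injEq, Subtype.mk.injEq] at h
    congr 1
    ext1 j
    ext1 m
    induction m using Fin.lastCases with
    | last => exact congrFun h.1 j
    | cast m => exact congrFun (congrFun h.2 j) m
  have h2 := Fintype.card_le_of_injective _ this
  rw [Fintype.card_prod, Fintype.card_fun, ZMod.card, ZMod.card] at h2
  exact h2

theorem T_apply_succ (u : A p s) (m : ℕ) (h : m + 1 < s) :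
    T p s u ⟨m + 1, h⟩ = u ⟨m, by omega⟩ := by
  show (if h : (m + 1 : ℕ) = 0 then 0 else u ⟨m + 1 - 1, _⟩) = _
  simp

theorem T_apply_gt (u : A p s) (m : ℕ) (hu : ∀ l : Fin s, m < l → u l = 0) (l : Fin s)
    (hl : m + 1 < l) : T p s u l = 0 := by
  show (if h : (l : ℕ) = 0 then 0 else u ⟨l - 1, _⟩) = _
  split_ifs
  · rfl
  · exact hu _ (by show m < (l : ℕ) - 1; omega)

/-- a vector of degree `m` at `0` -/
def Deg (m : ℕ) (v : W M p s) : Prop :=
  (∀ h : m < s, v 0 ⟨m, h⟩ ≠ 0) ∧ (∀ j, ∀ l : Fin s, m < l → v j l = 0) ∧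
    ∀ j : ZMod M, j ≠ 0 → ∀ l : Fin s, m ≤ l → v j l = 0

theorem deg_step (m : ℕ) (hm : m + 1 < s) (v : W M p s) (hv : v ∈ Or hM p s) (hd : Deg m v) :
    ∃ w ∈ Or hM p s, Deg (m + 1) w := by
  have hcast : ∀ t : ℕ, t < M → ((t : ZMod M)).val = t := fun t ht => ZMod.val_natCast_of_lt ht
  have key : ∀ t : ℕ, t < M → ∃ w ∈ Or hM p s, w (t : ZMod M) ⟨m, by omega⟩ ≠ 0 ∧
      (∀ j, ∀ l : Fin s, m < l → w j l = 0) ∧
      ∀ j : ZMod M, t < j.val → w j ⟨m, by omega⟩ = 0 := by
    intro t
    induction t with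
    | zero =>
      intro _
      refine ⟨v, hv, ?_, hd.2.1, ?_⟩
      · simpa using hd.1 (by omega)
      · intro j hj
        apply hd.2.2 j _ _ (le_refl _)
        rintro rfl
        simp at hj
    | succ t ih =>
      intro ht
      obtain ⟨w, hw, h1, h2, h3⟩ := ih (by omega)
      have hne : (t : ZMod M) + 1 ≠ 0 := by
        intro h
        have := hcast (t + 1) ht
        push_cast at this
        rw [h, ZMod.val_zero] at this
        omega
      have hc : c (M := M) (p := p) (s := s) (t : ZMod M) = LinearMap.id := by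
        unfold c
        rw [if_neg hne]
      refine ⟨mv hM (t : ZMod M) 1 w, Or_step hM hw _ _, ?_, ?_, ?_⟩
      · push_cast
        unfold mv
        rw [add_same, hc, one_smul, LinearMap.id_apply, Pi.add_apply, h3, zero_add]
        · exact h1
        · have := hcast (t + 1) ht
          push_cast at this
          rw [this]
          omega
      · intro j l hl
        unfold mv
        by_cases hj : j = (t : ZMod M) + 1
        · subst hj
          rw [add_same, hc, one_smul, LinearMap.id_apply, Pi.add_apply, h2 _ _ hl, h2 _ _ hl,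
            add_zero]
        · rw [add_ne _ _ _ _ _ _ hj]
          exact h2 _ _ hl
      · intro j hj
        unfold mv
        rw [add_ne]
        · exact h3 j (by omega)
        · rintro rfl
          have := hcast (t + 1) ht
          push_cast at this
          rw [this] at hj
          omega
  obtain ⟨w, hw, h1, h2, -⟩ := key (M - 1) (by omega)
  have hz : ((M - 1 : ℕ) : ZMod M) + 1 = 0 := by
    have : ((M - 1 : ℕ) : ZMod M) + 1 = ((M - 1 + 1 : ℕ) : ZMod M) := by push_cast; rfl
    rw [this, Nat.sub_add_cancel (by omega), ZMod.natCast_self]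
  have hc : c (M := M) (p := p) (s := s) ((M - 1 : ℕ) : ZMod M) = T p s := by
    unfold c
    rw [if_pos hz]
  refine ⟨mv hM ((M - 1 : ℕ) : ZMod M) 1 w, Or_step hM hw _ _, ?_, ?_, ?_⟩
  · intro h
    rw [← hz]
    unfold mv
    rw [add_same, hc, one_smul, Pi.add_apply, T_apply_succ (M := M), h2 _ _ (by simp), zero_add]
    exact h1
  · intro j l hl
    unfold mv
    by_cases hj : j = ((M - 1 : ℕ) : ZMod M) + 1
    · subst hj
      rw [add_same, hc, one_smul, Pi.add_apply, h2 _ _ (by omega), zero_add]
      exact T_apply_gt _ m (fun l hl => h2 _ l hl) l hl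
    · rw [add_ne _ _ _ _ _ _ hj]
      exact h2 _ _ (by omega)
  · intro j hj l hl
    unfold mv
    rw [add_ne]
    · exact h2 _ _ (by omega)
    · rw [hz]
      exact hj

theorem deg_exists (m : ℕ) (hm : m < s) : ∃ w ∈ Or hM p s, Deg m w := by
  induction m with
  | zero =>
    refine ⟨w0 M p s, w0_mem hM, ?_, ?_, ?_⟩
    · intro h
      simp [w0]
    · intro j l hl
      simp only [w0]
      rw [if_neg]
      omega
    · intro j hj l _
      simp only [w0]
      rw [if_neg]
      exact fun h => hj h.1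
  | succ m ih =>
    obtain ⟨v, hv, hd⟩ := ih (by omega)
    exact deg_step hM m hm v hv hd

theorem le_card : s ≤ Fintype.card (Or hM p s) := by
  have h : ∀ m : Fin s, ∃ w : Or hM p s, Deg (m : ℕ) w.1 := by
    intro m
    obtain ⟨w, hw, hd⟩ := deg_exists (p := p) (s := s) hM (m : ℕ) m.2
    exact ⟨⟨w, hw⟩, hd⟩
  choose f hf using h
  have hinj : Function.Injective f := by
    intro m n hmn
    have h1 := hf m
    have h2 := hf n
    rw [hmn] at h1
    by_contra hne
    rcases lt_or_gt_of_ne hne with h | h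
    · exact h2.1 n.2 (h1.2.1 0 _ h)
    · exact h1.1 m.2 (h2.2.1 0 _ h)
  have := Fintype.card_le_of_injective f hinj
  rwa [Fintype.card_fin] at this

/-- the size of the orbit can be chosen near any number -/
theorem exists_size (n : ℕ) (hn : 1 ≤ n) : ∃ s, Fintype.card (Or hM p s) ≤ n ∧
    n ≤ p ^ M * Fintype.card (Or hM p s) := by
  classical
  set s := Nat.findGreatest (fun s => Fintype.card (Or hM p s) ≤ n) n with hs
  have h1 : Fintype.card (Or hM p s) ≤ n := by
    apply Nat.findGreatest_spec (P := fun s => Fintype.card (Or hM p s) ≤ n) (Nat.zero_le n)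
    exact (card_zero hM).trans hn
  refine ⟨s, h1, ?_⟩
  refine le_trans ?_ (card_succ_le hM)
  rcases le_or_gt (s + 1) n with h | h
  · have := Nat.findGreatest_is_greatest (P := fun s => Fintype.card (Or hM p s) ≤ n)
      (Nat.lt_succ_self s) h
    exact (not_le.1 this).le
  · have := le_card (p := p) (s := s + 1) hM
    omega

end Pool.Agent.W902.Orb
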