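import Mathlib

/-!
# Spectral gap from pairs of subgroups

`n` families of projections, most of which commute.
-/

set_option autoImplicit false

open Finset
open scoped InnerProductSpace

namespace Pool.Agent.W902.Spec

variable {E : Type*} [NormedAddCommGroup E] [InnerProductSpace ℝ E]

/-- symmetric idempotent operators -/
structure Proj (P : E →ₗ[ℝ] E) : Prop where
  symm : ∀ x y, ⟪P x, y⟫_ℝ = ⟪x, P y⟫_ℝ
  idem : ∀ x, P (P x) = P x

theorem Proj.inner_self {P : E →ₗ[ℝ] E} (h : Proj P) (x : E) : ⟪x, P x⟫_ℝ = ‖P x‖ ^ 2 := by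
  rw [← real_inner_self_eq_norm_sq, h.symm, h.idem]

theorem Proj.compl {P : E →ₗ[ℝ] E} (h : Proj P) : Proj (LinearMap.id - P) := by
  constructor
  · intro x y
    simp only [LinearMap.sub_apply, LinearMap.id_apply, inner_sub_left, inner_sub_right, h.symm]
  · intro x
    simp only [LinearMap.sub_apply, LinearMap.id_apply, map_sub, h.idem]
    abel

theorem comm_nonneg {P P' : E →ₗ[ℝ] E} (h : Proj P) (h' : Proj P') (x : E)
    (hc : P (P' x) = P' (P x)) : 0 ≤ ⟪x - P x, x - P' x⟫_ℝ := by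
  have e : ⟪x - P x, x - P' x⟫_ℝ = ⟪(x - P x) - P' (x - P x), (x - P x) - P' (x - P x)⟫_ℝ := by
    have h1 := h'.compl
    have h2 := h.compl
    set u := x - P x with hu
    have e1 : ⟪u - P' u, u - P' u⟫_ℝ = ⟪u, u - P' u⟫_ℝ := by
      have := h1.symm u (u - P' u)
      simp only [LinearMap.sub_apply, LinearMap.id_apply] at this
      rw [this]
      congr 1
      have := h1.idem u
      simp only [LinearMap.sub_apply, LinearMap.id_apply] at this
      exact this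
    rw [e1]
    have e2 : u - P' u = (x - P' x) - P (x - P' x) := by
      rw [hu, map_sub, map_sub, hc]
      abel
    rw [e2, hu]
    have := h2.symm x ((x - P' x) - P (x - P' x))
    simp only [LinearMap.sub_apply, LinearMap.id_apply] at this
    rw [this]
    have h3 := h2.symm x (x - P' x)
    simp only [LinearMap.sub_apply, LinearMap.id_apply] at h3
    rw [h3]
    congr 1
    have := h2.idem (x - P' x)
    simp only [LinearMap.sub_apply, LinearMap.id_apply] at this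
    exact this.symm
  rw [e]
  exact real_inner_self_nonneg

theorem num (X s g ε : ℝ) (h1 : s ^ 2 ≤ X * (s + 2 * g)) (h2 : 2 * g ≤ ε * s)
    (h3 : -(2 * g) ≤ ε * s) (h4 : 0 ≤ ε) (h5 : ε < 1) (h6 : 0 ≤ s) (h7 : 0 ≤ X) :
    0 ≤ (2 + 2 * ε) * X - (2 + ε) * s + 2 * g := by
  rcases h6.eq_or_lt with hs | hs
  · subst hs
    have : g = 0 := by linarith
    rw [this]
    nlinarith
  · have h8 : 0 < s + 2 * g := by nlinarith
    have h9 : 0 ≤ (ε * s - 2 * g) * (s - 2 * g) := by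
      apply mul_nonneg
      · linarith
      · nlinarith
    have h10 : 0 ≤ ((2 + 2 * ε) * X - (2 + ε) * s + 2 * g) * (s + 2 * g) := by
      nlinarith [mul_le_mul_of_nonneg_left h1 (show (0 : ℝ) ≤ 2 + 2 * ε by linarith)]
    by_contra hneg
    push Not at hneg
    nlinarith [mul_neg_of_neg_of_pos hneg h8]

/-- two projections which are nearly orthogonal -/
theorem near_orth {P P' : E →ₗ[ℝ] E} (h : Proj P) (h' : Proj P') (x : E)
    (hg : ⟪P x, P' x⟫_ℝ ^ 2 ≤ (1 / 16) * (‖P x‖ ^ 2 * ‖P' x‖ ^ 2)) :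
    0 ≤ 2 * ⟪x - P x, x - P' x⟫_ℝ + (1 / 4) * (‖x - P x‖ ^ 2 + ‖x - P' x‖ ^ 2) := by
  set a := P x with ha
  set b := P' x with hb
  have e1 : ⟪x, a⟫_ℝ = ‖a‖ ^ 2 := h.inner_self x
  have e2 : ⟪x, b⟫_ℝ = ‖b‖ ^ 2 := h'.inner_self x
  have e3 : ⟪x - a, x - b⟫_ℝ = ‖x‖ ^ 2 - ‖a‖ ^ 2 - ‖b‖ ^ 2 + ⟪a, b⟫_ℝ := by
    rw [inner_sub_left, inner_sub_right, inner_sub_right, real_inner_self_eq_norm_sq, e2,
      real_inner_comm x a, e1]
    ring
  have e4 : ‖x - a‖ ^ 2 = ‖x‖ ^ 2 - ‖a‖ ^ 2 := by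
    rw [norm_sub_sq_real, e1]; ring
  have e5 : ‖x - b‖ ^ 2 = ‖x‖ ^ 2 - ‖b‖ ^ 2 := by
    rw [norm_sub_sq_real, e2]; ring
  have h6 : (‖a‖ ^ 2 + ‖b‖ ^ 2) ^ 2 ≤ ‖x‖ ^ 2 * ((‖a‖ ^ 2 + ‖b‖ ^ 2) + 2 * ⟪a, b⟫_ℝ) := by
    have h7 : ⟪x, a + b⟫_ℝ = ‖a‖ ^ 2 + ‖b‖ ^ 2 := by rw [inner_add_right, e1, e2]
    have h8 := real_inner_mul_inner_self_le x (a + b)
    rw [h7, real_inner_self_eq_norm_sq, real_inner_self_eq_norm_sq, norm_add_sq_real] at h8
    nlinarith
  have h9 : 2 * |⟪a, b⟫_ℝ| ≤ (1 / 4) * (‖a‖ ^ 2 + ‖b‖ ^ 2) := by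
    have h10 : (2 * |⟪a, b⟫_ℝ|) ^ 2 ≤ ((1 / 4) * (‖a‖ ^ 2 + ‖b‖ ^ 2)) ^ 2 := by
      rw [mul_pow, sq_abs]
      nlinarith [sq_nonneg (‖a‖ ^ 2 - ‖b‖ ^ 2)]
    exact abs_le_of_sq_le_sq' h10 (by positivity) |>.2
  have h11 := abs_le.1 (le_refl |⟪a, b⟫_ℝ|)
  have h12 := num (‖x‖ ^ 2) (‖a‖ ^ 2 + ‖b‖ ^ 2) ⟪a, b⟫_ℝ (1 / 4) h6 (by linarith) (by linarith)
    (by norm_num) (by norm_num) (by positivity) (by positivity)
  rw [e3, e4, e5]
  linarith

section gap

variable {ι : Type*} [Fintype ι] [DecidableEq ι] (P : ι → E →ₗ[ℝ] E) (σ : Equiv.Perm ι)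

/-- the Laplacian -/
noncomputable def lap : E →ₗ[ℝ] E := ∑ i, (LinearMap.id - P i)

theorem lap_apply (x : E) : lap P x = ∑ i, (x - P i x) := by
  simp [lap]

theorem inner_lap (hP : ∀ i, Proj (P i)) (x y : E) :
    ⟪lap P x, y⟫_ℝ = ∑ i, ⟪x - P i x, y - P i y⟫_ℝ := by
  rw [lap_apply, sum_inner]
  refine Finset.sum_congr rfl fun i _ => ?_
  have h1 := (hP i).compl
  have h2 := h1.symm (x - P i x) y
  have h3 := h1.idem x
  simp only [LinearMap.sub_apply, LinearMap.id_apply] at h2 h3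
  rw [h3] at h2
  exact h2

/-- the square of the Laplacian is large -/
theorem gap_sq (hP : ∀ i, Proj (P i)) (hσ : ∀ i, σ i ≠ i)
    (hadj : ∀ i x, 0 ≤ 2 * ⟪x - P i x, x - P (σ i) x⟫_ℝ +
      (1 / 4) * (‖x - P i x‖ ^ 2 + ‖x - P (σ i) x‖ ^ 2))
    (hcomm : ∀ i j, i ≠ j → j ≠ σ i → i ≠ σ j → ∀ x, P i (P j x) = P j (P i x)) (x : E) :
    (1 / 2) * ∑ i, ‖x - P i x‖ ^ 2 ≤ ‖lap P x‖ ^ 2 := by
  have h1 : ‖lap P x‖ ^ 2 = ∑ i, ∑ j, ⟪x - P i x, x - P j x⟫_ℝ := by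
    rw [← real_inner_self_eq_norm_sq, lap_apply, sum_inner]
    refine Finset.sum_congr rfl fun i _ => ?_
    rw [inner_sum]
  set q : ι → ℝ := fun i => ‖x - P i x‖ ^ 2 with hq
  have hq0 : ∀ i, 0 ≤ q i := fun i => by positivity
  have h2 : ∀ i j, (if i = j then q i else 0) - (if j = σ i then (1 / 8) * (q i + q j) else 0) -
      (if i = σ j then (1 / 8) * (q i + q j) else 0) ≤ ⟪x - P i x, x - P j x⟫_ℝ := by
    intro i j
    by_cases h3 : i = j
    · subst h3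
      rw [if_pos rfl, if_neg (fun h => hσ i h.symm), real_inner_self_eq_norm_sq, sub_zero, sub_zero]
    · rw [if_neg h3]
      by_cases h4 : j = σ i
      · have h5 := hadj i x
        rw [← h4] at h5
        rw [if_pos h4]
        have h6 : 0 ≤ (if i = σ j then (1 / 8) * (q i + q j) else 0) := by
          split_ifs
          · have := hq0 i; have := hq0 j; linarith
          · exact le_refl _
        simp only [hq] at h6 ⊢
        linarith
      · rw [if_neg h4]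
        by_cases h5 : i = σ j
        · have h6 := hadj j x
          rw [← h5] at h6
          rw [if_pos h5, real_inner_comm]
          simp only [hq]
          linarith
        · rw [if_neg h5]
          have := comm_nonneg (hP i) (hP j) x (hcomm i j h3 h4 h5 x)
          linarith
  have h3 := Finset.sum_le_sum (s := (univ : Finset ι)) fun i _ =>
    Finset.sum_le_sum (s := (univ : Finset ι)) fun j _ => h2 i j
  rw [← h1] at h3
  refine le_trans (le_of_eq ?_) h3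
  simp only [Finset.sum_sub_distrib]
  have e1 : ∑ i, ∑ j, (if i = j then q i else 0) = ∑ i, q i := by
    refine Finset.sum_congr rfl fun i _ => ?_
    simp
  have e2 : ∑ i, ∑ j, (if j = σ i then (1 / 8) * (q i + q j) else 0) = (1 / 4) * ∑ i, q i := by
    have : ∀ i, ∑ j, (if j = σ i then (1 / 8) * (q i + q j) else 0) =
        (1 / 8) * (q i + q (σ i)) := by
      intro i
      simp
    rw [Finset.sum_congr rfl fun i _ => this i, ← Finset.mul_sum, Finset.sum_add_distrib,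
      Equiv.sum_comp σ q]
    ring
  have e3 : ∑ i, ∑ j, (if i = σ j then (1 / 8) * (q i + q j) else 0) = (1 / 4) * ∑ i, q i := by
    rw [Finset.sum_comm]
    have : ∀ j, ∑ i, (if i = σ j then (1 / 8) * (q i + q j) else 0) =
        (1 / 8) * (q (σ j) + q j) := by
      intro j
      simp
    rw [Finset.sum_congr rfl fun i _ => this i, ← Finset.mul_sum, Finset.sum_add_distrib,
      Equiv.sum_comp σ q]
    ring
  rw [e1, e2, e3]
  ring

/-- the Poincaré inequality -/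
theorem poincare [FiniteDimensional ℝ E] (hP : ∀ i, Proj (P i)) (hσ : ∀ i, σ i ≠ i)
    (hadj : ∀ i x, 0 ≤ 2 * ⟪x - P i x, x - P (σ i) x⟫_ℝ +
      (1 / 4) * (‖x - P i x‖ ^ 2 + ‖x - P (σ i) x‖ ^ 2))
    (hcomm : ∀ i j, i ≠ j → j ≠ σ i → i ≠ σ j → ∀ x, P i (P j x) = P j (P i x)) (x : E)
    (hx : ∀ u, (∀ i, P i u = u) → ⟪u, x⟫_ℝ = 0) :
    ‖x‖ ^ 2 ≤ 2 * ∑ i, ‖x - P i x‖ ^ 2 := by
  have hsym : (lap P).IsSymmetric := by
    intro u v
    rw [inner_lap P hP, ← real_inner_comm u (lap P v), inner_lap P hP]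
    refine Finset.sum_congr rfl fun i _ => ?_
    rw [real_inner_comm]
  have hadjt : (lap P).adjoint = lap P := by
    have := (LinearMap.isSymmetric_iff_isSelfAdjoint (lap P)).1 hsym
    exact this
  have hker : ∀ u, lap P u = 0 → ∀ i, P i u = u := by
    intro u hu i
    have h1 := inner_lap P hP u u
    rw [hu, inner_zero_left] at h1
    have h2 : ∀ j ∈ (univ : Finset ι), 0 ≤ ⟪u - P j u, u - P j u⟫_ℝ :=
      fun j _ => real_inner_self_nonneg
    have h3 := (Finset.sum_eq_zero_iff_of_nonneg h2).1 h1.symm i (Finset.mem_univ i)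
    have h4 := inner_self_eq_zero.1 h3
    exact (sub_eq_zero.1 h4).symm
  have hmem : x ∈ (LinearMap.ker (lap P))ᗮ := by
    rw [Submodule.mem_orthogonal]
    intro u hu
    exact hx u (hker u (LinearMap.mem_ker.1 hu))
  rw [LinearMap.orthogonal_ker, hadjt] at hmem
  obtain ⟨y, hy⟩ := hmem
  have h1 := gap_sq P σ hP hσ hadj hcomm y
  rw [hy] at h1
  have h2 : ‖x‖ ^ 2 = ∑ i, ⟪x - P i x, y - P i y⟫_ℝ := by
    rw [← inner_lap P hP, hsym, hy, real_inner_self_eq_norm_sq]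
  have h3 : ‖x‖ ^ 2 ≤ ∑ i, ‖x - P i x‖ * ‖y - P i y‖ := by
    rw [h2]
    exact Finset.sum_le_sum fun i _ => real_inner_le_norm _ _
  have h4 := Finset.sum_mul_sq_le_sq_mul_sq univ (fun i => ‖x - P i x‖) (fun i => ‖y - P i y‖)
  have h5 : (‖x‖ ^ 2) ^ 2 ≤ (∑ i, ‖x - P i x‖ ^ 2) * (2 * ‖x‖ ^ 2) := by
    calc (‖x‖ ^ 2) ^ 2 ≤ (∑ i, ‖x - P i x‖ * ‖y - P i y‖) ^ 2 :=
          pow_le_pow_left₀ (by positivity) h3 2
      _ ≤ (∑ i, ‖x - P i x‖ ^ 2) * (∑ i, ‖y - P i y‖ ^ 2) := h4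
      _ ≤ _ := by
          apply mul_le_mul_of_nonneg_left _ (by positivity)
          linarith
  rcases (sq_nonneg ‖x‖).eq_or_lt with h6 | h6
  · rw [← h6]; positivity
  · by_contra h7
    push Not at h7
    nlinarith

end gap

end Pool.Agent.W902.Spec
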